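import Pool.Agent.Run7.h917.PrimA

/-!
# The homeomorphism `X ≃ Prim A`
-/

open TopologicalSpace

set_option linter.unusedSectionVars false

namespace Run7.h917

noncomputable section

universe u

namespace PathSpace
variable {P : Type} [TopologicalSpace P] {σ : PtSys P} (Λ : PathSpace σ) [CompactSpace P]
  [T2Space P] {X : Type u} [TopologicalSpace X] (e : Closeds X ≃o σ.InvClosed)

/-- underlying set -/
def us (F : σ.InvClosed) : Set P := (F.1 : Set P)

theorem isInv_us (F : σ.InvClosed) : σ.IsInv (us F) := ⟨F.1.isClosed, F.2.1, F.2.2⟩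

/-- bundle -/
def mkInv {F : Set P} (hF : σ.IsInv F) : σ.InvClosed := ⟨⟨F, hF.closed⟩, hF.pt, hF.inv⟩

theorem us_mkInv {F : Set P} (hF : σ.IsInv F) : us (mkInv hF) = F := rfl

theorem le_iff_us {F G : σ.InvClosed} : F ≤ G ↔ us F ⊆ us G := Iff.rfl

theorem us_injective : Function.Injective (us (σ := σ)) := by
  intro F G h
  exact le_antisymm (le_iff_us.2 h.subset) (le_iff_us.2 h.superset)

/-- union -/
theorem isInv_union {F G : Set P} (hF : σ.IsInv F) (hG : σ.IsInv G) : σ.IsInv (F ∪ G) :=
  ⟨hF.closed.union hG.closed, Or.inl hF.pt, fun i p hp => hp.elim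
    (fun h => Or.inl (hF.inv i p h)) (fun h => Or.inr (hG.inv i p h))⟩

theorem isInv_pt : σ.IsInv {σ.pt} :=
  ⟨isClosed_singleton, rfl, fun i p hp => by
    rw [Set.mem_singleton_iff] at hp ⊢; rw [hp, σ.map_pt]⟩

theorem us_sup (Y Z : Closeds X) : us (e (Y ⊔ Z)) = us (e Y) ∪ us (e Z) := by
  apply Set.Subset.antisymm
  · set G : σ.InvClosed := mkInv (isInv_union (isInv_us (e Y)) (isInv_us (e Z))) with hG
    have h1 : Y ⊔ Z ≤ e.symm G := by
      refine sup_le ?_ ?_
      · rw [e.le_symm_apply]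
        exact le_iff_us.2 (by rw [hG, us_mkInv]; exact Set.subset_union_left)
      · rw [e.le_symm_apply]
        exact le_iff_us.2 (by rw [hG, us_mkInv]; exact Set.subset_union_right)
    rw [e.le_symm_apply] at h1
    exact le_iff_us.1 h1
  · refine Set.union_subset ?_ ?_
    · exact le_iff_us.1 (e.monotone le_sup_left)
    · exact le_iff_us.1 (e.monotone le_sup_right)

theorem us_bot_subset : us (e ⊥) ⊆ {σ.pt} := by
  have h1 : (⊥ : Closeds X) ≤ e.symm (mkInv isInv_pt) := bot_le
  rw [e.le_symm_apply] at h1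
  exact le_iff_us.1 h1

theorem isPrimeInv_iff (Y : Closeds X) :
    σ.IsPrimeInv (us (e Y)) ↔ _root_.IsIrreducible (Y : Set X) := by
  constructor
  · intro h
    refine ⟨?_, ?_⟩
    · rw [Set.nonempty_iff_ne_empty]
      intro hY
      have hY' : Y = ⊥ := by ext x; simp [hY]
      obtain ⟨p, hp, hp'⟩ := h.ne
      rw [hY'] at hp
      exact hp' (us_bot_subset e hp)
    · rw [isPreirreducible_iff_isClosed_union_isClosed]
      intro Z₁ Z₂ h1 h2 hsub
      have h3 : us (e Y) ⊆ us (e ⟨Z₁, h1⟩) ∪ us (e ⟨Z₂, h2⟩) := by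
        rw [← us_sup, ← le_iff_us, e.le_iff_le]
        exact hsub
      rcases h.prime _ _ (isInv_us _) (isInv_us _) h3 with h4 | h4
      · left
        rw [← le_iff_us, e.le_iff_le] at h4
        exact h4
      · right
        rw [← le_iff_us, e.le_iff_le] at h4
        exact h4
  · intro h
    refine ⟨isInv_us _, ?_, ?_⟩
    · by_contra hcon
      push Not at hcon
      have h1 : e Y ≤ mkInv isInv_pt := le_iff_us.2 fun p hp => hcon p hp
      have h2 : e Y ≤ e ⊥ := h1.trans (le_iff_us.2 (by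
        intro p hp
        rw [us_mkInv, Set.mem_singleton_iff] at hp
        rw [hp]
        exact (isInv_us (e ⊥)).pt))
      rw [e.le_iff_le] at h2
      obtain ⟨x, hx⟩ := h.nonempty
      exact h2 hx
    · intro F₁ F₂ h1 h2 hsub
      set Z₁ := e.symm (mkInv h1) with hZ₁
      set Z₂ := e.symm (mkInv h2) with hZ₂
      have e1 : us (e Z₁) = F₁ := by rw [hZ₁, e.apply_symm_apply, us_mkInv]
      have e2 : us (e Z₂) = F₂ := by rw [hZ₂, e.apply_symm_apply, us_mkInv]
      rw [← e1, ← e2, ← us_sup, ← le_iff_us, e.le_iff_le] at hsub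
      have h3 := h.isPreirreducible
      rw [isPreirreducible_iff_isClosed_union_isClosed] at h3
      rcases h3 (Z₁ : Set X) (Z₂ : Set X) Z₁.isClosed Z₂.isClosed hsub with h4 | h4
      · left
        rw [← e1, ← le_iff_us, e.le_iff_le]
        exact h4
      · right
        rw [← e2, ← le_iff_us, e.le_iff_le]
        exact h4

variable [SecondCountableTopology P]

/-- point closure as a closed set -/
def pc (x : X) : Closeds X := ⟨closure {x}, isClosed_closure⟩

theorem exists_hx (x : X) : ∃ I : Prim Λ.A, Λ.toF I = us (e (pc x)) :=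
  exists_prim ((isPrimeInv_iff e (pc x)).2 (isIrreducible_singleton.closure))

/-- the map `X → Prim A` -/
def hx (x : X) : Prim Λ.A := (Λ.exists_hx e x).choose

theorem toF_hx (x : X) : Λ.toF (Λ.hx e x) = us (e (pc x)) := (Λ.exists_hx e x).choose_spec

theorem hx_bijective [T0Space X] [QuasiSober X] : Function.Bijective (Λ.hx e) := by
  constructor
  · intro x y h
    have h1 : us (e (pc x)) = us (e (pc y)) := by rw [← Λ.toF_hx e, ← Λ.toF_hx e, h]
    have h2 : pc x = pc y := e.injective (us_injective h1)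
    have h3 : closure {x} = closure {y} := congrArg (fun Y : Closeds X => (Y : Set X)) h2
    exact (inseparable_iff_closure_eq.2 h3).eq
  · intro I
    have h1 := isPrimeInv_toF I
    set Y := e.symm (mkInv h1.toIsInv) with hY
    have e1 : us (e Y) = Λ.toF I := by rw [hY, e.apply_symm_apply, us_mkInv]
    rw [← e1, isPrimeInv_iff] at h1
    obtain ⟨x, hx⟩ := QuasiSober.sober h1 Y.isClosed
    refine ⟨x, toF_injective ?_⟩
    rw [Λ.toF_hx e, ← e1]
    congr 2
    ext z
    change z ∈ closure {x} ↔ z ∈ (Y : Set X)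
    rw [hx.def]

theorem hx_le_iff (x : X) (Y : Closeds X) : Λ.toF (Λ.hx e x) ⊆ us (e Y) ↔ x ∈ Y := by
  rw [Λ.toF_hx e, ← le_iff_us, e.le_iff_le]
  constructor
  · intro h
    exact h (subset_closure rfl)
  · intro h
    exact closure_minimal (Set.singleton_subset_iff.2 h) Y.isClosed

include e in
/-- **the homeomorphism** -/
theorem nonempty_homeo [T0Space X] [QuasiSober X] : Nonempty (Prim Λ.A ≃ₜ X) := by
  have hb := Λ.hx_bijective e
  have hc : Continuous (Λ.hx e) := by
    rw [continuous_iff_isClosed]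
    intro C hC
    obtain ⟨F, hF, rfl⟩ := isClosed_toF_iff.1 hC
    set Y := e.symm (mkInv hF) with hY
    have e1 : us (e Y) = F := by rw [hY, e.apply_symm_apply, us_mkInv]
    have : Λ.hx e ⁻¹' {I | Λ.toF I ⊆ F} = (Y : Set X) := by
      ext x
      rw [Set.mem_preimage, Set.mem_ofPred_eq, ← e1, hx_le_iff]
      rfl
    rw [this]
    exact Y.isClosed
  have hcl : IsClosedMap (Λ.hx e) := by
    intro C hC
    rw [isClosed_toF_iff]
    refine ⟨us (e ⟨C, hC⟩), isInv_us _, ?_⟩
    ext I
    obtain ⟨x, rfl⟩ := hb.2 I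
    rw [Set.mem_ofPred_eq, hx_le_iff]
    constructor
    · rintro ⟨y, hy, hxy⟩
      rw [← hb.1 hxy]; exact hy
    · intro h; exact ⟨x, h, rfl⟩
  exact ⟨((Equiv.ofBijective _ hb).toHomeomorphOfContinuousClosed hc hcl).symm⟩

end PathSpace

end

end Run7.h917
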