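import Pool.Agent.Run7.h917.Alg

/-!
# Separability of `A`
-/

open TopologicalSpace

namespace Run7.h917

noncomputable section

namespace PathSpace
variable {P : Type} [TopologicalSpace P] {σ : PtSys P} (Λ : PathSpace σ) [CompactSpace P]

theorem separable_A [T2Space P] [SecondCountableTopology P] : SeparableSpace Λ.A := by
  have h1 : IsSeparable (Λ.monSet) := by
    have h2 : Λ.monSet ⊆ ⋃ q : List ℕ × List ℕ, (fun f : C(P, ℂ) => Λ.mon q.1 f q.2) '' Set.univ := by
      rintro x ⟨μ, f, ν, -, rfl⟩
      exact Set.mem_iUnion.2 ⟨(μ, ν), f, trivial, rfl⟩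
    refine IsSeparable.mono (IsSeparable.iUnion fun q => ?_) h2
    refine IsSeparable.image (IsSeparable.of_separableSpace _) ?_
    have : Continuous fun f : C(P, ℂ) => Λ.Sw q.1 * Λ.DfL f * star (Λ.Sw q.2) :=
      (continuous_const.mul Λ.DfL.continuous).mul continuous_const
    exact this
  have h3 : IsSeparable (Λ.A : Set (Λ.H →L[ℂ] Λ.H)) := by
    have h4 : IsSeparable (Submodule.span ℂ Λ.monSet : Set (Λ.H →L[ℂ] Λ.H)) := h1.span
    exact h4.closure
  exact h3.separableSpace

end PathSpace

end

end Run7.h917
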