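import Pool.Agent.Run7.h917.Nuc
import Pool.Agent.Run7.h917.Homeo
import Pool.Agent.Run7.h917.Sep

/-!
# Part II: from a pointed system to the algebra
-/

open TopologicalSpace

namespace Run7.h917

universe u

/-- **Part II.** -/
theorem exists_algebra {P : Type} [TopologicalSpace P] [CompactSpace P] [T2Space P]
    [SecondCountableTopology P] (σ : PtSys P) {X : Type u} [TopologicalSpace X] [T0Space X]
    [QuasiSober X] (e : Closeds X ≃o σ.InvClosed) :
    ∃ (A : Type) (_ : NonUnitalCStarAlgebra A) (_ : PartialOrder A) (_ : StarOrderedRing A),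
      SeparableSpace A ∧ IsNuclear A ∧ Nonempty (Prim A ≃ₜ X) := by
  obtain ⟨Λ⟩ := exists_pathSpace σ
  exact ⟨Λ.A, inferInstance, CStarAlgebra.spectralOrder Λ.A, CStarAlgebra.spectralOrderedRing Λ.A,
    Λ.separable_A, @PathSpace.isNuclear _ _ _ Λ _ _ (CStarAlgebra.spectralOrder Λ.A)
      (CStarAlgebra.spectralOrderedRing Λ.A), Λ.nonempty_homeo e⟩

end Run7.h917
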