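import Mathlib

/-!
# Diagonal operators and shift operators on `ℓ²(ι)`
-/

open scoped ENNReal ComplexConjugate InnerProductSpace

namespace Run7.h917

noncomputable section

/-- `ℓ²(ι)` -/
abbrev L2 (ι : Type) := lp (fun _ : ι => ℂ) 2

namespace L2
variable {ι : Type}

theorem summable_sq (ξ : L2 ι) : Summable fun t => ‖ξ t‖ ^ 2 := by
  have := (memℓp_gen_iff (p := 2) (by norm_num)).1 (lp.memℓp ξ)
  simpa using this

theorem norm_sq (ξ : L2 ι) : ‖ξ‖ ^ 2 = ∑' t, ‖ξ t‖ ^ 2 := by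
  have := lp.norm_rpow_eq_tsum (p := 2) (by norm_num) ξ
  simpa using this

theorem mem_of_summable {f : ι → ℂ} (hf : Summable fun t => ‖f t‖ ^ 2) :
    Memℓp (E := fun _ : ι => ℂ) f 2 := by
  rw [memℓp_gen_iff (by norm_num)]
  simpa using hf

/-- make an element of `ℓ²` -/
def mk (f : ι → ℂ) (hf : Summable fun t => ‖f t‖ ^ 2) : L2 ι := ⟨f, mem_of_summable hf⟩

@[simp] theorem mk_apply (f : ι → ℂ) (hf : Summable fun t => ‖f t‖ ^ 2) (t : ι) :
    (mk f hf : L2 ι) t = f t := rfl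

open Classical in
/-- the standard basis -/
def δ (t : ι) : L2 ι := lp.single 2 t (1 : ℂ)

open Classical in
theorem δ_apply (t s : ι) : (δ t : L2 ι) s = if s = t then 1 else 0 := by
  unfold δ
  rw [lp.coeFn_single, Pi.single_apply]

@[simp] theorem δ_self (t : ι) : (δ t : L2 ι) t = 1 := by rw [δ_apply]; simp

theorem δ_ne {t s : ι} (h : s ≠ t) : (δ t : L2 ι) s = 0 := by rw [δ_apply]; simp [h]

theorem inner_δ_left (t : ι) (ξ : L2 ι) : ⟪δ t, ξ⟫_ℂ = ξ t := by
  classical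
  unfold δ
  have := lp.inner_single_left (𝕜 := ℂ) (G := fun _ : ι => ℂ) t (1 : ℂ) ξ
  have h2 : (inner ℂ (1 : ℂ) (ξ t) : ℂ) = ξ t := by simp
  rw [h2] at this
  convert this

theorem inner_δ_right (t : ι) (ξ : L2 ι) : ⟪ξ, δ t⟫_ℂ = conj (ξ t) := by
  rw [← inner_conj_symm, inner_δ_left]

@[simp] theorem norm_δ (t : ι) : ‖(δ t : L2 ι)‖ = 1 := by
  classical
  unfold δ
  rw [lp.norm_single (by norm_num)]
  simp

theorem norm_apply_le (ξ : L2 ι) (t : ι) : ‖ξ t‖ ≤ ‖ξ‖ := by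
  exact lp.norm_apply_le_norm (by norm_num) ξ t

theorem ext_δ {E : Type*} [AddCommMonoid E] [Module ℂ E] [TopologicalSpace E] [T2Space E]
    {X Y : L2 ι →L[ℂ] E} (h : ∀ t, X (δ t) = Y (δ t)) : X = Y := by
  classical
  refine lp.ext_continuousLinearMap (by norm_num) (fun t => ?_)
  ext
  have := h t
  unfold δ at this
  have e : (lp.singleContinuousLinearMap ℂ (fun _ : ι => ℂ) 2 t) 1 = lp.single 2 t (1 : ℂ) := rfl
  simp only [ContinuousLinearMap.comp_apply, e]
  convert this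

/-- boundedness of a function -/
def Bdd (g : ι → ℂ) : Prop := ∃ C : ℝ, ∀ t, ‖g t‖ ≤ C

theorem summable_mul {g : ι → ℂ} {C : ℝ} (hC : ∀ t, ‖g t‖ ≤ C) (ξ : L2 ι) :
    Summable fun t => ‖g t * ξ t‖ ^ 2 := by
  refine Summable.of_nonneg_of_le (fun t => by positivity) (fun t => ?_)
    ((summable_sq ξ).mul_left (C ^ 2))
  rw [norm_mul, mul_pow]
  gcongr
  exact hC t

theorem norm_mul_le {g : ι → ℂ} {C : ℝ} (hC0 : 0 ≤ C) (hC : ∀ t, ‖g t‖ ≤ C) (ξ : L2 ι) :
    ‖(mk (fun t => g t * ξ t) (summable_mul hC ξ) : L2 ι)‖ ≤ C * ‖ξ‖ := by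
  have h : ‖(mk (fun t => g t * ξ t) (summable_mul hC ξ) : L2 ι)‖ ^ 2 ≤ (C * ‖ξ‖) ^ 2 := by
    rw [norm_sq, mul_pow, norm_sq ξ, ← tsum_mul_left]
    refine Summable.tsum_le_tsum (fun t => ?_) (summable_mul hC ξ)
      ((summable_sq ξ).mul_left (C ^ 2))
    rw [mk_apply, norm_mul, mul_pow]
    gcongr
    exact hC t
  exact le_of_sq_le_sq h (by positivity)

open Classical in
/-- the diagonal operator -/
def D (g : ι → ℂ) : L2 ι →L[ℂ] L2 ι :=
  if hg : ∃ C : ℝ, 0 ≤ C ∧ ∀ t, ‖g t‖ ≤ C then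
    LinearMap.mkContinuous
      { toFun := fun ξ => mk (fun t => g t * ξ t) (summable_mul hg.choose_spec.2 ξ)
        map_add' := fun ξ η => by
          ext t
          simp [mul_add]
        map_smul' := fun a ξ => by
          ext t
          simp [mul_left_comm] } hg.choose
      (fun ξ => norm_mul_le hg.choose_spec.1 hg.choose_spec.2 ξ)
  else 0

theorem Bdd.exists_nonneg {g : ι → ℂ} (hg : Bdd g) : ∃ C : ℝ, 0 ≤ C ∧ ∀ t, ‖g t‖ ≤ C := by
  obtain ⟨C, hC⟩ := hg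
  exact ⟨max C 0, le_max_right _ _, fun t => (hC t).trans (le_max_left _ _)⟩

theorem D_apply {g : ι → ℂ} (hg : Bdd g) (ξ : L2 ι) (t : ι) : (D g ξ) t = g t * ξ t := by
  unfold D
  rw [dif_pos hg.exists_nonneg]
  rfl

theorem norm_D_le {g : ι → ℂ} {C : ℝ} (hC0 : 0 ≤ C) (hC : ∀ t, ‖g t‖ ≤ C) : ‖D g‖ ≤ C := by
  refine ContinuousLinearMap.opNorm_le_bound _ hC0 (fun ξ => ?_)
  have : D g ξ = mk (fun t => g t * ξ t) (summable_mul hC ξ) := by
    ext t
    rw [D_apply ⟨C, hC⟩]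
    rfl
  rw [this]
  exact norm_mul_le hC0 hC ξ

theorem D_δ {g : ι → ℂ} (hg : Bdd g) (t : ι) : D g (δ t) = g t • δ t := by
  ext s
  rw [D_apply hg]
  by_cases h : s = t
  · subst h; simp
  · simp [δ_ne h]

theorem Bdd.mul {g h : ι → ℂ} (hg : Bdd g) (hh : Bdd h) : Bdd (fun t => g t * h t) := by
  obtain ⟨C, hC0, hC⟩ := hg.exists_nonneg
  obtain ⟨C', hC0', hC'⟩ := hh.exists_nonneg
  exact ⟨C * C', fun t => by rw [norm_mul]; exact mul_le_mul (hC t) (hC' t) (norm_nonneg _) hC0⟩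

theorem Bdd.add {g h : ι → ℂ} (hg : Bdd g) (hh : Bdd h) : Bdd (fun t => g t + h t) := by
  obtain ⟨C, hC⟩ := hg
  obtain ⟨C', hC'⟩ := hh
  exact ⟨C + C', fun t => (norm_add_le _ _).trans (add_le_add (hC t) (hC' t))⟩

theorem Bdd.sub {g h : ι → ℂ} (hg : Bdd g) (hh : Bdd h) : Bdd (fun t => g t - h t) := by
  obtain ⟨C, hC⟩ := hg
  obtain ⟨C', hC'⟩ := hh
  exact ⟨C + C', fun t => (norm_sub_le _ _).trans (add_le_add (hC t) (hC' t))⟩

theorem Bdd.smul {g : ι → ℂ} (hg : Bdd g) (a : ℂ) : Bdd (fun t => a * g t) := by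
  obtain ⟨C, hC⟩ := hg
  exact ⟨‖a‖ * C, fun t => by rw [norm_mul]; exact mul_le_mul_of_nonneg_left (hC t) (norm_nonneg _)⟩

theorem Bdd.const (a : ℂ) : Bdd (fun _ : ι => a) := ⟨‖a‖, fun _ => le_rfl⟩

theorem Bdd.conj {g : ι → ℂ} (hg : Bdd g) : Bdd (fun t => conj (g t)) := by
  obtain ⟨C, hC⟩ := hg
  exact ⟨C, fun t => by rw [RCLike.norm_conj]; exact hC t⟩

theorem D_mul {g h : ι → ℂ} (hg : Bdd g) (hh : Bdd h) :
    D g * D h = D (fun t => g t * h t) := by
  refine ext_δ fun t => ?_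
  rw [mul_apply_eq_comp, D_δ hh, map_smul, D_δ hg, D_δ (hg.mul hh), smul_smul,
    mul_comm]

theorem D_add {g h : ι → ℂ} (hg : Bdd g) (hh : Bdd h) :
    D g + D h = D (fun t => g t + h t) := by
  refine ext_δ fun t => ?_
  rw [add_apply, D_δ hh, D_δ hg, D_δ (hg.add hh), add_smul]

theorem D_sub {g h : ι → ℂ} (hg : Bdd g) (hh : Bdd h) :
    D g - D h = D (fun t => g t - h t) := by
  refine ext_δ fun t => ?_
  rw [sub_apply, D_δ hh, D_δ hg, D_δ (hg.sub hh), sub_smul]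

theorem D_smul {g : ι → ℂ} (hg : Bdd g) (a : ℂ) :
    a • D g = D (fun t => a * g t) := by
  refine ext_δ fun t => ?_
  rw [smul_apply, D_δ hg, D_δ (hg.smul a), smul_smul]

theorem D_one : D (fun _ : ι => (1 : ℂ)) = 1 := by
  refine ext_δ fun t => ?_
  rw [D_δ (Bdd.const 1)]
  simp

theorem star_D {g : ι → ℂ} (hg : Bdd g) : star (D g) = D (fun t => conj (g t)) := by
  symm
  rw [ContinuousLinearMap.star_eq_adjoint, ContinuousLinearMap.eq_adjoint_iff]
  intro ξ η
  rw [lp.inner_eq_tsum, lp.inner_eq_tsum]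
  refine tsum_congr fun t => ?_
  rw [D_apply hg, D_apply hg.conj]
  simp only [RCLike.inner_apply, map_mul, RCLike.conj_conj]
  ring

/-! ### shifts -/

theorem extend_sq {f : ι → ι} (hf : Function.Injective f) (ξ : L2 ι) :
    Summable (fun t => ‖Function.extend f (ξ : ι → ℂ) 0 t‖ ^ 2) ∧
      ∑' t, ‖Function.extend f (ξ : ι → ℂ) 0 t‖ ^ 2 = ‖ξ‖ ^ 2 := by
  have h0 : ∀ t, t ∉ Set.range f → ‖Function.extend f (ξ : ι → ℂ) 0 t‖ ^ 2 = 0 := by
    intro t ht
    rw [Function.extend_apply' _ _ _ (by simpa using ht)]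
    simp
  have h1 : (fun t => ‖Function.extend f (ξ : ι → ℂ) 0 t‖ ^ 2) ∘ f = fun t => ‖ξ t‖ ^ 2 := by
    funext t
    simp [hf.extend_apply]
  refine ⟨(hf.summable_iff h0).1 (by rw [h1]; exact summable_sq ξ), ?_⟩
  rw [norm_sq, ← h1]
  exact (hf.tsum_eq (by
    intro t ht
    by_contra hn
    exact ht (h0 t hn))).symm

/-- the isometry `δ_t ↦ δ_{f t}` -/
def S (f : ι → ι) (hf : Function.Injective f) : L2 ι →L[ℂ] L2 ι :=
  LinearMap.mkContinuous
    { toFun := fun ξ => mk (Function.extend f (ξ : ι → ℂ) 0) (extend_sq hf ξ).1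
      map_add' := fun ξ η => by
        ext t
        change Function.extend f ((ξ + η : L2 ι) : ι → ℂ) 0 t
          = Function.extend f (ξ : ι → ℂ) 0 t + Function.extend f (η : ι → ℂ) 0 t
        by_cases h : ∃ s, f s = t
        · obtain ⟨s, rfl⟩ := h
          rw [hf.extend_apply, hf.extend_apply, hf.extend_apply]
          rfl
        · rw [Function.extend_apply' _ _ _ h, Function.extend_apply' _ _ _ h,
            Function.extend_apply' _ _ _ h]
          simp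
      map_smul' := fun a ξ => by
        ext t
        by_cases h : ∃ s, f s = t
        · obtain ⟨s, rfl⟩ := h
          simp [hf.extend_apply]
        · simp [Function.extend_apply' _ _ _ h] } 1
    (fun ξ => by
      have h : ‖(mk (Function.extend f (ξ : ι → ℂ) 0) (extend_sq hf ξ).1 : L2 ι)‖ ^ 2
          = ‖ξ‖ ^ 2 := by
        rw [norm_sq]
        exact (extend_sq hf ξ).2
      have := (sq_eq_sq₀ (norm_nonneg _) (norm_nonneg _)).1 h
      rw [one_mul]
      exact this.le)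

theorem S_apply {f : ι → ι} (hf : Function.Injective f) (ξ : L2 ι) (t : ι) :
    (S f hf ξ) (f t) = ξ t := by
  change Function.extend f (ξ : ι → ℂ) 0 (f t) = ξ t
  rw [hf.extend_apply]

theorem S_apply' {f : ι → ι} (hf : Function.Injective f) (ξ : L2 ι) {t : ι}
    (h : ∀ s, f s ≠ t) : (S f hf ξ) t = 0 := by
  change Function.extend f (ξ : ι → ℂ) 0 t = 0
  rw [Function.extend_apply' _ _ _ (by simpa using h)]
  rfl

theorem S_δ {f : ι → ι} (hf : Function.Injective f) (t : ι) : S f hf (δ t) = δ (f t) := by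
  ext s
  by_cases h : ∃ u, f u = s
  · obtain ⟨u, rfl⟩ := h
    rw [S_apply]
    by_cases h : u = t
    · subst h; rw [δ_self, δ_self]
    · rw [δ_ne h, δ_ne (fun h' => h (hf h'))]
  · rw [S_apply' hf _ (by simpa using h), δ_ne]
    rintro rfl
    exact h ⟨t, rfl⟩

/-- The adjoint of the shift: pull back along `f`. -/
theorem star_S_apply {f : ι → ι} (hf : Function.Injective f) (ξ : L2 ι) (t : ι) :
    (star (S f hf) ξ) t = ξ (f t) := by
  rw [← inner_δ_left, ContinuousLinearMap.star_eq_adjoint,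
    ContinuousLinearMap.adjoint_inner_right, S_δ, inner_δ_left]

theorem star_S_δ {f : ι → ι} (hf : Function.Injective f) (t : ι) :
    star (S f hf) (δ (f t)) = δ t := by
  ext s
  rw [star_S_apply]
  by_cases h : s = t
  · subst h; rw [δ_self, δ_self]
  · rw [δ_ne h, δ_ne (fun h' => h (hf h'))]

theorem star_S_δ' {f : ι → ι} (hf : Function.Injective f) {t : ι} (h : ∀ s, f s ≠ t) :
    star (S f hf) (δ t) = 0 := by
  ext s
  rw [star_S_apply, δ_ne (h s)]
  rfl

theorem star_S_mul_S {f : ι → ι} (hf : Function.Injective f) : star (S f hf) * S f hf = 1 := by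
  refine ext_δ fun t => ?_
  rw [mul_apply_eq_comp, S_δ, star_S_δ]
  rfl

theorem star_S_mul_S' {f g : ι → ι} (hf : Function.Injective f) (hg : Function.Injective g)
    (h : ∀ s t, f s ≠ g t) : star (S f hf) * S g hg = 0 := by
  refine ext_δ fun t => ?_
  rw [mul_apply_eq_comp, S_δ, star_S_δ' hf (fun s => h s t)]
  rfl

theorem norm_S_le {f : ι → ι} (hf : Function.Injective f) : ‖S f hf‖ ≤ 1 :=
  LinearMap.mkContinuous_norm_le _ zero_le_one _

/-- Conjugating a diagonal operator by a shift. -/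
theorem S_mul_D_mul_star {f : ι → ι} (hf : Function.Injective f) {g : ι → ℂ} (hg : Bdd g) :
    S f hf * D g * star (S f hf) = D (Function.extend f g 0) := by
  have hb : Bdd (Function.extend f g 0) := by
    obtain ⟨C, hC0, hC⟩ := hg.exists_nonneg
    refine ⟨C, fun t => ?_⟩
    by_cases h : ∃ s, f s = t
    · obtain ⟨s, rfl⟩ := h
      rw [hf.extend_apply]
      exact hC s
    · rw [Function.extend_apply' _ _ _ h]
      simpa using hC0
  refine ext_δ fun t => ?_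
  rw [D_δ hb]
  by_cases h : ∃ s, f s = t
  · obtain ⟨s, rfl⟩ := h
    rw [hf.extend_apply, mul_apply_eq_comp, mul_apply_eq_comp, star_S_δ, D_δ hg, map_smul, S_δ]
  · rw [Function.extend_apply' _ _ _ h, mul_apply_eq_comp, star_S_δ' hf (by simpa using h)]
    simp

/-- `D_g S_f = S_f D_{g ∘ f}` -/
theorem D_mul_S {f : ι → ι} (hf : Function.Injective f) {g : ι → ℂ} (hg : Bdd g) :
    D g * S f hf = S f hf * D (g ∘ f) := by
  have hb : Bdd (g ∘ f) := by
    obtain ⟨C, hC⟩ := hg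
    exact ⟨C, fun t => hC _⟩
  refine ext_δ fun t => ?_
  rw [mul_apply_eq_comp, mul_apply_eq_comp, S_δ, D_δ hg, D_δ hb, map_smul, S_δ]
  rfl

end L2

end

end Run7.h917
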