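import Pool.Agent.Run7.h917.Sys
import Pool.Agent.Run7.h917.L2

/-!
# The algebra of a pointed system
-/

open scoped ENNReal ComplexConjugate InnerProductSpace

namespace Run7.h917

noncomputable section

/-- A path space of the system: words over `ℕ` act on it. -/
structure PathSpace {P : Type} [TopologicalSpace P] (σ : PtSys P) where
  T : Type
  c : ℕ → T → T
  r : T → P
  root : P → T
  c_inj : ∀ i, Function.Injective (c i)
  c_ne : ∀ i j s t, i ≠ j → c i s ≠ c j t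
  r_c : ∀ i t, r (c i t) = σ.θ i (r t)
  r_root : ∀ p, r (root p) = p
  root_ne : ∀ p i t, c i t ≠ root p
  inf : ∀ (i : ℕ → ℕ) (p : ℕ → P), (∀ n, p n = σ.θ (i n) (p (n + 1))) →
    ∃ s : ℕ → T, ∀ n, s n = c (i n) (s (n + 1)) ∧ r (s n) = p n

/-- infinite paths -/
def InfPath {P : Type} [TopologicalSpace P] (σ : PtSys P) : Type :=
  {tq : (ℕ → ℕ) × (ℕ → P) // ∀ n, tq.2 n = σ.θ (tq.1 n) (tq.2 (n + 1))}

/-- the standard path space: finite words ending at a point, and infinite words -/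
theorem exists_pathSpace {P : Type} [TopologicalSpace P] (σ : PtSys P) :
    Nonempty (PathSpace σ) := by
  let consN : ℕ → (ℕ → ℕ) → (ℕ → ℕ) := fun i t n => Nat.casesOn n i t
  let consP : P → (ℕ → P) → (ℕ → P) := fun p q n => Nat.casesOn n p q
  let ci : ℕ → InfPath σ → InfPath σ := fun i t =>
    ⟨(consN i t.1.1, consP (σ.θ i (t.1.2 0)) t.1.2), by
      intro n
      cases n with
      | zero => rfl
      | succ n => exact t.2 n⟩
  let θw : List ℕ → P → P := fun w p => w.foldr (fun i q => σ.θ i q) p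
  refine ⟨{
    T := (List ℕ × P) ⊕ InfPath σ
    c := fun i => Sum.map (fun wp => (i :: wp.1, wp.2)) (ci i)
    r := fun t => Sum.elim (fun wp => θw wp.1 wp.2) (fun t => t.1.2 0) t
    root := fun p => Sum.inl ([], p)
    c_inj := ?_
    c_ne := ?_
    r_c := ?_
    r_root := ?_
    root_ne := ?_
    inf := ?_ }⟩
  · intro i s t h
    rcases s with ⟨w, p⟩ | s <;> rcases t with ⟨w', p'⟩ | t
    · simpa using h
    · simp at h
    · simp at h
    · simp only [Sum.map_inr, Sum.inr.injEq] at h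
      have h1 := congrArg (fun x : InfPath σ => x.1.1) h
      have h2 := congrArg (fun x : InfPath σ => x.1.2) h
      have : s = t := by
        apply Subtype.ext
        apply Prod.ext
        · funext n
          exact congrFun h1 (n + 1)
        · funext n
          exact congrFun h2 (n + 1)
      rw [this]
  · intro i j s t hij h
    rcases s with ⟨w, p⟩ | s <;> rcases t with ⟨w', p'⟩ | t
    · simp only [Sum.map_inl, Sum.inl.injEq, Prod.mk.injEq, List.cons.injEq] at h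
      exact hij h.1.1
    · simp at h
    · simp at h
    · simp only [Sum.map_inr, Sum.inr.injEq] at h
      have h1 := congrArg (fun x : InfPath σ => x.1.1 0) h
      exact hij h1
  · intro i t
    rcases t with ⟨w, p⟩ | t
    · rfl
    · rfl
  · intro p
    rfl
  · intro p i t
    rcases t with ⟨w, q⟩ | t
    · simp
    · simp
  · intro i p hp
    refine ⟨fun n => Sum.inr ⟨(fun m => i (n + m), fun m => p (n + m)), fun m => hp (n + m)⟩, ?_⟩
    intro n
    refine ⟨?_, rfl⟩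
    refine congrArg Sum.inr ?_
    apply Subtype.ext
    apply Prod.ext
    · funext m
      cases m with
      | zero => rfl
      | succ m =>
        change i (n + (m + 1)) = i (n + 1 + m)
        congr 1
        ring
    · funext m
      cases m with
      | zero => exact hp n
      | succ m =>
        change p (n + (m + 1)) = p (n + 1 + m)
        congr 1
        ring

namespace PtSys
variable {P : Type} [TopologicalSpace P] (σ : PtSys P)

/-- the map of a word -/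
def θw : List ℕ → C(P, P)
  | [] => ContinuousMap.id P
  | i :: w => (σ.θ i).comp (θw w)

@[simp] theorem θw_nil : σ.θw [] = ContinuousMap.id P := rfl
@[simp] theorem θw_cons (i : ℕ) (w : List ℕ) : σ.θw (i :: w) = (σ.θ i).comp (σ.θw w) := rfl

theorem θw_append (v w : List ℕ) : σ.θw (v ++ w) = (σ.θw v).comp (σ.θw w) := by
  induction v with
  | nil => rfl
  | cons i v ih => simp [ih, ContinuousMap.comp_assoc]

theorem θw_pt (w : List ℕ) : σ.θw w σ.pt = σ.pt := by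
  induction w with
  | nil => rfl
  | cons i w ih => simp [ih, σ.map_pt]

/-- every word is a letter -/
theorem θw_eq_letter (w : List ℕ) : ∃ i, σ.θw w = σ.θ i := by
  induction w with
  | nil =>
    obtain ⟨i, hi⟩ := σ.one
    exact ⟨i, hi.symm⟩
  | cons i w ih =>
    obtain ⟨j, hj⟩ := ih
    obtain ⟨k, hk⟩ := σ.comp i j
    exact ⟨k, by rw [θw_cons, hj, hk]⟩

end PtSys

namespace PathSpace
variable {P : Type} [TopologicalSpace P] {σ : PtSys P} (Λ : PathSpace σ)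

/-- concatenation with a word -/
def cw : List ℕ → Λ.T → Λ.T
  | [], t => t
  | i :: w, t => Λ.c i (cw w t)

@[simp] theorem cw_nil (t : Λ.T) : Λ.cw [] t = t := rfl
@[simp] theorem cw_cons (i : ℕ) (w : List ℕ) (t : Λ.T) : Λ.cw (i :: w) t = Λ.c i (Λ.cw w t) := rfl

theorem cw_append (v w : List ℕ) (t : Λ.T) : Λ.cw (v ++ w) t = Λ.cw v (Λ.cw w t) := by
  induction v with
  | nil => rfl
  | cons i v ih => simp [ih]

theorem cw_inj (w : List ℕ) : Function.Injective (Λ.cw w) := by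
  induction w with
  | nil => exact fun _ _ h => h
  | cons i w ih => exact fun _ _ h => ih (Λ.c_inj i h)

theorem c_eq_iff {i j : ℕ} {s t : Λ.T} : Λ.c i s = Λ.c j t ↔ i = j ∧ s = t := by
  constructor
  · intro h
    have hij : i = j := by
      by_contra hij
      exact Λ.c_ne i j s t hij h
    subst hij
    exact ⟨rfl, Λ.c_inj i h⟩
  · rintro ⟨rfl, rfl⟩; rfl

theorem r_cw (w : List ℕ) (t : Λ.T) : Λ.r (Λ.cw w t) = σ.θw w (Λ.r t) := by
  induction w with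
  | nil => rfl
  | cons i w ih => simp [Λ.r_c, ih]

theorem root_inj {p q : P} (h : Λ.root p = Λ.root q) : p = q := by
  rw [← Λ.r_root p, ← Λ.r_root q, h]

theorem cw_root_inj {v w : List ℕ} {p q : P} (h : Λ.cw v (Λ.root p) = Λ.cw w (Λ.root q)) :
    v = w ∧ p = q := by
  induction v generalizing w with
  | nil =>
    cases w with
    | nil => exact ⟨rfl, Λ.root_inj h⟩
    | cons j w => exact absurd h.symm (Λ.root_ne _ _ _)
  | cons i v ih =>
    cases w with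
    | nil => exact absurd h (Λ.root_ne _ _ _)
    | cons j w =>
      obtain ⟨h1, h2⟩ := Λ.c_eq_iff.1 h
      obtain ⟨h3, h4⟩ := ih h2
      exact ⟨by rw [h1, h3], h4⟩

/-- The Hilbert space `ℓ²(T)`. -/
abbrev H : Type := L2 Λ.T

/-- the isometry of a word -/
def Sw (w : List ℕ) : Λ.H →L[ℂ] Λ.H := L2.S (Λ.cw w) (Λ.cw_inj w)

/-- the isometry of a letter -/
def Si (i : ℕ) : Λ.H →L[ℂ] Λ.H := L2.S (Λ.c i) (Λ.c_inj i)

theorem Sw_nil : Λ.Sw [] = 1 := by
  refine L2.ext_δ fun t => ?_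
  rw [Sw, L2.S_δ]
  rfl

theorem Sw_cons (i : ℕ) (w : List ℕ) : Λ.Sw (i :: w) = Λ.Si i * Λ.Sw w := by
  refine L2.ext_δ fun t => ?_
  rw [Sw, L2.S_δ, mul_apply_eq_comp, Sw, L2.S_δ, Si, L2.S_δ]
  rfl

theorem Sw_append (v w : List ℕ) : Λ.Sw (v ++ w) = Λ.Sw v * Λ.Sw w := by
  induction v with
  | nil => simp [Sw_nil]
  | cons i v ih => rw [List.cons_append, Sw_cons, ih, Sw_cons, mul_assoc]

theorem Sw_singleton (i : ℕ) : Λ.Sw [i] = Λ.Si i := by
  rw [Sw_cons, Sw_nil, mul_one]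

theorem star_Si_mul_Si (i : ℕ) : star (Λ.Si i) * Λ.Si i = 1 := L2.star_S_mul_S _

theorem star_Si_mul_Si_ne {i j : ℕ} (h : i ≠ j) : star (Λ.Si i) * Λ.Si j = 0 :=
  L2.star_S_mul_S' _ _ (fun s t => Λ.c_ne i j s t h)

theorem star_Sw_mul_Sw (w : List ℕ) : star (Λ.Sw w) * Λ.Sw w = 1 := L2.star_S_mul_S _

theorem norm_Sw_le (w : List ℕ) : ‖Λ.Sw w‖ ≤ 1 := L2.norm_S_le _
theorem norm_Si_le (i : ℕ) : ‖Λ.Si i‖ ≤ 1 := L2.norm_S_le _

/-- the three cases for the product `S_ν^* S_κ` -/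
theorem star_Sw_mul_Sw_cases (ν κ : List ℕ) :
    (∃ κ', κ = ν ++ κ' ∧ star (Λ.Sw ν) * Λ.Sw κ = Λ.Sw κ') ∨
    (∃ ν', ν = κ ++ ν' ∧ star (Λ.Sw ν) * Λ.Sw κ = star (Λ.Sw ν')) ∨
    ((∀ κ', κ ≠ ν ++ κ') ∧ (∀ ν', ν ≠ κ ++ ν') ∧ star (Λ.Sw ν) * Λ.Sw κ = 0) := by
  induction ν generalizing κ with
  | nil => exact Or.inl ⟨κ, rfl, by rw [Sw_nil, star_one, one_mul]⟩
  | cons i ν ih =>
    cases κ with
    | nil => exact Or.inr (Or.inl ⟨i :: ν, rfl, by rw [Sw_nil, mul_one]⟩)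
    | cons j κ =>
      rw [Sw_cons, Sw_cons, star_mul, mul_assoc, ← mul_assoc (star (Λ.Si i))]
      by_cases hij : i = j
      · subst hij
        rw [star_Si_mul_Si, one_mul]
        rcases ih κ with ⟨κ', h1, h2⟩ | ⟨ν', h1, h2⟩ | ⟨h1, h2, h3⟩
        · exact Or.inl ⟨κ', by rw [h1]; rfl, h2⟩
        · exact Or.inr (Or.inl ⟨ν', by rw [h1]; rfl, h2⟩)
        · refine Or.inr (Or.inr ⟨fun κ' h => h1 κ' ?_, fun ν' h => h2 ν' ?_, h3⟩)
          · simpa using h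
          · simpa using h
      · rw [Λ.star_Si_mul_Si_ne hij, zero_mul, mul_zero]
        refine Or.inr (Or.inr ⟨fun κ' h => hij ?_, fun ν' h => hij ?_, rfl⟩)
        · simp only [List.cons_append, List.cons.injEq] at h; exact h.1.symm
        · simp only [List.cons_append, List.cons.injEq] at h; exact h.1

section Comp
variable [CompactSpace P]

theorem bdd_comp (f : C(P, ℂ)) : L2.Bdd (fun t : Λ.T => f (Λ.r t)) :=
  ⟨‖f‖, fun t => f.norm_coe_le_norm _⟩

/-- the diagonal operator of a function on `P` -/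
def Df (f : C(P, ℂ)) : Λ.H →L[ℂ] Λ.H := L2.D (fun t => f (Λ.r t))

theorem Df_δ (f : C(P, ℂ)) (t : Λ.T) : Λ.Df f (L2.δ t) = f (Λ.r t) • L2.δ t :=
  L2.D_δ (Λ.bdd_comp f) t

theorem Df_apply (f : C(P, ℂ)) (ξ : Λ.H) (t : Λ.T) : (Λ.Df f ξ) t = f (Λ.r t) * ξ t :=
  L2.D_apply (Λ.bdd_comp f) ξ t

theorem norm_Df_le (f : C(P, ℂ)) : ‖Λ.Df f‖ ≤ ‖f‖ :=
  L2.norm_D_le (norm_nonneg _) (fun t => f.norm_coe_le_norm _)

theorem Df_add (f g : C(P, ℂ)) : Λ.Df (f + g) = Λ.Df f + Λ.Df g :=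
  (L2.D_add (Λ.bdd_comp f) (Λ.bdd_comp g)).symm

theorem Df_sub (f g : C(P, ℂ)) : Λ.Df (f - g) = Λ.Df f - Λ.Df g :=
  (L2.D_sub (Λ.bdd_comp f) (Λ.bdd_comp g)).symm

theorem Df_smul (a : ℂ) (f : C(P, ℂ)) : Λ.Df (a • f) = a • Λ.Df f :=
  (L2.D_smul (Λ.bdd_comp f) a).symm

theorem Df_mul (f g : C(P, ℂ)) : Λ.Df (f * g) = Λ.Df f * Λ.Df g :=
  (L2.D_mul (Λ.bdd_comp f) (Λ.bdd_comp g)).symm

theorem Df_star (f : C(P, ℂ)) : Λ.Df (star f) = star (Λ.Df f) :=
  (L2.star_D (Λ.bdd_comp f)).symm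

theorem Df_zero : Λ.Df 0 = 0 := by
  have := Λ.Df_sub 0 0
  simpa using this

theorem Df_one : Λ.Df 1 = 1 := L2.D_one

/-- `Df` as a continuous linear map -/
def DfL : C(P, ℂ) →L[ℂ] (Λ.H →L[ℂ] Λ.H) :=
  LinearMap.mkContinuous
    { toFun := Λ.Df
      map_add' := Λ.Df_add
      map_smul' := Λ.Df_smul } 1 (fun f => by rw [one_mul]; exact Λ.norm_Df_le f)

@[simp] theorem DfL_apply (f : C(P, ℂ)) : Λ.DfL f = Λ.Df f := rfl

theorem Df_mul_Sw (f : C(P, ℂ)) (w : List ℕ) :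
    Λ.Df f * Λ.Sw w = Λ.Sw w * Λ.Df (f.comp (σ.θw w)) := by
  refine L2.ext_δ fun t => ?_
  rw [mul_apply_eq_comp, mul_apply_eq_comp, Sw, L2.S_δ, Df_δ, Df_δ, map_smul, L2.S_δ, Λ.r_cw]
  rfl

theorem Df_mul_Si (f : C(P, ℂ)) (i : ℕ) :
    Λ.Df f * Λ.Si i = Λ.Si i * Λ.Df (f.comp (σ.θ i)) := by
  have := Λ.Df_mul_Sw f [i]
  rw [Sw_singleton] at this
  simpa using this

theorem star_Sw_mul_Df (f : C(P, ℂ)) (w : List ℕ) :
    star (Λ.Sw w) * Λ.Df f = Λ.Df (f.comp (σ.θw w)) * star (Λ.Sw w) := by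
  have h := congrArg star (Λ.Df_mul_Sw (star f) w)
  rw [star_mul, star_mul, Df_star, star_star] at h
  rw [h]
  congr 1
  rw [← Df_star]
  congr 1
  ext p
  simp

theorem star_Sw_Df_Sw (f : C(P, ℂ)) (w : List ℕ) :
    star (Λ.Sw w) * Λ.Df f * Λ.Sw w = Λ.Df (f.comp (σ.θw w)) := by
  rw [mul_assoc, Df_mul_Sw, ← mul_assoc, star_Sw_mul_Sw, one_mul]

/-- the monomials -/
def mon (μ : List ℕ) (f : C(P, ℂ)) (ν : List ℕ) : Λ.H →L[ℂ] Λ.H :=
  Λ.Sw μ * Λ.Df f * star (Λ.Sw ν)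

theorem star_mon (μ : List ℕ) (f : C(P, ℂ)) (ν : List ℕ) :
    star (Λ.mon μ f ν) = Λ.mon ν (star f) μ := by
  rw [mon, mon, star_mul, star_mul, star_star, Df_star, mul_assoc]

theorem mon_mul_mon (μ ν μ' ν' : List ℕ) (f f' : C(P, ℂ)) (hf : f σ.pt = 0)
    (hf' : f' σ.pt = 0) :
    Λ.mon μ f ν * Λ.mon μ' f' ν' = 0 ∨ ∃ α g β, g σ.pt = 0 ∧
      Λ.mon μ f ν * Λ.mon μ' f' ν' = Λ.mon α g β := by
  have e : Λ.mon μ f ν * Λ.mon μ' f' ν'
      = Λ.Sw μ * Λ.Df f * (star (Λ.Sw ν) * Λ.Sw μ') * (Λ.Df f' * star (Λ.Sw ν')) := by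
    simp only [mon, mul_assoc]
  rcases Λ.star_Sw_mul_Sw_cases ν μ' with ⟨κ, -, h2⟩ | ⟨κ, -, h2⟩ | ⟨-, -, h3⟩
  · right
    refine ⟨μ ++ κ, f.comp (σ.θw κ) * f', ν', by simp [hf'], ?_⟩
    rw [e, h2, mul_assoc (Λ.Sw μ), Df_mul_Sw, mon, Sw_append, Df_mul]
    simp only [mul_assoc]
  · right
    refine ⟨μ, f * f'.comp (σ.θw κ), ν' ++ κ, by simp [hf], ?_⟩
    rw [e, h2, mul_assoc (Λ.Sw μ * Λ.Df f), ← mul_assoc (star (Λ.Sw κ)), star_Sw_mul_Df, mon,
      Sw_append, Df_mul, star_mul]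
    simp only [mul_assoc]
  · left
    rw [e, h3, mul_zero, zero_mul]

/-- the set of monomials -/
def monSet : Set (Λ.H →L[ℂ] Λ.H) := {x | ∃ μ f ν, f σ.pt = 0 ∧ x = Λ.mon μ f ν}

/-- the algebraic star algebra -/
def A0 : NonUnitalStarSubalgebra ℂ (Λ.H →L[ℂ] Λ.H) where
  carrier := (Submodule.span ℂ Λ.monSet : Set (Λ.H →L[ℂ] Λ.H))
  add_mem' := fun ha hb => Submodule.add_mem _ ha hb
  zero_mem' := Submodule.zero_mem _
  smul_mem' := fun c x hx => Submodule.smul_mem _ c hx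
  mul_mem' := by
    intro a b ha hb
    induction ha using Submodule.span_induction with
    | mem x hx =>
      obtain ⟨μ, f, ν, hf, rfl⟩ := hx
      induction hb using Submodule.span_induction with
      | mem y hy =>
        obtain ⟨μ', f', ν', hf', rfl⟩ := hy
        rcases Λ.mon_mul_mon μ ν μ' ν' f f' hf hf' with h | ⟨α, g, β, hg, h⟩
        · rw [h]; exact Submodule.zero_mem _
        · rw [h]; exact Submodule.subset_span ⟨α, g, β, hg, rfl⟩
      | zero => rw [mul_zero]; exact Submodule.zero_mem _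
      | add x y _ _ hx hy => rw [mul_add]; exact Submodule.add_mem _ hx hy
      | smul c x _ hx => rw [mul_smul_comm]; exact Submodule.smul_mem _ c hx
    | zero => rw [zero_mul]; exact Submodule.zero_mem _
    | add x y _ _ hx hy => rw [add_mul]; exact Submodule.add_mem _ hx hy
    | smul c x _ hx => rw [smul_mul_assoc]; exact Submodule.smul_mem _ c hx
  star_mem' := by
    intro a ha
    induction ha using Submodule.span_induction with
    | mem x hx =>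
      obtain ⟨μ, f, ν, hf, rfl⟩ := hx
      rw [star_mon]
      exact Submodule.subset_span ⟨ν, star f, μ, by simp [hf], rfl⟩
    | zero => rw [star_zero]; exact Submodule.zero_mem _
    | add x y _ _ hx hy => rw [star_add]; exact Submodule.add_mem _ hx hy
    | smul c x _ hx => rw [star_smul]; exact Submodule.smul_mem _ _ hx

/-- the C*-algebra of the system -/
def A : NonUnitalStarSubalgebra ℂ (Λ.H →L[ℂ] Λ.H) := Λ.A0.topologicalClosure

instance isClosed_A : IsClosed (Λ.A : Set (Λ.H →L[ℂ] Λ.H)) :=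
  NonUnitalStarSubalgebra.isClosed_topologicalClosure _

theorem A0_le_A : Λ.A0 ≤ Λ.A := NonUnitalStarSubalgebra.le_topologicalClosure _

theorem mem_A0_iff {x : Λ.H →L[ℂ] Λ.H} : x ∈ Λ.A0 ↔ x ∈ Submodule.span ℂ Λ.monSet := Iff.rfl

theorem mem_A_iff {x : Λ.H →L[ℂ] Λ.H} :
    x ∈ Λ.A ↔ x ∈ closure (Submodule.span ℂ Λ.monSet : Set (Λ.H →L[ℂ] Λ.H)) := Iff.rfl

theorem mon_mem_A0 (μ : List ℕ) {f : C(P, ℂ)} (hf : f σ.pt = 0) (ν : List ℕ) :
    Λ.mon μ f ν ∈ Λ.A0 := Submodule.subset_span ⟨μ, f, ν, hf, rfl⟩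

theorem mon_mem_A (μ : List ℕ) {f : C(P, ℂ)} (hf : f σ.pt = 0) (ν : List ℕ) :
    Λ.mon μ f ν ∈ Λ.A := Λ.A0_le_A (Λ.mon_mem_A0 μ hf ν)

/-- approximation by elements of `A0` -/
theorem exists_A0_near {a : Λ.H →L[ℂ] Λ.H} (ha : a ∈ Λ.A) {ε : ℝ} (hε : 0 < ε) :
    ∃ b ∈ Λ.A0, ‖a - b‖ < ε := by
  obtain ⟨b, hb, hab⟩ := Metric.mem_closure_iff.1 (Λ.mem_A_iff.1 ha) ε hε
  exact ⟨b, hb, by rwa [dist_eq_norm] at hab⟩

/-- a continuous linear map sending monomials into a closed submodule sends `A` into it -/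
theorem map_mem_of_mon {E : Type*} [NormedAddCommGroup E] [NormedSpace ℂ E]
    (L : (Λ.H →L[ℂ] Λ.H) →L[ℂ] E) (K : Submodule ℂ E) (hK : IsClosed (K : Set E))
    (h : ∀ μ f ν, f σ.pt = 0 → L (Λ.mon μ f ν) ∈ K) {a : Λ.H →L[ℂ] Λ.H} (ha : a ∈ Λ.A) :
    L a ∈ K := by
  have h1 : (Submodule.span ℂ Λ.monSet : Set (Λ.H →L[ℂ] Λ.H)) ⊆ L ⁻¹' (K : Set E) := by
    intro x hx
    have : Submodule.span ℂ Λ.monSet ≤ K.comap (L : (Λ.H →L[ℂ] Λ.H) →ₗ[ℂ] E) := by
      rw [Submodule.span_le]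
      rintro x ⟨μ, f, ν, hf, rfl⟩
      exact h μ f ν hf
    exact this hx
  exact closure_minimal h1 (hK.preimage L.continuous) (Λ.mem_A_iff.1 ha)

end Comp

end PathSpace

end

end Run7.h917
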