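import Pool.Agent.Run7.h917.Coef

/-!
# The approximation maps `Φ`
-/

open scoped ENNReal ComplexConjugate InnerProductSpace

set_option linter.unusedSectionVars false

namespace Run7.h917

noncomputable section

/-- words of length `< n` with letters `< κ` -/
def Ω (κ : ℕ) : ℕ → Finset (List ℕ)
  | 0 => ∅
  | n + 1 => insert [] ((Finset.range κ ×ˢ Ω κ n).image fun p => p.1 :: p.2)

theorem mem_Ω {κ n : ℕ} {w : List ℕ} : w ∈ Ω κ n ↔ w.length < n ∧ ∀ i ∈ w, i < κ := by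
  induction n generalizing w with
  | zero => simp [Ω]
  | succ n ih =>
    cases w with
    | nil => simp [Ω]
    | cons i w =>
      simp only [Ω, Finset.mem_insert, reduceCtorEq, Finset.mem_image, Finset.mem_product,
        Finset.mem_range, Prod.exists, List.cons.injEq, false_or, List.length_cons,
        List.mem_cons, forall_eq_or_imp]
      constructor
      · rintro ⟨a, b, ⟨ha, hb⟩, rfl, rfl⟩
        obtain ⟨h1, h2⟩ := ih.1 hb
        exact ⟨by omega, ha, h2⟩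
      · rintro ⟨h1, h2, h3⟩
        exact ⟨i, w, ⟨h2, ih.2 ⟨by omega, h3⟩⟩, rfl, rfl⟩

theorem sum_Ω {M : Type*} [AddCommMonoid M] (κ n : ℕ) (f : List ℕ → M) :
    ∑ w ∈ Ω κ (n + 1), f w = f [] + ∑ i ∈ Finset.range κ, ∑ w ∈ Ω κ n, f (i :: w) := by
  rw [Ω, Finset.sum_insert (by simp), Finset.sum_image (by
    rintro ⟨a, b⟩ _ ⟨a', b'⟩ _ h
    simp only [List.cons.injEq] at h
    exact Prod.ext h.1 h.2), Finset.sum_product]

namespace PathSpace
variable {P : Type} [TopologicalSpace P] {σ : PtSys P} (Λ : PathSpace σ) [CompactSpace P]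

/-- paths starting with a letter `< κ` -/
def inn (κ : ℕ) : Set Λ.T := {t | ∃ i < κ, ∃ s, t = Λ.c i s}

open Classical in
/-- the weights -/
def xw (N κ k : ℕ) (t : Λ.T) : ℝ :=
  if t ∈ Λ.inn κ then Real.sqrt (1 / N) else Real.sqrt (1 - k / N)

theorem xw_nonneg (N κ k : ℕ) (t : Λ.T) : 0 ≤ Λ.xw N κ k t := by
  unfold xw; split_ifs <;> exact Real.sqrt_nonneg _

theorem xw_le_one (N κ k : ℕ) (t : Λ.T) : Λ.xw N κ k t ≤ 1 := by
  unfold xw
  split_ifs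
  · refine (Real.sqrt_le_sqrt (y := 1) ?_).trans (le_of_eq Real.sqrt_one)
    rcases Nat.eq_zero_or_pos N with rfl | hN
    · simp
    · rw [div_le_one (by exact_mod_cast hN)]
      exact_mod_cast hN
  · refine (Real.sqrt_le_sqrt (y := 1) ?_).trans (le_of_eq Real.sqrt_one)
    have : (0 : ℝ) ≤ (k : ℝ) / N := by positivity
    linarith

theorem bdd_xw (N κ k : ℕ) : L2.Bdd (fun t : Λ.T => (Λ.xw N κ k t : ℂ)) :=
  ⟨1, fun t => by
    rw [Complex.norm_real, Real.norm_of_nonneg (Λ.xw_nonneg _ _ _ _)]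
    exact Λ.xw_le_one _ _ _ _⟩

/-- the weight operator -/
def Xk (N κ k : ℕ) : Λ.H →L[ℂ] Λ.H := L2.D (fun t => (Λ.xw N κ k t : ℂ))

theorem norm_Xk_le (N κ k : ℕ) : ‖Λ.Xk N κ k‖ ≤ 1 :=
  L2.norm_D_le zero_le_one (fun t => by
    rw [Complex.norm_real, Real.norm_of_nonneg (Λ.xw_nonneg _ _ _ _)]
    exact Λ.xw_le_one _ _ _ _)

theorem star_Xk (N κ k : ℕ) : star (Λ.Xk N κ k) = Λ.Xk N κ k := by
  rw [Xk, L2.star_D (Λ.bdd_xw N κ k)]
  simp

/-- the projection on the paths starting with a letter `< κ` -/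
def q (κ : ℕ) : Λ.H →L[ℂ] Λ.H := ∑ i ∈ Finset.range κ, Λ.Si i * star (Λ.Si i)

theorem Si_star_Si_δ (i : ℕ) (t : Λ.T) :
    ((∃ s, t = Λ.c i s) → (Λ.Si i * star (Λ.Si i)) (L2.δ t) = L2.δ t) ∧
    ((¬ ∃ s, t = Λ.c i s) → (Λ.Si i * star (Λ.Si i)) (L2.δ t) = 0) := by
  constructor
  · rintro ⟨s, rfl⟩
    rw [mul_apply_eq_comp]
    have h1 : star (Λ.Si i) (L2.δ (Λ.c i s)) = L2.δ s := L2.star_S_δ _ _
    rw [h1]
    exact L2.S_δ _ _
  · intro h
    rw [mul_apply_eq_comp]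
    have h1 : star (Λ.Si i) (L2.δ t) = 0 :=
      L2.star_S_δ' (Λ.c_inj i) (fun s hs => h ⟨s, hs.symm⟩)
    rw [h1, map_zero]

open Classical in
theorem q_δ (κ : ℕ) (t : Λ.T) : Λ.q κ (L2.δ t) = if t ∈ Λ.inn κ then L2.δ t else 0 := by
  rw [q, sum_apply]
  split_ifs with h
  · obtain ⟨i, hi, s, rfl⟩ := h
    rw [Finset.sum_eq_single i]
    · exact (Λ.Si_star_Si_δ i _).1 ⟨s, rfl⟩
    · intro j _ hj
      refine (Λ.Si_star_Si_δ j _).2 ?_
      rintro ⟨s', hs'⟩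
      exact hj (Λ.c_eq_iff.1 hs').1.symm
    · intro hi'
      exact absurd (Finset.mem_range.2 hi) hi'
  · refine Finset.sum_eq_zero fun i hi => (Λ.Si_star_Si_δ i _).2 ?_
    rintro ⟨s, hs⟩
    exact h ⟨i, Finset.mem_range.1 hi, s, hs⟩

theorem Xk_eq (N κ k : ℕ) : Λ.Xk N κ k =
    ((Real.sqrt (1 - k / N) : ℝ) : ℂ) • (1 : Λ.H →L[ℂ] Λ.H) +
      (((Real.sqrt (1 / N) - Real.sqrt (1 - k / N) : ℝ)) : ℂ) • Λ.q κ := by
  classical
  refine L2.ext_δ fun t => ?_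
  rw [Xk, L2.D_δ (Λ.bdd_xw N κ k), add_apply, smul_apply, smul_apply, q_δ]
  unfold xw
  split_ifs with h
  · rw [one_apply_eq_self, ← add_smul]
    congr 1
    push_cast
    ring
  · simp

theorem q_mem_MA (κ : ℕ) : Λ.q κ ∈ Λ.MA :=
  sum_mem fun i _ => mul_mem (Λ.Si_mem_MA i) (star_mem (Λ.Si_mem_MA i))

theorem Xk_mem_MA (N κ k : ℕ) : Λ.Xk N κ k ∈ Λ.MA := by
  rw [Xk_eq]
  exact add_mem (SMulMemClass.smul_mem _ (one_mem _)) (SMulMemClass.smul_mem _ (Λ.q_mem_MA κ))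

/-- the operators `T_μ` -/
def Tw (N κ : ℕ) (μ : List ℕ) : Λ.H →L[ℂ] Λ.H := Λ.Sw μ * Λ.Xk N κ μ.length

theorem Tw_mem_MA (N κ : ℕ) (μ : List ℕ) : Λ.Tw N κ μ ∈ Λ.MA :=
  mul_mem (Λ.Sw_mem_MA μ) (Λ.Xk_mem_MA N κ _)

theorem norm_Tw_le (N κ : ℕ) (μ : List ℕ) : ‖Λ.Tw N κ μ‖ ≤ 1 := by
  refine (norm_mul_le _ _).trans ?_
  calc ‖Λ.Sw μ‖ * ‖Λ.Xk N κ μ.length‖ ≤ 1 * 1 :=
        mul_le_mul (Λ.norm_Sw_le μ) (Λ.norm_Xk_le _ _ _) (norm_nonneg _) zero_le_one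
    _ = 1 := one_mul 1

/-- the approximation map -/
def Φ (N κ : ℕ) (a : Λ.H →L[ℂ] Λ.H) : Λ.H →L[ℂ] Λ.H :=
  ∑ μ ∈ Ω κ N, ∑ ν ∈ Ω κ N, Λ.Tw N κ μ * Λ.Df (Λ.E μ ν a) * star (Λ.Tw N κ ν)

/-! ### the diagonal weights -/

/-- the accumulated weight -/
def Rw (N κ A B : ℕ) : ℕ → ℕ → Λ.T → ℝ
  | 0, _ => fun _ => 0
  | n + 1, j => fun t => Λ.xw N κ (j + A) t * Λ.xw N κ (j + B) t +
      ∑ i ∈ Finset.range κ, Function.extend (Λ.c i) (Rw N κ A B n (j + 1)) 0 t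

theorem Rw_succ_inn (N κ A B n j : ℕ) {i : ℕ} (hi : i < κ) (s : Λ.T) (hN : 0 < N) :
    Λ.Rw N κ A B (n + 1) j (Λ.c i s) = 1 / N + Λ.Rw N κ A B n (j + 1) s := by
  have h1 : Λ.c i s ∈ Λ.inn κ := ⟨i, hi, s, rfl⟩
  simp only [Rw, xw, if_pos h1]
  rw [Real.mul_self_sqrt (by positivity), Finset.sum_eq_single i]
  · rw [(Λ.c_inj i).extend_apply]
  · intro j' _ hj'
    rw [Function.extend_apply']
    · rfl
    · rintro ⟨a, ha⟩
      exact hj' (Λ.c_eq_iff.1 ha).1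
  · intro hi'
    exact absurd (Finset.mem_range.2 hi) hi'

theorem Rw_succ_out (N κ A B n j : ℕ) {t : Λ.T} (ht : t ∉ Λ.inn κ) :
    Λ.Rw N κ A B (n + 1) j t
      = Real.sqrt (1 - (j + A : ℕ) / N) * Real.sqrt (1 - (j + B : ℕ) / N) := by
  simp only [Rw, xw, if_neg ht]
  rw [Finset.sum_eq_zero, add_zero]
  intro i hi
  rw [Function.extend_apply']
  · rfl
  · rintro ⟨a, ha⟩
    exact ht ⟨i, Finset.mem_range.1 hi, a, ha.symm⟩

theorem Rw_bounds {N A B D M : ℕ} (κ : ℕ) (hN : 0 < N) (hA : A ≤ D) (hB : B ≤ D)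
    (hM : M + D = N) (n j : ℕ) (hnj : j + n = M) (t : Λ.T) :
    (n : ℝ) / N ≤ Λ.Rw N κ A B n j t ∧ Λ.Rw N κ A B n j t ≤ 1 - (j : ℝ) / N := by
  have hN' : (0 : ℝ) < N := by exact_mod_cast hN
  induction n generalizing j t with
  | zero =>
    simp only [Rw, Nat.cast_zero, zero_div, le_refl, true_and]
    rw [sub_nonneg, div_le_one hN']
    exact_mod_cast (by omega : j ≤ N)
  | succ n ih =>
    by_cases ht : t ∈ Λ.inn κ
    · obtain ⟨i, hi, s, rfl⟩ := ht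
      rw [Λ.Rw_succ_inn N κ A B n j hi s hN]
      obtain ⟨h1, h2⟩ := ih (j + 1) (by omega) s
      constructor
      · push_cast
        rw [add_div]
        linarith
      · push_cast at h2
        rw [add_div] at h2
        linarith
    · rw [Λ.Rw_succ_out N κ A B n j ht]
      have hjA : ((j + A : ℕ) : ℝ) / N ≤ 1 := by
        rw [div_le_one hN']; exact_mod_cast (by omega : j + A ≤ N)
      have hjB : ((j + B : ℕ) : ℝ) / N ≤ 1 := by
        rw [div_le_one hN']; exact_mod_cast (by omega : j + B ≤ N)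
      have hjD : ((j + D : ℕ) : ℝ) / N ≤ 1 := by
        rw [div_le_one hN']; exact_mod_cast (by omega : j + D ≤ N)
      constructor
      · have e : ((n + 1 : ℕ) : ℝ) / N
            = Real.sqrt (1 - (j + D : ℕ) / N) * Real.sqrt (1 - (j + D : ℕ) / N) := by
          rw [Real.mul_self_sqrt (by linarith)]
          field_simp
          have : (N : ℝ) = (j : ℝ) + (n + 1) + D := by exact_mod_cast (by omega)
          rw [this]
          push_cast
          ring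
        rw [e]
        have hmono : ∀ C : ℕ, C ≤ D →
            Real.sqrt (1 - (j + D : ℕ) / N) ≤ Real.sqrt (1 - (j + C : ℕ) / N) := by
          intro C hC
          apply Real.sqrt_le_sqrt
          have : ((j + C : ℕ) : ℝ) / N ≤ ((j + D : ℕ) : ℝ) / N := by
            gcongr
          linarith
        exact mul_le_mul (hmono A hA) (hmono B hB) (Real.sqrt_nonneg _) (Real.sqrt_nonneg _)
      · have e : 1 - (j : ℝ) / N
            = Real.sqrt (1 - (j : ℕ) / N) * Real.sqrt (1 - (j : ℕ) / N) := by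
          rw [Real.mul_self_sqrt]
          rw [sub_nonneg, div_le_one hN']
          exact_mod_cast (by omega : j ≤ N)
        rw [e]
        have hmono : ∀ C : ℕ,
            Real.sqrt (1 - (j + C : ℕ) / N) ≤ Real.sqrt (1 - (j : ℕ) / N) := by
          intro C
          apply Real.sqrt_le_sqrt
          have : ((j : ℕ) : ℝ) / N ≤ ((j + C : ℕ) : ℝ) / N := by
            gcongr
            omega
          linarith
        exact mul_le_mul (hmono A) (hmono B) (Real.sqrt_nonneg _) (Real.sqrt_nonneg _)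

theorem Rw_bdd (N κ A B n j : ℕ) : L2.Bdd (fun t : Λ.T => (Λ.Rw N κ A B n j t : ℂ)) := by
  induction n generalizing j with
  | zero => exact ⟨0, fun t => by simp [Rw]⟩
  | succ n ih =>
    have h1 := (Λ.bdd_xw N κ (j + A)).mul (Λ.bdd_xw N κ (j + B))
    obtain ⟨C, hC0, hC⟩ := (ih (j + 1)).exists_nonneg
    obtain ⟨C', hC'⟩ := h1
    refine ⟨C' + κ * C, fun t => ?_⟩
    simp only [Rw, Complex.ofReal_add, Complex.ofReal_mul, Complex.ofReal_sum]
    refine (norm_add_le _ _).trans (add_le_add (hC' t) ?_)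
    refine (norm_sum_le _ _).trans ?_
    have : ∀ i ∈ Finset.range κ,
        ‖((Function.extend (Λ.c i) (Λ.Rw N κ A B n (j + 1)) 0 t : ℝ) : ℂ)‖ ≤ C := by
      intro i _
      by_cases h : ∃ s, Λ.c i s = t
      · obtain ⟨s, rfl⟩ := h
        rw [(Λ.c_inj i).extend_apply]
        exact hC s
      · rw [Function.extend_apply' _ _ _ h]
        simpa using hC0
    refine (Finset.sum_le_card_nsmul _ _ C this).trans ?_
    rw [Finset.card_range, nsmul_eq_mul]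

theorem sum_Sw_D (N κ A B n j : ℕ) :
    ∑ w ∈ Ω κ n, Λ.Sw w * L2.D (fun t => ((Λ.xw N κ (j + A + w.length) t *
      Λ.xw N κ (j + B + w.length) t : ℝ) : ℂ)) * star (Λ.Sw w)
      = L2.D (fun t => (Λ.Rw N κ A B n j t : ℂ)) := by
  induction n generalizing j with
  | zero =>
    simp only [Ω, Finset.sum_empty, Rw, Complex.ofReal_zero]
    refine L2.ext_δ fun t => ?_
    rw [L2.D_δ (L2.Bdd.const 0)]
    simp
  | succ n ih =>
    have hxx : ∀ k l : ℕ, L2.Bdd (fun t : Λ.T => ((Λ.xw N κ k t * Λ.xw N κ l t : ℝ) : ℂ)) := by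
      intro k l
      have := (Λ.bdd_xw N κ k).mul (Λ.bdd_xw N κ l)
      simpa using this
    rw [sum_Ω]
    simp only [List.length_nil, add_zero, List.length_cons, Sw_nil, one_mul, star_one, mul_one]
    have h1 : ∀ i ∈ Finset.range κ, ∑ w ∈ Ω κ n, Λ.Sw (i :: w) * L2.D (fun t =>
        ((Λ.xw N κ (j + A + (w.length + 1)) t * Λ.xw N κ (j + B + (w.length + 1)) t : ℝ) : ℂ)) *
          star (Λ.Sw (i :: w))
        = Λ.Si i * L2.D (fun t => (Λ.Rw N κ A B n (j + 1) t : ℂ)) * star (Λ.Si i) := by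
      intro i _
      rw [← ih (j + 1), Finset.mul_sum, Finset.sum_mul]
      refine Finset.sum_congr rfl fun w _ => ?_
      rw [Sw_cons, star_mul, show j + A + (w.length + 1) = j + 1 + A + w.length by ring,
        show j + B + (w.length + 1) = j + 1 + B + w.length by ring]
      simp only [mul_assoc]
    rw [Finset.sum_congr rfl h1]
    have hb1 := Λ.Rw_bdd N κ A B n (j + 1)
    refine L2.ext_δ fun t => ?_
    rw [L2.D_δ (Λ.Rw_bdd N κ A B (n + 1) j), add_apply, L2.D_δ (hxx _ _), sum_apply]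
    have h2 : ∀ i ∈ Finset.range κ,
        (Λ.Si i * L2.D (fun t => (Λ.Rw N κ A B n (j + 1) t : ℂ)) * star (Λ.Si i)) (L2.δ t)
        = ((Function.extend (Λ.c i) (Λ.Rw N κ A B n (j + 1)) 0 t : ℝ) : ℂ) • L2.δ t := by
      intro i _
      rw [mul_apply_eq_comp, mul_apply_eq_comp]
      by_cases h : ∃ s, Λ.c i s = t
      · obtain ⟨s, rfl⟩ := h
        have h3 : star (Λ.Si i) (L2.δ (Λ.c i s)) = L2.δ s := L2.star_S_δ _ _
        rw [h3, L2.D_δ hb1, map_smul, (Λ.c_inj i).extend_apply]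
        congr 1
        exact L2.S_δ _ _
      · have h3 : star (Λ.Si i) (L2.δ t) = 0 :=
          L2.star_S_δ' (Λ.c_inj i) (fun s hs => h ⟨s, hs⟩)
        rw [h3, Function.extend_apply' _ _ _ h]
        simp
    rw [Finset.sum_congr rfl h2, ← Finset.sum_smul, ← add_smul]
    congr 1
    simp only [Rw, Complex.ofReal_add, Complex.ofReal_sum]

/-! ### `Σ T_μ T_μ^* = 1` -/

theorem Tw_mul_star (N κ : ℕ) (μ : List ℕ) : Λ.Tw N κ μ * star (Λ.Tw N κ μ)
    = Λ.Sw μ * L2.D (fun t => ((Λ.xw N κ (0 + 0 + μ.length) t *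
      Λ.xw N κ (0 + 0 + μ.length) t : ℝ) : ℂ)) * star (Λ.Sw μ) := by
  rw [Tw, star_mul, star_Xk, mul_assoc, ← mul_assoc (Λ.Xk N κ μ.length), Xk,
    L2.D_mul (Λ.bdd_xw N κ _) (Λ.bdd_xw N κ _), ← mul_assoc]
  simp

theorem sum_Tw_mul_star {N : ℕ} (hN : 0 < N) (κ : ℕ) :
    ∑ μ ∈ Ω κ N, Λ.Tw N κ μ * star (Λ.Tw N κ μ) = 1 := by
  simp only [Tw_mul_star]
  rw [Λ.sum_Sw_D N κ 0 0 N 0, ← L2.D_one]
  congr 1
  funext t
  obtain ⟨h1, h2⟩ := Λ.Rw_bounds (A := 0) (B := 0) (D := 0) κ hN le_rfl le_rfl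
    (show N + 0 = N from rfl) N 0 (by simp) t
  have hN' : (N : ℝ) ≠ 0 := by positivity
  rw [div_self hN'] at h1
  simp only [CharP.cast_eq_zero, zero_div, sub_zero] at h2
  have : Λ.Rw N κ 0 0 N 0 t = 1 := le_antisymm h2 h1
  rw [this]
  simp

/-! ### norm bound -/

theorem fresh_orth {κ j : ℕ} (hj : κ ≤ j) {μ ν : List ℕ} (hμ : ∀ i ∈ μ, i < κ)
    (hν : ∀ i ∈ ν, i < κ) : star (Λ.Si j) * (star (Λ.Sw μ) * Λ.Sw ν) * Λ.Si j
      = if μ = ν then 1 else 0 := by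
  rcases Λ.star_Sw_mul_Sw_cases μ ν with ⟨κ', h1, h2⟩ | ⟨κ', h1, h2⟩ | ⟨h1, h2, h3⟩
  · rw [h2]
    cases κ' with
    | nil =>
      rw [List.append_nil] at h1
      rw [if_pos h1.symm, Sw_nil, mul_one, star_Si_mul_Si]
    | cons k κ' =>
      have hk : j ≠ k := by
        have := hν k (by rw [h1]; simp)
        omega
      rw [if_neg (by rw [h1]; simp), Sw_cons, ← mul_assoc, Λ.star_Si_mul_Si_ne hk, zero_mul,
        zero_mul]
  · rw [h2]
    cases κ' with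
    | nil =>
      rw [List.append_nil] at h1
      rw [if_pos h1, Sw_nil, star_one, mul_one, star_Si_mul_Si]
    | cons k κ' =>
      have hk : k ≠ j := by
        have := hμ k (by rw [h1]; simp)
        omega
      rw [if_neg (by rw [h1]; simp), Sw_cons, star_mul, mul_assoc, mul_assoc,
        Λ.star_Si_mul_Si_ne hk, mul_zero, mul_zero]
  · rw [h3, mul_zero, zero_mul, if_neg]
    rintro rfl
    exact h1 [] (by simp)

theorem norm_Φ_le {N : ℕ} (hN : 0 < N) (κ : ℕ) {a : Λ.H →L[ℂ] Λ.H} (ha : a ∈ Λ.A) :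
    ‖Λ.Φ N κ a‖ ≤ ‖a‖ := by
  classical
  refine le_of_forall_pos_le_add fun ε hε => ?_
  -- choose the tolerance
  set K : ℝ := ((Ω κ N).card : ℝ) * ((Ω κ N).card : ℝ) + 1 with hK
  have hK0 : 0 < K := by positivity
  have hδ : 0 < ε / K := by positivity
  have hfr : ∀ μ ν : List ℕ, ∃ J : ℕ, ∀ j, J ≤ j → σ.θ j = ContinuousMap.id P →
      ‖star (Λ.Si j) * (star (Λ.Sw μ) * a * Λ.Sw ν) * Λ.Si j - Λ.Df (Λ.E μ ν a)‖ ≤ ε / K :=
    fun μ ν => Λ.fresh (Λ.compress_mem ha μ ν) hδ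
  choose J hJ using hfr
  obtain ⟨i₀, hi₀⟩ := σ.one
  obtain ⟨j, hj, hjid⟩ := σ.rep i₀
    (max κ ((Ω κ N ×ˢ Ω κ N).sup fun p => J p.1 p.2))
  rw [hi₀] at hjid
  have hjκ : κ ≤ j := (le_max_left _ _).trans hj
  have hjJ : ∀ μ ∈ Ω κ N, ∀ ν ∈ Ω κ N, J μ ν ≤ j := by
    intro μ hμ ν hν
    refine le_trans ?_ ((le_max_right _ _).trans hj)
    exact Finset.le_sup (f := fun p : List ℕ × List ℕ => J p.1 p.2) (b := (μ, ν))
      (Finset.mem_product.2 ⟨hμ, hν⟩)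
  let Z : Λ.H →L[ℂ] Λ.H := ∑ μ ∈ Ω κ N, Λ.Tw N κ μ * (star (Λ.Si j) * star (Λ.Sw μ))
  have hZs : star Z = ∑ ν ∈ Ω κ N, (Λ.Sw ν * Λ.Si j) * star (Λ.Tw N κ ν) := by
    simp only [Z, star_sum, star_mul, star_star]
  have hZZ : Z * star Z = 1 := by
    rw [hZs]
    simp only [Z]
    rw [Finset.sum_mul_sum, ← Λ.sum_Tw_mul_star hN κ]
    refine Finset.sum_congr rfl fun μ hμ => ?_
    rw [Finset.sum_eq_single μ]
    · have h := Λ.fresh_orth hjκ (mem_Ω.1 hμ).2 (mem_Ω.1 hμ).2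
      rw [if_pos rfl] at h
      calc Λ.Tw N κ μ * (star (Λ.Si j) * star (Λ.Sw μ)) * (Λ.Sw μ * Λ.Si j * star (Λ.Tw N κ μ))
          = Λ.Tw N κ μ * (star (Λ.Si j) * (star (Λ.Sw μ) * Λ.Sw μ) * Λ.Si j)
            * star (Λ.Tw N κ μ) := by simp only [mul_assoc]
        _ = _ := by rw [h, mul_one]
    · intro ν hν hne
      have h := Λ.fresh_orth hjκ (mem_Ω.1 hμ).2 (mem_Ω.1 hν).2
      rw [if_neg (Ne.symm hne)] at h
      calc Λ.Tw N κ μ * (star (Λ.Si j) * star (Λ.Sw μ)) * (Λ.Sw ν * Λ.Si j * star (Λ.Tw N κ ν))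
          = Λ.Tw N κ μ * (star (Λ.Si j) * (star (Λ.Sw μ) * Λ.Sw ν) * Λ.Si j)
            * star (Λ.Tw N κ ν) := by simp only [mul_assoc]
        _ = _ := by rw [h, mul_zero, zero_mul]
    · intro h; exact absurd hμ h
  have hZn : ‖Z‖ ≤ 1 := by
    have h1 : ‖Z‖ * ‖Z‖ = ‖Z * star Z‖ := (CStarRing.norm_self_mul_star).symm
    rw [hZZ] at h1
    have h2 : ‖(1 : Λ.H →L[ℂ] Λ.H)‖ ≤ 1 := ContinuousLinearMap.norm_id_le
    nlinarith [norm_nonneg Z]
  have hZn' : ‖star Z‖ ≤ 1 := (le_of_eq (norm_star Z)).trans hZn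
  have hdiff : ‖Λ.Φ N κ a - Z * a * star Z‖ ≤ ε := by
    have e : Λ.Φ N κ a - Z * a * star Z = ∑ μ ∈ Ω κ N, ∑ ν ∈ Ω κ N,
        Λ.Tw N κ μ * (Λ.Df (Λ.E μ ν a) -
          star (Λ.Si j) * (star (Λ.Sw μ) * a * Λ.Sw ν) * Λ.Si j) * star (Λ.Tw N κ ν) := by
      rw [hZs]
      simp only [Z]
      rw [Finset.sum_mul, Finset.sum_mul_sum, Φ, ← Finset.sum_sub_distrib]
      refine Finset.sum_congr rfl fun μ _ => ?_
      rw [← Finset.sum_sub_distrib]
      refine Finset.sum_congr rfl fun ν _ => ?_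
      rw [mul_sub, sub_mul]
      congr 1
      try simp only [mul_assoc]
    rw [e]
    calc _ ≤ ∑ μ ∈ Ω κ N, ∑ ν ∈ Ω κ N, ε / K := by
          refine (norm_sum_le _ _).trans (Finset.sum_le_sum fun μ hμ => ?_)
          refine (norm_sum_le _ _).trans (Finset.sum_le_sum fun ν hν => ?_)
          refine (Λ.norm_compress_le _ _ _ (Λ.norm_Tw_le _ _ _) ?_).trans ?_
          · exact (le_of_eq (norm_star _)).trans (Λ.norm_Tw_le _ _ _)
          · rw [norm_sub_rev]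
            exact hJ μ ν j (hjJ μ hμ ν hν) hjid
      _ = ((Ω κ N).card : ℝ) * ((Ω κ N).card : ℝ) * (ε / K) := by
          simp only [Finset.sum_const, nsmul_eq_mul]
          ring
      _ ≤ K * (ε / K) := by
          gcongr
          rw [hK]; linarith
      _ = ε := by field_simp
  calc ‖Λ.Φ N κ a‖ = ‖(Λ.Φ N κ a - Z * a * star Z) + Z * a * star Z‖ := by
        rw [sub_add_cancel]
    _ ≤ ‖Λ.Φ N κ a - Z * a * star Z‖ + ‖Z * a * star Z‖ := norm_add_le _ _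
    _ ≤ ε + ‖a‖ := add_le_add hdiff (Λ.norm_compress_le _ _ _ hZn hZn')
    _ = ‖a‖ + ε := add_comm _ _

end PathSpace

end

end Run7.h917
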