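import Pool.Agent.Run7.h917.DefsF

/-!
# Pieces O4b, O4c: compression and the map back
-/

open scoped CStarAlgebra ComplexOrder InnerProductSpace ComplexConjugate WithCStarModule

namespace Run7.h917

universe u

theorem nonneg_factor {B : Type*} [NonUnitalCStarAlgebra B] [PartialOrder B] [StarOrderedRing B]
    {a : B} (h : 0 ≤ a) : ∃ b, a = star b * b := CStarAlgebra.nonneg_iff_eq_star_mul_self.mp h

/-- a gram-type decomposition -/
theorem exists_factor {K N : ℕ} {H : Type u} [NormedAddCommGroup H] [InnerProductSpace ℂ H]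
    (w : Fin K → Fin K → Fin N → H) :
    ∃ B : Fin K × Fin N → Fin K × Fin N → ℂ, ∀ a k b l,
      ∑ c, ⟪w c a k, w c b l⟫_ℂ = ∑ x, star (B x (a, k)) * B x (b, l) := by
  have h1 : (∑ c, Matrix.gram ℂ (fun x : Fin K × Fin N => w c x.1 x.2)).PosSemidef :=
    Matrix.posSemidef_sum _ fun c _ => Matrix.posSemidef_gram ℂ _
  obtain ⟨B, hB⟩ : ∃ B : Matrix (Fin K × Fin N) (Fin K × Fin N) ℂ,
      (∑ c, Matrix.gram ℂ (fun x : Fin K × Fin N => w c x.1 x.2)) = star B * B := by
    open scoped MatrixOrder in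
    exact CStarAlgebra.nonneg_iff_eq_star_mul_self.mp h1.nonneg
  refine ⟨fun x y => B x y, fun a k b l => ?_⟩
  have h2 := congrFun (congrFun hB (a, k)) (b, l)
  rw [Matrix.sum_apply] at h2
  simp only [Matrix.gram_apply] at h2
  rw [h2, Matrix.mul_apply]
  rfl

theorem norm_sq_cmod {n : ℕ} (x : C⋆ᵐᵒᵈ(ℂ, Fin n → ℂ)) : ‖x‖ ^ 2 = ∑ i, ‖x i‖ ^ 2 := by
  rw [WithCStarModule.pi_norm_sq]
  have h4 : ∑ i, (inner ℂ (x i) (x i) : ℂ) = ((∑ i, ‖x i‖ ^ 2 : ℝ) : ℂ) := by
    push_cast
    refine Finset.sum_congr rfl fun i _ => ?_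
    change x i * star (x i) = _
    rw [Complex.star_def, Complex.mul_conj, Complex.normSq_eq_norm_sq]
    push_cast; rfl
  rw [h4, Complex.norm_real, Real.norm_of_nonneg (by positivity)]

theorem norm_comp_le {H : Type u} [NormedAddCommGroup H] [InnerProductSpace ℂ H]
    {n : ℕ} {v : Fin n → H}
    (hv : Orthonormal ℂ v) (T : H →L[ℂ] H) :
    ‖(CStarMatrix.ofMatrix (fun k l => ⟪v k, T (v l)⟫_ℂ) : CStarMatrix (Fin n) (Fin n) ℂ)‖
      ≤ ‖T‖ := by
  have hnorm : ∀ x : C⋆ᵐᵒᵈ(ℂ, Fin n → ℂ), ‖∑ i, conj (x i) • v i‖ = ‖x‖ := by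
    intro x
    rw [← sq_eq_sq₀ (norm_nonneg _) (norm_nonneg _), norm_sq_cmod]
    have h2 := hv.inner_sum (fun i => conj (x i)) (fun i => conj (x i)) Finset.univ
    have h3 : ((‖∑ i, conj (x i) • v i‖ ^ 2 : ℝ) : ℂ) = ((∑ i, ‖x i‖ ^ 2 : ℝ) : ℂ) := by
      have h5 := inner_self_eq_norm_sq_to_K (𝕜 := ℂ) (∑ i, conj (x i) • v i)
      rw [h2] at h5
      push_cast
      refine h5.symm.trans (Finset.sum_congr rfl fun i _ => ?_)
      rw [Complex.conj_conj, Complex.mul_conj, Complex.normSq_eq_norm_sq]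
      push_cast; rfl
    exact_mod_cast h3
  have h0 : ‖T‖ = ((‖T‖₊ : NNReal) : ℝ) := rfl
  rw [h0]
  refine CStarMatrix.norm_le_of_forall_inner_le fun x y => ?_
  have h1 : (inner ℂ y (CStarMatrix.toCLM (CStarMatrix.ofMatrix (fun k l => ⟪v k, T (v l)⟫_ℂ) :
      CStarMatrix (Fin n) (Fin n) ℂ) x) : ℂ)
      = ⟪∑ i, conj (x i) • v i, T (∑ j, conj (y j) • v j)⟫_ℂ := by
    rw [CStarMatrix.toCLM_apply_eq_sum, WithCStarModule.pi_inner]
    rw [sum_inner]
    simp only [map_sum, map_smul, inner_sum, inner_smul_left, inner_smul_right,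
      Complex.conj_conj]
    rw [Finset.sum_comm]
    refine Finset.sum_congr rfl fun j _ => ?_
    change (∑ i, x i * ⟪v i, T (v j)⟫_ℂ) * star (y j) = _
    rw [Finset.sum_mul]
    refine Finset.sum_congr rfl fun i _ => ?_
    rw [Complex.star_def]
    ring
  rw [h1]
  calc ‖⟪∑ i, conj (x i) • v i, T (∑ j, conj (y j) • v j)⟫_ℂ‖
      ≤ ‖∑ i, conj (x i) • v i‖ * ‖T (∑ j, conj (y j) • v j)‖ := norm_inner_le_norm _ _
    _ ≤ ‖∑ i, conj (x i) • v i‖ * (‖T‖ * ‖∑ j, conj (y j) • v j‖) := by
        gcongr; exact T.le_opNorm _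
    _ = ‖T‖ * ‖x‖ * ‖y‖ := by rw [hnorm, hnorm]; ring


/-- **Piece O4b** (compression). -/
theorem exists_compression {A : Type u} [NonUnitalCStarAlgebra A] [PartialOrder A]
    [StarOrderedRing A] {H : Type u} [NormedAddCommGroup H] [InnerProductSpace ℂ H]
    [CompleteSpace H] (ρ : A →⋆ₙₐ[ℂ] (H →L[ℂ] H)) {n : ℕ} {v : Fin n → H}
    (hv : Orthonormal ℂ v) :
    ∃ φ : A →CP CStarMatrix (Fin n) (Fin n) ℂ,
      (∀ a k l, φ a k l = ⟪v k, ρ a (v l)⟫_ℂ) ∧ ∀ a, ‖φ a‖ ≤ ‖a‖ := by
  let φ₀ : A →ₗ[ℂ] CStarMatrix (Fin n) (Fin n) ℂ :=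
    { toFun := fun a => CStarMatrix.ofMatrix (fun k l => ⟪v k, ρ a (v l)⟫_ℂ)
      map_add' := fun a b => by
        ext k l
        change ⟪v k, ρ (a + b) (v l)⟫_ℂ = ⟪v k, ρ a (v l)⟫_ℂ + ⟪v k, ρ b (v l)⟫_ℂ
        rw [map_add, add_apply, inner_add_right]
      map_smul' := fun c a => by
        ext k l
        change ⟪v k, ρ (c • a) (v l)⟫_ℂ = c • ⟪v k, ρ a (v l)⟫_ℂ
        rw [map_smul, smul_apply, inner_smul_right, smul_eq_mul] }
  have hφ₀ : ∀ a k l, φ₀ a k l = ⟪v k, ρ a (v l)⟫_ℂ := fun a k l => rfl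
  let φ : A →CP CStarMatrix (Fin n) (Fin n) ℂ :=
    { φ₀ with
      map_cstarMatrix_nonneg' := by
        intro K M hM
        obtain ⟨N, rfl⟩ := nonneg_factor hM
        obtain ⟨B, hB⟩ := exists_factor (fun c a k => ρ (N c a) (v k))
        have key : (star N * N).map φ₀ = star (CStarMatrix.ofMatrix (fun c a =>
            CStarMatrix.ofMatrix (fun m i => B (c, m) (a, i))) :
              CStarMatrix (Fin K) (Fin K) (CStarMatrix (Fin n) (Fin n) ℂ)) *
            (CStarMatrix.ofMatrix (fun c a =>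
            CStarMatrix.ofMatrix (fun m i => B (c, m) (a, i))) :
              CStarMatrix (Fin K) (Fin K) (CStarMatrix (Fin n) (Fin n) ℂ)) := by
          apply CStarMatrix.ext
          intro a b
          apply CStarMatrix.ext
          intro k l
          rw [CStarMatrix.map_apply, hφ₀, CStarMatrix.mul_apply, CStarMatrix.mul_apply]
          have h1 : ⟪v k, ρ (∑ c, star N a c * N c b) (v l)⟫_ℂ
              = ∑ c, ⟪ρ (N c a) (v k), ρ (N c b) (v l)⟫_ℂ := by
            rw [map_sum, sum_apply, inner_sum]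
            refine Finset.sum_congr rfl fun c _ => ?_
            rw [map_mul, mul_apply_eq_comp]
            have : star N a c = star (N c a) := CStarMatrix.star_apply
            rw [this, map_star, ContinuousLinearMap.star_eq_adjoint,
              ContinuousLinearMap.adjoint_inner_right]
          rw [h1, hB, Fintype.sum_prod_type]
          have h2 : ∀ (s : Finset (Fin K)) (F : Fin K → CStarMatrix (Fin n) (Fin n) ℂ),
              (∑ c ∈ s, F c) k l = ∑ c ∈ s, F c k l := by
            intro s F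
            induction s using Finset.induction_on with
            | empty => simp
            | insert a s ha ih => rw [Finset.sum_insert ha, Finset.sum_insert ha, ← ih]; rfl
          rw [h2]
          refine Finset.sum_congr rfl fun c _ => ?_
          rw [CStarMatrix.mul_apply]
          refine Finset.sum_congr rfl fun m _ => ?_
          rfl
        change 0 ≤ (star N * N).map φ₀
        rw [key]
        exact star_mul_self_nonneg _ }
  refine ⟨φ, hφ₀, fun a => ?_⟩
  exact (norm_comp_le hv (ρ a)).trans (NonUnitalStarAlgHom.norm_apply_le ρ a)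

theorem sum_comm3 {M : Type*} [AddCommMonoid M] {a b c : ℕ} (F : Fin a → Fin b → Fin c → M) :
    ∑ i, ∑ k, ∑ l, F i k l = ∑ k, ∑ l, ∑ i, F i k l := by
  rw [Finset.sum_comm]
  refine Finset.sum_congr rfl fun k _ => ?_
  rw [Finset.sum_comm]

/-- a matrix of the form `star (X a) * X b` is nonnegative -/
theorem nonneg_rank_one {A : Type u} [NonUnitalCStarAlgebra A] [PartialOrder A]
    [StarOrderedRing A] {K : ℕ} (X : Fin K → A) :
    0 ≤ (CStarMatrix.ofMatrix (fun a b => star (X a) * X b) : CStarMatrix (Fin K) (Fin K) A) := by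
  rcases Nat.eq_zero_or_pos K with rfl | hK
  · have : (CStarMatrix.ofMatrix (fun a b => star (X a) * X b) :
      CStarMatrix (Fin 0) (Fin 0) A) = 0 := by
      apply CStarMatrix.ext
      intro a
      exact a.elim0
    rw [this]
  · let C : CStarMatrix (Fin K) (Fin K) A :=
      CStarMatrix.ofMatrix (fun i a => if i = ⟨0, hK⟩ then X a else 0)
    have : (CStarMatrix.ofMatrix (fun a b => star (X a) * X b) :
      CStarMatrix (Fin K) (Fin K) A) = star C * C := by
      have hC : ∀ i a, C i a = if i = ⟨0, hK⟩ then X a else 0 := fun _ _ => rfl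
      apply CStarMatrix.ext
      intro a b
      rw [CStarMatrix.mul_apply, Finset.sum_eq_single ⟨0, hK⟩]
      · rw [CStarMatrix.star_apply, hC, hC, if_pos rfl, if_pos rfl]
        rfl
      · intro i _ hi
        rw [hC, if_neg hi, mul_zero]
      · simp
    rw [this]
    exact star_mul_self_nonneg _

/-- Cauchy-Schwarz -/
theorem norm_sum_mul_le {A : Type u} [NonUnitalCStarAlgebra A] [PartialOrder A]
    [StarOrderedRing A] {n : ℕ} (r y : Fin n → A) :
    ‖∑ k, r k * y k‖ ^ 2 ≤ ‖∑ k, r k * star (r k)‖ * ‖∑ k, star (y k) * y k‖ := by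
  let u : C⋆ᵐᵒᵈ(A, Fin n → A) := (WithCStarModule.equiv A _).symm (fun k => star (y k))
  let w : C⋆ᵐᵒᵈ(A, Fin n → A) := (WithCStarModule.equiv A _).symm r
  have h1 : (inner A u w : A) = ∑ k, r k * y k := by
    rw [WithCStarModule.pi_inner]
    refine Finset.sum_congr rfl fun k _ => ?_
    change r k * star (star (y k)) = _
    rw [star_star]
  have h2 : ‖u‖ ^ 2 = ‖∑ k, star (y k) * y k‖ := by
    rw [WithCStarModule.pi_norm_sq]
    congr 1
    refine Finset.sum_congr rfl fun k _ => ?_
    change star (y k) * star (star (y k)) = _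
    rw [star_star]
  have h3 : ‖w‖ ^ 2 = ‖∑ k, r k * star (r k)‖ := by
    rw [WithCStarModule.pi_norm_sq]
    rfl
  have h4 : ‖(inner A u w : A)‖ ≤ ‖u‖ * ‖w‖ := CStarModule.norm_inner_le _
  rw [h1] at h4
  rw [← h2, ← h3]
  calc ‖∑ k, r k * y k‖ ^ 2 ≤ (‖u‖ * ‖w‖) ^ 2 := by gcongr
    _ = ‖w‖ ^ 2 * ‖u‖ ^ 2 := by ring

theorem nonneg_of_factor {A : Type u} [NonUnitalCStarAlgebra A] [PartialOrder A]
    [StarOrderedRing A] {n : ℕ} (r : Fin n → A) {m : CStarMatrix (Fin n) (Fin n) ℂ} (hm : 0 ≤ m) :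
    0 ≤ ∑ k, ∑ l, m k l • (r k * star (r l)) := by
  obtain ⟨N, rfl⟩ := nonneg_factor hm
  have : ∑ k, ∑ l, (star N * N) k l • (r k * star (r l))
      = ∑ c, star (∑ k, N c k • star (r k)) * (∑ l, N c l • star (r l)) := by
    have h1 : ∀ c, star (∑ k, N c k • star (r k)) * (∑ l, N c l • star (r l))
        = ∑ k, ∑ l, (star (N c k) * N c l) • (r k * star (r l)) := by
      intro c
      rw [star_sum, Finset.sum_mul_sum]
      refine Finset.sum_congr rfl fun k _ => Finset.sum_congr rfl fun l _ => ?_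
      rw [star_smul, star_star, smul_mul_smul_comm]
    simp only [h1]
    rw [sum_comm3]
    refine Finset.sum_congr rfl fun k _ => Finset.sum_congr rfl fun l _ => ?_
    rw [← Finset.sum_smul, CStarMatrix.mul_apply]
    congr 1
  rw [this]
  exact Finset.sum_nonneg fun c _ => star_mul_self_nonneg _

/-- **Piece O4c** (the map back). -/
theorem exists_mapBack {A : Type u} [NonUnitalCStarAlgebra A] [PartialOrder A]
    [StarOrderedRing A] {n : ℕ} (r : Fin n → A) (hr : ‖∑ k, r k * star (r k)‖ ≤ 1) :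
    ∃ ψ : CStarMatrix (Fin n) (Fin n) ℂ →CP A,
      (∀ m, ψ m = ∑ k, ∑ l, m k l • (r k * star (r l))) ∧ ∀ m, ‖ψ m‖ ≤ ‖m‖ := by
  let ψ₀ : CStarMatrix (Fin n) (Fin n) ℂ →ₗ[ℂ] A :=
    { toFun := fun m => ∑ k, ∑ l, m k l • (r k * star (r l))
      map_add' := fun m m' => by
        simp only [CStarMatrix.add_apply, add_smul, Finset.sum_add_distrib]
      map_smul' := fun c m => by
        simp only [CStarMatrix.smul_apply, smul_eq_mul, mul_smul, Finset.smul_sum,
          RingHom.id_apply] }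
  have hψ₀ : ∀ m, ψ₀ m = ∑ k, ∑ l, m k l • (r k * star (r l)) := fun m => rfl
  let ψ : CStarMatrix (Fin n) (Fin n) ℂ →CP A :=
    { ψ₀ with
      map_cstarMatrix_nonneg' := by
        intro K M hM
        obtain ⟨N, rfl⟩ := nonneg_factor hM
        have key : (star N * N).map ψ₀ = ∑ c, ∑ m, (CStarMatrix.ofMatrix (fun a b =>
            star (∑ i, N c a m i • star (r i)) * (∑ i, N c b m i • star (r i))) :
              CStarMatrix (Fin K) (Fin K) A) := by
          apply CStarMatrix.ext
          intro a b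
          have h2 : ∀ (s : Finset (Fin K)) (F : Fin K → CStarMatrix (Fin K) (Fin K) A),
              (∑ c ∈ s, F c) a b = ∑ c ∈ s, F c a b := by
            intro s F
            induction s using Finset.induction_on with
            | empty => simp
            | insert a s ha ih => rw [Finset.sum_insert ha, Finset.sum_insert ha, ← ih]; rfl
          have h2' : ∀ (s : Finset (Fin n)) (F : Fin n → CStarMatrix (Fin K) (Fin K) A),
              (∑ c ∈ s, F c) a b = ∑ c ∈ s, F c a b := by
            intro s F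
            induction s using Finset.induction_on with
            | empty => simp
            | insert a s ha ih => rw [Finset.sum_insert ha, Finset.sum_insert ha, ← ih]; rfl
          rw [CStarMatrix.map_apply, CStarMatrix.mul_apply, map_sum, h2]
          refine Finset.sum_congr rfl fun c _ => ?_
          rw [h2', hψ₀]
          have h3 : star N a c = star (N c a) := CStarMatrix.star_apply
          rw [h3]
          have h1 : ∀ m, (CStarMatrix.ofMatrix (fun a b =>
            star (∑ i, N c a m i • star (r i)) * (∑ i, N c b m i • star (r i))) :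
              CStarMatrix (Fin K) (Fin K) A) a b
              = ∑ k, ∑ l, (star (N c a m k) * N c b m l) • (r k * star (r l)) := by
            intro m
            change star (∑ i, N c a m i • star (r i)) * (∑ i, N c b m i • star (r i)) = _
            rw [star_sum, Finset.sum_mul_sum]
            refine Finset.sum_congr rfl fun k _ => Finset.sum_congr rfl fun l _ => ?_
            rw [star_smul, star_star, smul_mul_smul_comm]
          simp only [h1]
          rw [sum_comm3]
          refine Finset.sum_congr rfl fun k _ => Finset.sum_congr rfl fun l _ => ?_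
          rw [← Finset.sum_smul, CStarMatrix.mul_apply]
          congr 1
        change 0 ≤ (star N * N).map ψ₀
        rw [key]
        exact Finset.sum_nonneg fun c _ => Finset.sum_nonneg fun m _ => nonneg_rank_one _ }
  refine ⟨ψ, hψ₀, fun m => ?_⟩
  have h1 : ψ m = ∑ k, r k * ∑ l, m k l • star (r l) := by
    change ψ₀ m = _
    rw [hψ₀]
    refine Finset.sum_congr rfl fun k _ => ?_
    rw [Finset.mul_sum]
    refine Finset.sum_congr rfl fun l _ => ?_
    rw [mul_smul_comm]
  have h2 : ∑ k, star (∑ l, m k l • star (r l)) * (∑ l, m k l • star (r l))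
      = ∑ k, ∑ l, (star m * m) k l • (r k * star (r l)) := by
    have h3 : ∀ c, star (∑ k, m c k • star (r k)) * (∑ l, m c l • star (r l))
        = ∑ k, ∑ l, (star (m c k) * m c l) • (r k * star (r l)) := by
      intro c
      rw [star_sum, Finset.sum_mul_sum]
      refine Finset.sum_congr rfl fun k _ => Finset.sum_congr rfl fun l _ => ?_
      rw [star_smul, star_star, smul_mul_smul_comm]
    simp only [h3]
    rw [sum_comm3]
    refine Finset.sum_congr rfl fun k _ => Finset.sum_congr rfl fun l _ => ?_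
    rw [← Finset.sum_smul, CStarMatrix.mul_apply]
    congr 1
  have h4 : ‖∑ k, star (∑ l, m k l • star (r l)) * (∑ l, m k l • star (r l))‖ ≤ ‖m‖ ^ 2 := by
    have h5 : ∑ k, star (∑ l, m k l • star (r l)) * (∑ l, m k l • star (r l))
        ≤ (‖m‖ ^ 2 : ℝ) • ∑ k, r k * star (r k) := by
      rw [h2, ← sub_nonneg]
      have h6 : star m * m ≤ algebraMap ℝ (CStarMatrix (Fin n) (Fin n) ℂ) (‖m‖ ^ 2) :=
        CStarAlgebra.star_mul_le_algebraMap_norm_sq
      have h7 := nonneg_of_factor r (sub_nonneg.2 h6)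
      convert h7 using 1
      simp only [CStarMatrix.sub_apply, sub_smul, Finset.sum_sub_distrib]
      congr 1
      rw [Finset.smul_sum]
      refine Finset.sum_congr rfl fun k _ => ?_
      rw [Finset.sum_eq_single k]
      · rw [CStarMatrix.algebraMap_apply, if_pos rfl, Complex.coe_algebraMap, Complex.coe_smul]
      · intro l _ hl
        rw [CStarMatrix.algebraMap_apply, if_neg (Ne.symm hl), zero_smul]
      · intro h; exact absurd (Finset.mem_univ k) h
    have h8 : 0 ≤ ∑ k, star (∑ l, m k l • star (r l)) * (∑ l, m k l • star (r l)) :=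
      Finset.sum_nonneg fun k _ => star_mul_self_nonneg _
    calc _ ≤ ‖(‖m‖ ^ 2 : ℝ) • ∑ k, r k * star (r k)‖ :=
          CStarAlgebra.norm_le_norm_of_nonneg_of_le h8 h5
      _ = ‖m‖ ^ 2 * ‖∑ k, r k * star (r k)‖ := by
          rw [norm_smul, Real.norm_of_nonneg (by positivity)]
      _ ≤ ‖m‖ ^ 2 * 1 := by gcongr
      _ = ‖m‖ ^ 2 := mul_one _
  have h9 := norm_sum_mul_le r (fun k => ∑ l, m k l • star (r l))
  rw [h1, ← sq_le_sq₀ (norm_nonneg _) (norm_nonneg _)]
  calc _ ≤ _ := h9
    _ ≤ 1 * ‖m‖ ^ 2 := by gcongr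
    _ = ‖m‖ ^ 2 := one_mul _

end Run7.h917
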