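import Pool.Agent.Run7.h917.Alg

/-!
# Multipliers, coefficient functions and the fresh letter limit
-/

open scoped ENNReal ComplexConjugate InnerProductSpace

set_option linter.unusedSectionVars false

namespace Run7.h917

noncomputable section

namespace PathSpace
variable {P : Type} [TopologicalSpace P] {σ : PtSys P} (Λ : PathSpace σ) [CompactSpace P]

theorem star_mem_A {a : Λ.H →L[ℂ] Λ.H} (ha : a ∈ Λ.A) : star a ∈ Λ.A := star_mem ha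

/-- left multiplication by `X` preserves `A` as soon as it maps monomials into `A` -/
theorem mul_mem_A_of_mon {X : Λ.H →L[ℂ] Λ.H}
    (h : ∀ μ f ν, f σ.pt = 0 → X * Λ.mon μ f ν ∈ Λ.A) {a : Λ.H →L[ℂ] Λ.H} (ha : a ∈ Λ.A) :
    X * a ∈ Λ.A := by
  let K : Submodule ℂ (Λ.H →L[ℂ] Λ.H) := Λ.A.toSubmodule
  have hK : IsClosed (K : Set (Λ.H →L[ℂ] Λ.H)) := Λ.isClosed_A
  exact Λ.map_mem_of_mon (ContinuousLinearMap.mul ℂ (Λ.H →L[ℂ] Λ.H) X) K hK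
    (fun μ f ν hf => h μ f ν hf) ha

/-- the multipliers of `A` inside the bounded operators -/
def MA : StarSubalgebra ℂ (Λ.H →L[ℂ] Λ.H) where
  carrier := {X | (∀ a ∈ Λ.A, X * a ∈ Λ.A) ∧ (∀ a ∈ Λ.A, a * X ∈ Λ.A)}
  mul_mem' := by
    rintro X Y ⟨hX, hX'⟩ ⟨hY, hY'⟩
    exact ⟨fun a ha => by rw [mul_assoc]; exact hX _ (hY _ ha),
      fun a ha => by rw [← mul_assoc]; exact hY' _ (hX' _ ha)⟩
  add_mem' := by
    rintro X Y ⟨hX, hX'⟩ ⟨hY, hY'⟩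
    exact ⟨fun a ha => by rw [add_mul]; exact add_mem (hX _ ha) (hY _ ha),
      fun a ha => by rw [mul_add]; exact add_mem (hX' _ ha) (hY' _ ha)⟩
  algebraMap_mem' := by
    intro c
    refine ⟨fun a ha => ?_, fun a ha => ?_⟩
    · rw [Algebra.algebraMap_eq_smul_one, smul_mul_assoc, one_mul]
      exact SMulMemClass.smul_mem c ha
    · rw [Algebra.algebraMap_eq_smul_one, mul_smul_comm, mul_one]
      exact SMulMemClass.smul_mem c ha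
  star_mem' := by
    rintro X ⟨hX, hX'⟩
    refine ⟨fun a ha => ?_, fun a ha => ?_⟩
    · have := Λ.star_mem_A (hX' _ (Λ.star_mem_A ha))
      rwa [star_mul, star_star] at this
    · have := Λ.star_mem_A (hX _ (Λ.star_mem_A ha))
      rwa [star_mul, star_star] at this

theorem MA_mul {X a : Λ.H →L[ℂ] Λ.H} (hX : X ∈ Λ.MA) (ha : a ∈ Λ.A) : X * a ∈ Λ.A := hX.1 a ha
theorem mul_MA {X a : Λ.H →L[ℂ] Λ.H} (hX : X ∈ Λ.MA) (ha : a ∈ Λ.A) : a * X ∈ Λ.A := hX.2 a ha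

theorem mem_MA_of_mon {X : Λ.H →L[ℂ] Λ.H}
    (h : ∀ μ f ν, f σ.pt = 0 → X * Λ.mon μ f ν ∈ Λ.A)
    (h' : ∀ μ f ν, f σ.pt = 0 → star X * Λ.mon μ f ν ∈ Λ.A) : X ∈ Λ.MA := by
  refine ⟨fun a ha => Λ.mul_mem_A_of_mon h ha, fun a ha => ?_⟩
  have := Λ.star_mem_A (Λ.mul_mem_A_of_mon h' (Λ.star_mem_A ha))
  rwa [star_mul, star_star, star_star] at this

theorem Df_mul_mon (g : C(P, ℂ)) (μ : List ℕ) (f : C(P, ℂ)) (ν : List ℕ) :
    Λ.Df g * Λ.mon μ f ν = Λ.mon μ (g.comp (σ.θw μ) * f) ν := by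
  rw [mon, ← mul_assoc, ← mul_assoc, Df_mul_Sw, mon, Df_mul]
  simp only [mul_assoc]

theorem Df_mem_MA (g : C(P, ℂ)) : Λ.Df g ∈ Λ.MA := by
  refine Λ.mem_MA_of_mon (fun μ f ν hf => ?_) (fun μ f ν hf => ?_)
  · rw [Df_mul_mon]
    exact Λ.mon_mem_A _ (by simp [hf]) _
  · rw [← Df_star, Df_mul_mon]
    exact Λ.mon_mem_A _ (by simp [hf]) _

theorem Sw_mul_mon (κ μ : List ℕ) (f : C(P, ℂ)) (ν : List ℕ) :
    Λ.Sw κ * Λ.mon μ f ν = Λ.mon (κ ++ μ) f ν := by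
  rw [mon, mon, Sw_append]
  simp only [mul_assoc]

theorem star_Sw_mul_mon (κ μ : List ℕ) (f : C(P, ℂ)) (ν : List ℕ) :
    (∃ μ', μ = κ ++ μ' ∧ star (Λ.Sw κ) * Λ.mon μ f ν = Λ.mon μ' f ν) ∨
    (∃ κ', κ = μ ++ κ' ∧ star (Λ.Sw κ) * Λ.mon μ f ν
      = Λ.mon [] (f.comp (σ.θw κ')) (ν ++ κ')) ∨
    ((∀ μ', μ ≠ κ ++ μ') ∧ (∀ κ', κ ≠ μ ++ κ') ∧ star (Λ.Sw κ) * Λ.mon μ f ν = 0) := by
  rcases Λ.star_Sw_mul_Sw_cases κ μ with ⟨μ', h1, h2⟩ | ⟨κ', h1, h2⟩ | ⟨h1, h2, h3⟩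
  · refine Or.inl ⟨μ', h1, ?_⟩
    rw [mon, ← mul_assoc, ← mul_assoc, h2, mon]
  · refine Or.inr (Or.inl ⟨κ', h1, ?_⟩)
    rw [mon, ← mul_assoc, ← mul_assoc, h2, star_Sw_mul_Df, mon, Sw_append, star_mul, Sw_nil,
      one_mul, mul_assoc]
  · refine Or.inr (Or.inr ⟨h1, h2, ?_⟩)
    rw [mon, ← mul_assoc, ← mul_assoc, h3, zero_mul, zero_mul]

theorem Sw_mem_MA (κ : List ℕ) : Λ.Sw κ ∈ Λ.MA := by
  refine Λ.mem_MA_of_mon (fun μ f ν hf => ?_) (fun μ f ν hf => ?_)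
  · rw [Sw_mul_mon]
    exact Λ.mon_mem_A _ hf _
  · rcases Λ.star_Sw_mul_mon κ μ f ν with ⟨μ', -, h⟩ | ⟨κ', -, h⟩ | ⟨-, -, h⟩
    · rw [h]; exact Λ.mon_mem_A _ hf _
    · rw [h]; exact Λ.mon_mem_A _ (by simp [hf, σ.θw_pt]) _
    · rw [h]; exact zero_mem _

theorem Si_mem_MA (i : ℕ) : Λ.Si i ∈ Λ.MA := by
  rw [← Sw_singleton]; exact Λ.Sw_mem_MA _

theorem Df_mem_A {f : C(P, ℂ)} (hf : f σ.pt = 0) : Λ.Df f ∈ Λ.A := by
  have := Λ.mon_mem_A [] hf []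
  rwa [mon, Sw_nil, one_mul, star_one, mul_one] at this

theorem mon_nil (f : C(P, ℂ)) : Λ.mon [] f [] = Λ.Df f := by
  rw [mon, Sw_nil, one_mul, star_one, mul_one]

/-! ### coefficients -/

/-- diagonal coefficient at the roots -/
def e0 (X : Λ.H →L[ℂ] Λ.H) (p : P) : ℂ := (X (L2.δ (Λ.root p))) (Λ.root p)

theorem norm_e0_le (X : Λ.H →L[ℂ] Λ.H) (p : P) : ‖Λ.e0 X p‖ ≤ ‖X‖ := by
  refine (L2.norm_apply_le _ _).trans ((X.le_opNorm _).trans ?_)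
  rw [L2.norm_δ, mul_one]

theorem e0_add (X Y : Λ.H →L[ℂ] Λ.H) (p : P) : Λ.e0 (X + Y) p = Λ.e0 X p + Λ.e0 Y p := rfl
theorem e0_sub (X Y : Λ.H →L[ℂ] Λ.H) (p : P) : Λ.e0 (X - Y) p = Λ.e0 X p - Λ.e0 Y p := rfl
theorem e0_smul (c : ℂ) (X : Λ.H →L[ℂ] Λ.H) (p : P) : Λ.e0 (c • X) p = c * Λ.e0 X p := rfl
theorem e0_zero (p : P) : Λ.e0 0 p = 0 := rfl

theorem star_Si_δ_root (i : ℕ) (p : P) : star (Λ.Si i) (L2.δ (Λ.root p)) = 0 :=
  L2.star_S_δ' _ (fun s => Λ.root_ne p i s)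

theorem star_Sw_δ_root {w : List ℕ} (hw : w ≠ []) (p : P) :
    star (Λ.Sw w) (L2.δ (Λ.root p)) = 0 := by
  cases w with
  | nil => exact absurd rfl hw
  | cons i w =>
    rw [Sw_cons, star_mul, mul_apply_eq_comp, star_Si_δ_root, map_zero]

theorem Sw_apply_root {w : List ℕ} (hw : w ≠ []) (ξ : Λ.H) (p : P) :
    (Λ.Sw w ξ) (Λ.root p) = 0 := by
  cases w with
  | nil => exact absurd rfl hw
  | cons i w => exact L2.S_apply' _ _ (fun s => Λ.root_ne p i _)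

theorem Sw_nil_apply (ξ : Λ.H) : Λ.Sw [] ξ = ξ := by rw [Sw_nil]; rfl

theorem star_Sw_nil_apply (ξ : Λ.H) : star (Λ.Sw []) ξ = ξ := by rw [Sw_nil, star_one]; rfl

theorem e0_mon (μ : List ℕ) (f : C(P, ℂ)) (ν : List ℕ) (p : P) :
    Λ.e0 (Λ.mon μ f ν) p = if μ = [] ∧ ν = [] then f p else 0 := by
  unfold e0 mon
  rw [mul_apply_eq_comp, mul_apply_eq_comp]
  by_cases hν : ν = []
  · subst hν
    by_cases hμ : μ = []
    · subst hμ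
      rw [star_Sw_nil_apply, Df_δ, Sw_nil_apply]
      simp [Λ.r_root]
    · rw [Λ.Sw_apply_root hμ]
      simp [hμ]
  · rw [Λ.star_Sw_δ_root hν]
    simp [hν]

theorem e0_A0 {a : Λ.H →L[ℂ] Λ.H} (ha : a ∈ Λ.A0) : Continuous (Λ.e0 a) ∧ Λ.e0 a σ.pt = 0 := by
  rw [mem_A0_iff] at ha
  induction ha using Submodule.span_induction with
  | mem x hx =>
    obtain ⟨μ, f, ν, hf, rfl⟩ := hx
    have : Λ.e0 (Λ.mon μ f ν) = fun p => if μ = [] ∧ ν = [] then f p else 0 :=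
      funext fun p => Λ.e0_mon μ f ν p
    rw [this]
    by_cases h : μ = [] ∧ ν = []
    · simp only [h, and_self, if_true]
      exact ⟨f.continuous, hf⟩
    · simp only [h, if_false]
      exact ⟨continuous_const, trivial⟩
  | zero => exact ⟨continuous_const, rfl⟩
  | add x y _ _ hx hy => exact ⟨hx.1.add hy.1, by rw [e0_add, hx.2, hy.2, add_zero]⟩
  | smul c x _ hx => exact ⟨continuous_const.mul hx.1, by rw [e0_smul, hx.2, mul_zero]⟩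

theorem e0_A {a : Λ.H →L[ℂ] Λ.H} (ha : a ∈ Λ.A) : Continuous (Λ.e0 a) ∧ Λ.e0 a σ.pt = 0 := by
  constructor
  · refine continuous_of_uniform_approx_of_continuous fun u hu => ?_
    obtain ⟨ε, hε, hu⟩ := Metric.mem_uniformity_dist.1 hu
    obtain ⟨b, hb, hab⟩ := Λ.exists_A0_near ha hε
    refine ⟨Λ.e0 b, (Λ.e0_A0 hb).1, fun p => hu ?_⟩
    rw [dist_eq_norm, ← e0_sub]
    exact (Λ.norm_e0_le _ _).trans_lt hab
  · by_contra hne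
    obtain ⟨b, hb, hab⟩ := Λ.exists_A0_near ha (norm_pos_iff.2 hne)
    have h1 : Λ.e0 a σ.pt = Λ.e0 (a - b) σ.pt := by rw [e0_sub, (Λ.e0_A0 hb).2, sub_zero]
    have h2 := Λ.norm_e0_le (a - b) σ.pt
    rw [← h1] at h2
    exact absurd (h2.trans_lt hab) (lt_irrefl _)

open Classical in
/-- the coefficient function (junk value `0` if it is not continuous) -/
def E0 (X : Λ.H →L[ℂ] Λ.H) : C(P, ℂ) := if h : Continuous (Λ.e0 X) then ⟨Λ.e0 X, h⟩ else 0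

theorem E0_apply {a : Λ.H →L[ℂ] Λ.H} (ha : a ∈ Λ.A) (p : P) : Λ.E0 a p = Λ.e0 a p := by
  unfold E0
  rw [dif_pos (Λ.e0_A ha).1]
  rfl

theorem E0_pt {a : Λ.H →L[ℂ] Λ.H} (ha : a ∈ Λ.A) : Λ.E0 a σ.pt = 0 := by
  rw [E0_apply Λ ha, (Λ.e0_A ha).2]

theorem E0_sub {a b : Λ.H →L[ℂ] Λ.H} (ha : a ∈ Λ.A) (hb : b ∈ Λ.A) :
    Λ.E0 (a - b) = Λ.E0 a - Λ.E0 b := by
  ext p
  rw [ContinuousMap.sub_apply, E0_apply Λ ha, E0_apply Λ hb, E0_apply Λ (sub_mem ha hb), e0_sub]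

theorem E0_add {a b : Λ.H →L[ℂ] Λ.H} (ha : a ∈ Λ.A) (hb : b ∈ Λ.A) :
    Λ.E0 (a + b) = Λ.E0 a + Λ.E0 b := by
  ext p
  rw [ContinuousMap.add_apply, E0_apply Λ ha, E0_apply Λ hb, E0_apply Λ (add_mem ha hb), e0_add]

theorem E0_smul {a : Λ.H →L[ℂ] Λ.H} (ha : a ∈ Λ.A) (c : ℂ) :
    Λ.E0 (c • a) = c • Λ.E0 a := by
  ext p
  rw [ContinuousMap.smul_apply, E0_apply Λ ha, E0_apply Λ (SMulMemClass.smul_mem c ha), e0_smul]
  rfl

theorem norm_E0_le {a : Λ.H →L[ℂ] Λ.H} (ha : a ∈ Λ.A) : ‖Λ.E0 a‖ ≤ ‖a‖ := by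
  rw [ContinuousMap.norm_le _ (norm_nonneg _)]
  intro p
  rw [E0_apply Λ ha]
  exact Λ.norm_e0_le _ _

/-- the coefficient functions `E_{μν}` -/
def E (μ ν : List ℕ) (X : Λ.H →L[ℂ] Λ.H) : C(P, ℂ) := Λ.E0 (star (Λ.Sw μ) * X * Λ.Sw ν)

theorem compress_mem {a : Λ.H →L[ℂ] Λ.H} (ha : a ∈ Λ.A) (μ ν : List ℕ) :
    star (Λ.Sw μ) * a * Λ.Sw ν ∈ Λ.A :=
  Λ.mul_MA (Λ.Sw_mem_MA ν) (Λ.MA_mul (star_mem (Λ.Sw_mem_MA μ)) ha)

theorem E_pt {a : Λ.H →L[ℂ] Λ.H} (ha : a ∈ Λ.A) (μ ν : List ℕ) : Λ.E μ ν a σ.pt = 0 :=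
  Λ.E0_pt (Λ.compress_mem ha μ ν)

theorem E_apply {a : Λ.H →L[ℂ] Λ.H} (ha : a ∈ Λ.A) (μ ν : List ℕ) (p : P) :
    Λ.E μ ν a p = (a (L2.δ (Λ.cw ν (Λ.root p)))) (Λ.cw μ (Λ.root p)) := by
  rw [E, E0_apply Λ (Λ.compress_mem ha μ ν), e0, mul_apply_eq_comp, mul_apply_eq_comp]
  have h1 : Λ.Sw ν (L2.δ (Λ.root p)) = L2.δ (Λ.cw ν (Λ.root p)) := L2.S_δ _ _
  rw [h1]
  exact L2.star_S_apply (Λ.cw_inj μ) _ _

theorem E_mon (μ ν α β : List ℕ) {f : C(P, ℂ)} (hf : f σ.pt = 0) :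
    (∃ w, μ = α ++ w ∧ ν = β ++ w ∧ Λ.E μ ν (Λ.mon α f β) = f.comp (σ.θw w)) ∨
    ((∀ w, ¬ (μ = α ++ w ∧ ν = β ++ w)) ∧ Λ.E μ ν (Λ.mon α f β) = 0) := by
  by_cases h : ∃ w, μ = α ++ w ∧ ν = β ++ w
  · obtain ⟨w, rfl, rfl⟩ := h
    refine Or.inl ⟨w, rfl, rfl, ?_⟩
    ext p
    rw [E_apply Λ (Λ.mon_mem_A α hf β), mon, mul_apply_eq_comp, mul_apply_eq_comp, cw_append]
    have h1 : star (Λ.Sw β) (L2.δ (Λ.cw β (Λ.cw w (Λ.root p)))) = L2.δ (Λ.cw w (Λ.root p)) :=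
      L2.star_S_δ _ _
    rw [h1, Df_δ, map_smul, cw_append]
    have h2 : Λ.Sw α (L2.δ (Λ.cw w (Λ.root p))) = L2.δ (Λ.cw α (Λ.cw w (Λ.root p))) :=
      L2.S_δ _ _
    rw [h2, lp.coeFn_smul, Pi.smul_apply, L2.δ_self, smul_eq_mul, mul_one, r_cw, Λ.r_root]
    rfl
  · push Not at h
    refine Or.inr ⟨fun w hw => h w hw.1 hw.2, ?_⟩
    ext p
    rw [E_apply Λ (Λ.mon_mem_A α hf β), mon, mul_apply_eq_comp, mul_apply_eq_comp]
    by_cases hν : ∃ w, ν = β ++ w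
    · obtain ⟨w, rfl⟩ := hν
      rw [cw_append]
      have h1 : star (Λ.Sw β) (L2.δ (Λ.cw β (Λ.cw w (Λ.root p)))) = L2.δ (Λ.cw w (Λ.root p)) :=
        L2.star_S_δ _ _
      have h2 : Λ.Sw α (L2.δ (Λ.cw w (Λ.root p))) = L2.δ (Λ.cw α (Λ.cw w (Λ.root p))) :=
        L2.S_δ _ _
      rw [h1, Df_δ, map_smul, h2, lp.coeFn_smul, Pi.smul_apply, ← cw_append, L2.δ_ne, smul_zero]
      · rfl
      · intro h3
        exact h w (Λ.cw_root_inj h3).1 rfl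
    · have h1 : star (Λ.Sw β) (L2.δ (Λ.cw ν (Λ.root p))) = 0 := by
        rcases Λ.star_Sw_mul_Sw_cases β ν with ⟨κ', h1, h2⟩ | ⟨κ', h1, h2⟩ | ⟨-, -, h3⟩
        · exact absurd ⟨κ', h1⟩ hν
        · have h3 : κ' ≠ [] := by
            rintro rfl
            exact hν ⟨[], by simpa using h1.symm⟩
          have h4 : L2.δ (Λ.cw ν (Λ.root p)) = Λ.Sw ν (L2.δ (Λ.root p)) := (L2.S_δ _ _).symm
          rw [h4, ← mul_apply_eq_comp, h2, Λ.star_Sw_δ_root h3]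
        · have h4 : L2.δ (Λ.cw ν (Λ.root p)) = Λ.Sw ν (L2.δ (Λ.root p)) := (L2.S_δ _ _).symm
          rw [h4, ← mul_apply_eq_comp, h3]
          rfl
      rw [h1, map_zero, map_zero]
      rfl

/-! ### fresh letters -/

/-- for elements of `A0` the fresh letter limit is attained -/
theorem fresh_A0 {a : Λ.H →L[ℂ] Λ.H} (ha : a ∈ Λ.A0) :
    ∃ J : ℕ, ∀ j, J ≤ j → σ.θ j = ContinuousMap.id P →
      star (Λ.Si j) * a * Λ.Si j = Λ.Df (Λ.E0 a) := by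
  rw [mem_A0_iff] at ha
  have hA : ∀ x, x ∈ Submodule.span ℂ Λ.monSet → x ∈ Λ.A := fun x hx => Λ.A0_le_A hx
  induction ha using Submodule.span_induction with
  | mem x hx =>
    obtain ⟨μ, f, ν, hf, rfl⟩ := hx
    have hE : Λ.E0 (Λ.mon μ f ν) = if μ = [] ∧ ν = [] then f else 0 := by
      ext p
      rw [E0_apply Λ (Λ.mon_mem_A μ hf ν), e0_mon]
      split_ifs <;> rfl
    refine ⟨(μ ++ ν).foldr max 0 + 1, fun j hj hid => ?_⟩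
    have hlt : ∀ i ∈ μ ++ ν, i < j := by
      intro i hi
      have : ∀ (l : List ℕ), i ∈ l → i ≤ l.foldr max 0 := by
        intro l
        induction l with
        | nil => intro h; exact absurd h (List.not_mem_nil)
        | cons b l ih =>
          intro h
          rcases List.mem_cons.1 h with rfl | h
          · exact le_max_left _ _
          · exact (ih h).trans (le_max_right _ _)
      have := this _ hi
      omega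
    rw [hE, mon]
    by_cases hμ : μ = []
    · subst hμ
      by_cases hν : ν = []
      · subst hν
        simp only [and_self, if_true]
        rw [Sw_nil, one_mul, star_one, mul_one, mul_assoc, Df_mul_Si, ← mul_assoc,
          star_Si_mul_Si, one_mul, hid, ContinuousMap.comp_id]
      · cases ν with
        | nil => exact absurd rfl hν
        | cons k ν =>
          have hk : k ≠ j := (hlt k (by simp)).ne
          rw [if_neg (by simp), Df_zero, Sw_cons, star_mul, mul_assoc (star (Λ.Si j)),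
            mul_assoc _ _ (Λ.Si j), mul_assoc _ _ (Λ.Si j), Λ.star_Si_mul_Si_ne hk]
          simp
    · cases μ with
      | nil => exact absurd rfl hμ
      | cons k μ =>
        have hk : j ≠ k := (hlt k (by simp)).ne'
        rw [if_neg (by simp), Df_zero, Sw_cons]
        simp only [← mul_assoc]
        rw [Λ.star_Si_mul_Si_ne hk]
        simp
  | zero =>
    refine ⟨0, fun j _ _ => ?_⟩
    have : Λ.E0 (0 : Λ.H →L[ℂ] Λ.H) = 0 := by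
      ext p
      rw [E0_apply Λ (zero_mem _)]
      rfl
    rw [this, Df_zero, mul_zero, zero_mul]
  | add x y hx' hy' hx hy =>
    obtain ⟨J, hJ⟩ := hx
    obtain ⟨J', hJ'⟩ := hy
    refine ⟨max J J', fun j hj hid => ?_⟩
    rw [Λ.E0_add (hA x hx') (hA y hy'), Df_add, mul_add, add_mul,
      hJ j (le_trans (le_max_left _ _) hj) hid, hJ' j (le_trans (le_max_right _ _) hj) hid]
  | smul c x hx' hx =>
    obtain ⟨J, hJ⟩ := hx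
    refine ⟨J, fun j hj hid => ?_⟩
    rw [Λ.E0_smul (hA x hx'), Df_smul, mul_smul_comm, smul_mul_assoc, hJ j hj hid]

theorem norm_star_Si_le (i : ℕ) : ‖star (Λ.Si i)‖ ≤ 1 := by
  exact (le_of_eq (norm_star (Λ.Si i))).trans (Λ.norm_Si_le i)

theorem norm_star_Sw_le (w : List ℕ) : ‖star (Λ.Sw w)‖ ≤ 1 := by
  exact (le_of_eq (norm_star (Λ.Sw w))).trans (Λ.norm_Sw_le w)

theorem norm_compress_le (X Y Z : Λ.H →L[ℂ] Λ.H) (hX : ‖X‖ ≤ 1) (hZ : ‖Z‖ ≤ 1) :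
    ‖X * Y * Z‖ ≤ ‖Y‖ := by
  calc ‖X * Y * Z‖ ≤ ‖X * Y‖ * ‖Z‖ := norm_mul_le _ _
    _ ≤ (‖X‖ * ‖Y‖) * 1 := by
        refine mul_le_mul (norm_mul_le _ _) hZ (norm_nonneg _) (by positivity)
    _ ≤ (1 * ‖Y‖) * 1 := by gcongr
    _ = ‖Y‖ := by ring

/-- **Fresh letter limit.** -/
theorem fresh {a : Λ.H →L[ℂ] Λ.H} (ha : a ∈ Λ.A) {ε : ℝ} (hε : 0 < ε) :
    ∃ J : ℕ, ∀ j, J ≤ j → σ.θ j = ContinuousMap.id P →
      ‖star (Λ.Si j) * a * Λ.Si j - Λ.Df (Λ.E0 a)‖ ≤ ε := by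
  obtain ⟨b, hb, hab⟩ := Λ.exists_A0_near ha (half_pos hε)
  obtain ⟨J, hJ⟩ := Λ.fresh_A0 hb
  refine ⟨J, fun j hj hid => ?_⟩
  have hbA := Λ.A0_le_A hb
  have e : star (Λ.Si j) * a * Λ.Si j - Λ.Df (Λ.E0 a)
      = star (Λ.Si j) * (a - b) * Λ.Si j - Λ.Df (Λ.E0 (a - b)) := by
    rw [Λ.E0_sub ha hbA, Df_sub, mul_sub, sub_mul, hJ j hj hid]
    abel
  rw [e]
  calc _ ≤ ‖star (Λ.Si j) * (a - b) * Λ.Si j‖ + ‖Λ.Df (Λ.E0 (a - b))‖ := norm_sub_le _ _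
    _ ≤ ‖a - b‖ + ‖a - b‖ := by
        refine add_le_add (Λ.norm_compress_le _ _ _ (Λ.norm_star_Si_le j) (Λ.norm_Si_le j)) ?_
        exact (Λ.norm_Df_le _).trans (Λ.norm_E0_le (sub_mem ha hbA))
    _ ≤ ε := by linarith

end PathSpace

end

end Run7.h917
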