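import Pool.Agent.Run7.h917.Approx

/-!
# `Φ n n → id`
-/

open scoped ENNReal ComplexConjugate InnerProductSpace Topology
open Filter

set_option linter.unusedSectionVars false

namespace Run7.h917

noncomputable section

namespace PathSpace
variable {P : Type} [TopologicalSpace P] {σ : PtSys P} (Λ : PathSpace σ) [CompactSpace P]

theorem E_add {a b : Λ.H →L[ℂ] Λ.H} (ha : a ∈ Λ.A) (hb : b ∈ Λ.A) (μ ν : List ℕ) :
    Λ.E μ ν (a + b) = Λ.E μ ν a + Λ.E μ ν b := by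
  rw [E, mul_add, add_mul, Λ.E0_add (Λ.compress_mem ha μ ν) (Λ.compress_mem hb μ ν)]
  rfl

theorem E_sub {a b : Λ.H →L[ℂ] Λ.H} (ha : a ∈ Λ.A) (hb : b ∈ Λ.A) (μ ν : List ℕ) :
    Λ.E μ ν (a - b) = Λ.E μ ν a - Λ.E μ ν b := by
  rw [E, mul_sub, sub_mul, Λ.E0_sub (Λ.compress_mem ha μ ν) (Λ.compress_mem hb μ ν)]
  rfl

theorem E_smul {a : Λ.H →L[ℂ] Λ.H} (ha : a ∈ Λ.A) (c : ℂ) (μ ν : List ℕ) :
    Λ.E μ ν (c • a) = c • Λ.E μ ν a := by
  rw [E, mul_smul_comm, smul_mul_assoc, Λ.E0_smul (Λ.compress_mem ha μ ν)]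
  rfl

theorem E_zero (μ ν : List ℕ) : Λ.E μ ν (0 : Λ.H →L[ℂ] Λ.H) = 0 := by
  have := Λ.E_sub (zero_mem Λ.A) (zero_mem Λ.A) μ ν
  simpa using this

theorem Φ_add {a b : Λ.H →L[ℂ] Λ.H} (ha : a ∈ Λ.A) (hb : b ∈ Λ.A) (N κ : ℕ) :
    Λ.Φ N κ (a + b) = Λ.Φ N κ a + Λ.Φ N κ b := by
  simp only [Φ, Λ.E_add ha hb, Df_add, mul_add, add_mul, Finset.sum_add_distrib]

theorem Φ_sub {a b : Λ.H →L[ℂ] Λ.H} (ha : a ∈ Λ.A) (hb : b ∈ Λ.A) (N κ : ℕ) :
    Λ.Φ N κ (a - b) = Λ.Φ N κ a - Λ.Φ N κ b := by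
  simp only [Φ, Λ.E_sub ha hb, Df_sub, mul_sub, sub_mul, Finset.sum_sub_distrib]

theorem Φ_smul {a : Λ.H →L[ℂ] Λ.H} (ha : a ∈ Λ.A) (c : ℂ) (N κ : ℕ) :
    Λ.Φ N κ (c • a) = c • Λ.Φ N κ a := by
  simp only [Φ, Λ.E_smul ha, Df_smul, mul_smul_comm, smul_mul_assoc, Finset.smul_sum]

theorem Φ_zero (N κ : ℕ) : Λ.Φ N κ (0 : Λ.H →L[ℂ] Λ.H) = 0 := by
  simp only [Φ, Λ.E_zero, Df_zero, mul_zero, zero_mul, Finset.sum_const_zero]

theorem Φ_mon {N κ M D : ℕ} {α β : List ℕ} (hα : ∀ i ∈ α, i < κ) (hβ : ∀ i ∈ β, i < κ)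
    (hA : α.length ≤ D) (hB : β.length ≤ D) (hD : D = α.length ∨ D = β.length)
    (hM : M + D = N) {f : C(P, ℂ)} (hf : f σ.pt = 0) :
    Λ.Φ N κ (Λ.mon α f β)
      = Λ.Sw α * Λ.Df f * L2.D (fun t => (Λ.Rw N κ α.length β.length M 0 t : ℂ)) *
        star (Λ.Sw β) := by
  rw [Φ, ← Finset.sum_product']
  rw [← Λ.sum_Sw_D N κ α.length β.length M 0]
  simp only [Finset.mul_sum, Finset.sum_mul]
  symm
  refine Finset.sum_of_injOn (fun w : List ℕ => (α ++ w, β ++ w)) ?_ ?_ ?_ ?_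
  · intro v _ w _ h
    exact List.append_cancel_left (Prod.ext_iff.1 h).1
  · intro w hw
    obtain ⟨h1, h2⟩ := mem_Ω.1 (Finset.mem_coe.1 hw)
    refine Finset.mem_coe.2 (Finset.mem_product.2 ⟨mem_Ω.2 ⟨?_, ?_⟩, mem_Ω.2 ⟨?_, ?_⟩⟩)
    · simp only [List.length_append]; omega
    · intro i hi
      rcases List.mem_append.1 hi with hi | hi
      · exact hα i hi
      · exact h2 i hi
    · simp only [List.length_append]; omega
    · intro i hi
      rcases List.mem_append.1 hi with hi | hi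
      · exact hβ i hi
      · exact h2 i hi
  · rintro ⟨μ, ν⟩ hμν hne
    obtain ⟨hμ, hν⟩ := Finset.mem_product.1 hμν
    obtain ⟨hμ1, hμ2⟩ := mem_Ω.1 hμ
    obtain ⟨hν1, hν2⟩ := mem_Ω.1 hν
    rcases Λ.E_mon μ ν α β hf with ⟨w, rfl, rfl, -⟩ | ⟨-, h2⟩
    · exfalso
      apply hne
      refine ⟨w, Finset.mem_coe.2 (mem_Ω.2 ⟨?_, fun i hi => hμ2 i (by simp [hi])⟩), rfl⟩
      simp only [List.length_append] at hμ1 hν1
      omega
    · simp only [h2, Df_zero, mul_zero, zero_mul]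
  · intro w hw
    rcases Λ.E_mon (α ++ w) (β ++ w) α β hf with ⟨w', h1, -, h2⟩ | ⟨h1, -⟩
    · have hw' : w = w' := List.append_cancel_left h1
      subst hw'
      simp only [h2]
      rw [Tw, Tw, star_mul, star_Xk, Sw_append, Sw_append, star_mul]
      have e1 : Λ.Xk N κ (α ++ w).length * Λ.Df (f.comp (σ.θw w)) * Λ.Xk N κ (β ++ w).length
          = Λ.Df (f.comp (σ.θw w)) * L2.D (fun t =>
            ((Λ.xw N κ (0 + α.length + w.length) t *
              Λ.xw N κ (0 + β.length + w.length) t : ℝ) : ℂ)) := by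
        have hc : Λ.Xk N κ (α ++ w).length * Λ.Df (f.comp (σ.θw w))
            = Λ.Df (f.comp (σ.θw w)) * Λ.Xk N κ (α ++ w).length := by
          rw [Xk, Df, L2.D_mul (Λ.bdd_xw N κ _) (Λ.bdd_comp _),
            L2.D_mul (Λ.bdd_comp _) (Λ.bdd_xw N κ _)]
          simp only [mul_comm]
        rw [hc, mul_assoc]
        congr 1
        rw [Xk, Xk, L2.D_mul (Λ.bdd_xw N κ _) (Λ.bdd_xw N κ _)]
        simp only [List.length_append, zero_add, Complex.ofReal_mul]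
      calc _ = Λ.Sw α * (Λ.Df f * Λ.Sw w) * L2.D (fun t =>
            ((Λ.xw N κ (0 + α.length + w.length) t *
              Λ.xw N κ (0 + β.length + w.length) t : ℝ) : ℂ)) * (star (Λ.Sw w) *
                star (Λ.Sw β)) := by simp only [mul_assoc]
        _ = Λ.Sw α * Λ.Sw w * (Λ.Df (f.comp (σ.θw w)) * L2.D (fun t =>
            ((Λ.xw N κ (0 + α.length + w.length) t *
              Λ.xw N κ (0 + β.length + w.length) t : ℝ) : ℂ))) * (star (Λ.Sw w) *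
                star (Λ.Sw β)) := by rw [Df_mul_Sw]; simp only [mul_assoc]
        _ = _ := by rw [← e1]; simp only [mul_assoc]
    · exact absurd ⟨rfl, rfl⟩ (h1 w)

theorem norm_Φ_mon_sub_le {N κ M D : ℕ} {α β : List ℕ} (hα : ∀ i ∈ α, i < κ)
    (hβ : ∀ i ∈ β, i < κ) (hA : α.length ≤ D) (hB : β.length ≤ D)
    (hD : D = α.length ∨ D = β.length) (hM : M + D = N) (hN : 0 < N) {f : C(P, ℂ)}
    (hf : f σ.pt = 0) :
    ‖Λ.Φ N κ (Λ.mon α f β) - Λ.mon α f β‖ ≤ ‖f‖ * ((D : ℝ) / N) := by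
  rw [Λ.Φ_mon hα hβ hA hB hD hM hf]
  have hRb := Λ.Rw_bdd N κ α.length β.length M 0
  have e : Λ.Sw α * Λ.Df f * L2.D (fun t => (Λ.Rw N κ α.length β.length M 0 t : ℂ)) *
        star (Λ.Sw β) - Λ.mon α f β
      = Λ.Sw α * (Λ.Df f * (L2.D (fun t => (Λ.Rw N κ α.length β.length M 0 t : ℂ) - 1))) *
        star (Λ.Sw β) := by
    rw [mon, ← L2.D_sub hRb (L2.Bdd.const 1), L2.D_one]
    simp only [mul_sub, sub_mul, mul_one, mul_assoc]
  rw [e]
  refine (Λ.norm_compress_le _ _ _ (Λ.norm_Sw_le α) (Λ.norm_star_Sw_le β)).trans ?_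
  refine (norm_mul_le _ _).trans ?_
  have hN' : (0 : ℝ) < N := by exact_mod_cast hN
  refine mul_le_mul (Λ.norm_Df_le f) ?_ (norm_nonneg _) (norm_nonneg _)
  refine L2.norm_D_le (by positivity) (fun t => ?_)
  obtain ⟨h1, h2⟩ := Λ.Rw_bounds κ hN hA hB hM M 0 (by simp) t
  have h3 : (M : ℝ) / N = 1 - (D : ℝ) / N := by
    field_simp
    have : (N : ℝ) = M + D := by exact_mod_cast hM.symm
    rw [this]; ring
  have h4 : ((Λ.Rw N κ α.length β.length M 0 t : ℂ) - 1)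
      = ((Λ.Rw N κ α.length β.length M 0 t - 1 : ℝ) : ℂ) := by push_cast; ring
  rw [h4, Complex.norm_real, Real.norm_eq_abs, abs_le]
  simp only [CharP.cast_eq_zero, zero_div, sub_zero] at h2
  constructor
  · linarith
  · have : 0 ≤ (D : ℝ) / N := by positivity
    linarith

theorem tendsto_Φ_mon (α β : List ℕ) {f : C(P, ℂ)} (hf : f σ.pt = 0) :
    Tendsto (fun n : ℕ => Λ.Φ n n (Λ.mon α f β)) atTop (𝓝 (Λ.mon α f β)) := by
  rw [tendsto_iff_norm_sub_tendsto_zero]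
  have hle : ∀ (l : List ℕ) (i : ℕ), i ∈ l → i ≤ l.foldr max 0 := by
    intro l
    induction l with
    | nil => intro i h; exact absurd h (List.not_mem_nil)
    | cons b l ih =>
      intro i h
      rcases List.mem_cons.1 h with rfl | h
      · exact le_max_left _ _
      · exact (ih i h).trans (le_max_right _ _)
  set D := max α.length β.length with hD
  have h0 : Tendsto (fun n : ℕ => ‖f‖ * ((D : ℝ) / n)) atTop (𝓝 0) := by
    have := (tendsto_const_div_atTop_nhds_zero_nat (D : ℝ)).const_mul ‖f‖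
    simpa using this
  refine squeeze_zero' (Eventually.of_forall fun n => norm_nonneg _) ?_ h0
  filter_upwards [eventually_ge_atTop ((α ++ β).foldr max 0 + D + 1)] with n hn
  refine Λ.norm_Φ_mon_sub_le (M := n - D) (D := D) ?_ ?_ (le_max_left _ _) (le_max_right _ _) ?_
    (by omega) (by omega) hf
  · intro i hi
    have := hle (α ++ β) i (by simp [hi])
    omega
  · intro i hi
    have := hle (α ++ β) i (by simp [hi])
    omega
  · rcases le_total α.length β.length with h | h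
    · right; rw [hD, max_eq_right h]
    · left; rw [hD, max_eq_left h]

theorem tendsto_Φ_A0 {a : Λ.H →L[ℂ] Λ.H} (ha : a ∈ Λ.A0) :
    Tendsto (fun n : ℕ => Λ.Φ n n a) atTop (𝓝 a) := by
  rw [mem_A0_iff] at ha
  have hA : ∀ x, x ∈ Submodule.span ℂ Λ.monSet → x ∈ Λ.A := fun x hx => Λ.A0_le_A hx
  induction ha using Submodule.span_induction with
  | mem x hx =>
    obtain ⟨μ, f, ν, hf, rfl⟩ := hx
    exact Λ.tendsto_Φ_mon μ ν hf
  | zero =>
    simp only [Φ_zero]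
    exact tendsto_const_nhds
  | add x y hx' hy' hx hy =>
    simp only [Λ.Φ_add (hA x hx') (hA y hy')]
    exact hx.add hy
  | smul c x hx' hx =>
    simp only [Λ.Φ_smul (hA x hx')]
    exact hx.const_smul c

/-- **The approximation maps converge to the identity.** -/
theorem tendsto_Φ {a : Λ.H →L[ℂ] Λ.H} (ha : a ∈ Λ.A) :
    Tendsto (fun n : ℕ => Λ.Φ n n a) atTop (𝓝 a) := by
  rw [Metric.tendsto_atTop]
  intro ε hε
  obtain ⟨b, hb, hab⟩ := Λ.exists_A0_near ha (show 0 < ε / 3 by positivity)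
  obtain ⟨K, hK⟩ := Metric.tendsto_atTop.1 (Λ.tendsto_Φ_A0 hb) (ε / 3) (by positivity)
  refine ⟨max K 1, fun n hn => ?_⟩
  have h1 := hK n (le_trans (le_max_left _ _) hn)
  have hn1 : 0 < n := le_trans (le_max_right K 1) hn
  rw [dist_eq_norm] at h1 ⊢
  have hbA := Λ.A0_le_A hb
  have h2 : ‖Λ.Φ n n (a - b)‖ ≤ ‖a - b‖ := Λ.norm_Φ_le hn1 n (sub_mem ha hbA)
  have e : Λ.Φ n n a - a = Λ.Φ n n (a - b) + (Λ.Φ n n b - b) - (a - b) := by
    rw [Λ.Φ_sub ha hbA]; abel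
  rw [e]
  calc _ ≤ ‖Λ.Φ n n (a - b) + (Λ.Φ n n b - b)‖ + ‖a - b‖ := norm_sub_le _ _
    _ ≤ ‖Λ.Φ n n (a - b)‖ + ‖Λ.Φ n n b - b‖ + ‖a - b‖ := by
        gcongr; exact norm_add_le _ _
    _ < ε := by linarith

end PathSpace

end

end Run7.h917
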