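import Mathlib

/-!
# Nuclear C*-algebras and the primitive ideal space: the definitions of the final statement
-/

open scoped CStarAlgebra ComplexOrder

namespace Run7.h917

universe u

/-- Nuclearity, in the form of the completely positive approximation property: the identity of `A`
is a point-norm limit of maps which factor through matrix algebras `M_n(ℂ)` via contractive
completely positive maps. -/
def IsNuclear (A : Type u) [NonUnitalCStarAlgebra A] [PartialOrder A] [StarOrderedRing A] :
    Prop :=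
  ∀ (F : Finset A) (ε : ℝ), 0 < ε →
    ∃ (n : ℕ) (φ : A →CP CStarMatrix (Fin n) (Fin n) ℂ)
      (ψ : CStarMatrix (Fin n) (Fin n) ℂ →CP A),
      (∀ a, ‖φ a‖ ≤ ‖a‖) ∧ (∀ m, ‖ψ m‖ ≤ ‖m‖) ∧ ∀ a ∈ F, ‖ψ (φ a) - a‖ < ε

/-- A representation of a C*-algebra on a Hilbert space is irreducible if it is nonzero and has no
closed invariant subspaces other than `0` and the whole space. -/
def IsIrreducible {A : Type u} [NonUnitalCStarAlgebra A] {H : Type u} [NormedAddCommGroup H]
    [InnerProductSpace ℂ H] [CompleteSpace H] (ρ : A →⋆ₙₐ[ℂ] (H →L[ℂ] H)) : Prop :=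
  (∃ a, ρ a ≠ 0) ∧
    ∀ M : Submodule ℂ H, IsClosed (M : Set H) → (∀ a, ∀ v ∈ M, ρ a v ∈ M) → M = ⊥ ∨ M = ⊤

/-- A primitive ideal is the kernel of an irreducible representation. -/
def IsPrimitive {A : Type u} [NonUnitalCStarAlgebra A] (I : Set A) : Prop :=
  ∃ (H : Type u) (_ : NormedAddCommGroup H) (_ : InnerProductSpace ℂ H) (_ : CompleteSpace H)
    (ρ : A →⋆ₙₐ[ℂ] (H →L[ℂ] H)), IsIrreducible ρ ∧ I = {a | ρ a = 0}

/-- The set of primitive ideals. -/
def Prim (A : Type u) [NonUnitalCStarAlgebra A] : Type u := {I : Set A // IsPrimitive I}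

/-- The hull of a set: the primitive ideals containing it. -/
def hull {A : Type u} [NonUnitalCStarAlgebra A] (S : Set A) : Set (Prim A) := {I | S ⊆ I.1}

/-- primitive ideals are prime -/
theorem IsPrimitive.prime {A : Type u} [NonUnitalCStarAlgebra A] {I : Set A} (hI : IsPrimitive I)
    {J₁ J₂ : Set A} (h : ∀ a ∈ J₁, ∀ b, ∀ c ∈ J₂, a * b * c ∈ I) : J₁ ⊆ I ∨ J₂ ⊆ I := by
  obtain ⟨H, _, _, _, ρ, ⟨hne, hirr⟩, rfl⟩ := hI
  by_contra hcon
  push Not at hcon
  obtain ⟨h1, h2⟩ := hcon
  obtain ⟨a, ha, ha'⟩ := Set.not_subset.1 h1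
  obtain ⟨c, hc, hc'⟩ := Set.not_subset.1 h2
  simp only [Set.mem_ofPred_eq] at ha' hc'
  -- the closed span of `ρ(A) ρ(c) H`
  obtain ⟨v, hv⟩ : ∃ v, ρ c v ≠ 0 := by
    by_contra hcon
    push Not at hcon
    exact hc' (ContinuousLinearMap.ext hcon)
  let M : Submodule ℂ H := (Submodule.span ℂ {w | ∃ b, w = ρ b (ρ c v)}).topologicalClosure
  have hMinv : ∀ b, ∀ w ∈ M, ρ b w ∈ M := by
    intro b w hw
    have h3 : Submodule.span ℂ {w | ∃ b, w = ρ b (ρ c v)} ≤
        M.comap (ρ b : H →ₗ[ℂ] H) := by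
      rw [Submodule.span_le]
      rintro w ⟨b', rfl⟩
      refine Submodule.le_topologicalClosure _ (Submodule.subset_span ⟨b * b', ?_⟩)
      rw [map_mul]; rfl
    exact (closure_minimal (s := (Submodule.span ℂ {w | ∃ b, w = ρ b (ρ c v)} : Set H)) h3
      ((Submodule.isClosed_topologicalClosure _).preimage (ρ b).continuous)) hw
  rcases hirr M (Submodule.isClosed_topologicalClosure _) hMinv with hM | hM
  · -- then `ρ c v` is killed by all of `A`
    let K : Submodule ℂ H :=
      { carrier := {w | ∀ b, ρ b w = 0}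
        add_mem' := fun {x y} hx hy b => by rw [map_add, hx b, hy b, add_zero]
        zero_mem' := fun b => by rw [map_zero]
        smul_mem' := fun z x hx b => by rw [map_smul, hx b, smul_zero] }
    have hKc : IsClosed (K : Set H) := by
      have : (K : Set H) = ⋂ b, {w | ρ b w = 0} := by
        ext w; simp [K]
      rw [this]
      exact isClosed_iInter fun b => isClosed_eq (ρ b).continuous continuous_const
    have hKinv : ∀ b, ∀ w ∈ K, ρ b w ∈ K := by
      intro b w hw
      rw [hw b]
      exact K.zero_mem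
    have hmem : ρ c v ∈ K := by
      intro b
      have h4 : ρ b (ρ c v) ∈ M :=
        Submodule.le_topologicalClosure _ (Submodule.subset_span ⟨b, rfl⟩)
      rw [hM] at h4
      simpa using h4
    rcases hirr K hKc hKinv with hK | hK
    · rw [hK] at hmem
      exact hv (by simpa using hmem)
    · obtain ⟨b, hb⟩ := hne
      apply hb
      ext w
      have : w ∈ K := by rw [hK]; trivial
      simpa using this b
  · -- then `ρ a` vanishes
    apply ha'
    ext w
    have hw : w ∈ M := by rw [hM]; trivial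
    have h5 : Submodule.span ℂ {w | ∃ b, w = ρ b (ρ c v)} ≤ LinearMap.ker (ρ a : H →ₗ[ℂ] H) := by
      rw [Submodule.span_le]
      rintro w ⟨b, rfl⟩
      have h6 := h a ha b c hc
      simp only [Set.mem_ofPred_eq, map_mul] at h6
      have := DFunLike.congr_fun h6 v
      exact this
    have h7 : w ∈ (LinearMap.ker (ρ a : H →ₗ[ℂ] H) : Set H) := by
      refine (closure_minimal (s := (Submodule.span ℂ {w | ∃ b, w = ρ b (ρ c v)} : Set H)) h5
        ?_) hw
      have : (LinearMap.ker (ρ a : H →ₗ[ℂ] H) : Set H) = {w | ρ a w = 0} := by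
        ext w; simp
      rw [this]
      exact isClosed_eq (ρ a).continuous continuous_const
    simpa using h7

/-- The hull-kernel (Jacobson) topology: the closed sets are the hulls. -/
instance (A : Type u) [NonUnitalCStarAlgebra A] : TopologicalSpace (Prim A) :=
  TopologicalSpace.ofClosed {C | ∃ S : Set A, C = hull S}
    ⟨Set.univ, by
      ext I
      simp only [Set.mem_empty_iff_false, hull, Set.univ_subset_iff, Set.mem_ofPred_eq, false_iff]
      intro h
      obtain ⟨H, _, _, _, ρ, ⟨⟨a, ha⟩, -⟩, h'⟩ := I.2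
      have : a ∈ I.1 := by rw [h]; trivial
      rw [h'] at this
      exact ha this⟩
    (by
      intro 𝒞 h𝒞
      refine ⟨⋃₀ {S | hull S ∈ 𝒞}, ?_⟩
      ext I
      simp only [Set.mem_sInter, hull, Set.mem_ofPred_eq, Set.sUnion_subset_iff]
      constructor
      · intro h S hS
        exact h _ hS
      · intro h C hC
        obtain ⟨S, rfl⟩ := h𝒞 hC
        exact h S hC)
    (by
      rintro _ ⟨S, rfl⟩ _ ⟨T, rfl⟩
      refine ⟨{x | ∃ a ∈ S, ∃ b, ∃ c ∈ T, x = a * b * c}, ?_⟩
      ext I
      simp only [Set.mem_union, hull, Set.mem_ofPred_eq]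
      constructor
      · rintro (h | h)
        · rintro _ ⟨a, ha, b, c, hc, rfl⟩
          obtain ⟨H, _, _, _, ρ, -, h'⟩ := I.2
          have h8 := h ha
          rw [h'] at h8 ⊢
          simp only [Set.mem_ofPred_eq] at h8 ⊢
          rw [map_mul, map_mul, h8, zero_mul, zero_mul]
        · rintro _ ⟨a, ha, b, c, hc, rfl⟩
          obtain ⟨H, _, _, _, ρ, -, h'⟩ := I.2
          have h8 := h hc
          rw [h'] at h8 ⊢
          simp only [Set.mem_ofPred_eq] at h8 ⊢
          rw [map_mul, map_mul, h8, mul_zero]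
      · intro h
        exact I.2.prime fun a ha b c hc => h ⟨a, ha, b, c, hc, rfl⟩)

theorem isClosed_prim_iff {A : Type u} [NonUnitalCStarAlgebra A] {C : Set (Prim A)} :
    IsClosed C ↔ ∃ S : Set A, C = hull S := by
  rw [← isOpen_compl_iff]
  change Cᶜᶜ ∈ {C | ∃ S : Set A, C = hull S} ↔ _
  rw [compl_compl]
  rfl

end Run7.h917
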