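import Pool.Agent.Run7.h917.Sys

/-!
# Definitions for Part I (pure topology); sorry-free
-/

open TopologicalSpace Set

namespace Run7.h917

universe u

/-- Dini functions with values in `[0,1]`. -/
structure IsDini {X : Type u} [TopologicalSpace X] (h : X → ℝ) : Prop where
  nonneg : ∀ x, 0 ≤ h x
  le_one : ∀ x, h x ≤ 1
  lsc : ∀ s : ℝ, IsOpen {x | s < h x}
  cpt : ∀ s t : ℝ, 0 < s → s < t →
    ∃ C : Set X, IsCompact C ∧ {x | t < h x} ⊆ C ∧ C ⊆ {x | s < h x}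

/-- The tree. Nodes of the `k`-th tree are lists over `Fin 3`, the HEAD of the list being the LAST
choice. -/
structure Tree (X : Type u) [TopologicalSpace X] where
  h : ℕ → List (Fin 3) → X → ℝ
  dini : ∀ k τ, IsDini (h k τ)
  mono : ∀ k τ i x, h k (i :: τ) x ≤ h k τ x
  approx : ∀ k τ x, ∃ i, h k τ x ≤ h k (i :: τ) x + (1 / 2 : ℝ) ^ (τ.length + 2)
  /-- if `{h_τ > s} ⊆ U ∪ U'`, then for `t > s` there are arbitrarily large levels `m` such that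
  every child `i :: τ'` of every extension `τ'` of `τ` of length `m` is supported in `U`, or
  supported in `U'`, or bounded by `t` -/
  split : ∀ (k : ℕ) (τ : List (Fin 3)) (s t : ℝ) (U U' : Set X), 0 < s → s < t →
    IsOpen U → IsOpen U' → {x | s < h k τ x} ⊆ U ∪ U' → ∀ n : ℕ, ∃ m, n ≤ m ∧
      ∀ τ' : List (Fin 3), τ <:+ τ' → τ'.length = m → ∀ i : Fin 3,
        (∀ x, x ∉ U → h k (i :: τ') x = 0) ∨ (∀ x, x ∉ U' → h k (i :: τ') x = 0) ∨
          (∀ x, h k (i :: τ') x ≤ t)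
  root : ∀ (x : X) (U : Set X), IsOpen U → x ∈ U → ∃ k, h k [] x = 1 ∧ ∀ y, y ∉ U → h k [] y = 0

/-- the prefix of length `n` of a branch (head = last choice) -/
def pre (z : ℕ → Fin 3) : ℕ → List (Fin 3)
  | 0 => []
  | n + 1 => z n :: pre z n

namespace Tree
variable {X : Type u} [TopologicalSpace X] (𝒯 : Tree X)

/-- the branch `z` of tree `k` survives at level `s` -/
def Alive (k : ℕ) (z : ℕ → Fin 3) (s : ℝ) : Prop :=
  ∀ n, ∀ s' < s, ∃ x, s' < 𝒯.h k (pre z n) x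

/-- The open sets `G l σ b`. -/
def G (l : ℕ) (τ : List (Fin 3)) (b : ℝ) : Set X :=
  {x | b + (1 / 2 : ℝ) ^ (τ.length + 1) < 𝒯.h l τ x}

theorem isOpen_G (l : ℕ) (τ : List (Fin 3)) (b : ℝ) : IsOpen (𝒯.G l τ b) :=
  (𝒯.dini l τ).lsc _

/-- from `approx` -/
theorem G_step {l : ℕ} {τ : List (Fin 3)} {b : ℝ} {x : X} (hx : x ∈ 𝒯.G l τ b) :
    ∃ i, x ∈ 𝒯.G l (i :: τ) b := by
  obtain ⟨i, hi⟩ := 𝒯.approx l τ x
  refine ⟨i, ?_⟩
  have h1 : b + (1 / 2 : ℝ) ^ (τ.length + 1) < 𝒯.h l τ x := hx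
  change b + (1 / 2 : ℝ) ^ ((i :: τ).length + 1) < 𝒯.h l (i :: τ) x
  simp only [List.length_cons]
  have e1 : (1 / 2 : ℝ) ^ (τ.length + 1) = (1 / 2 : ℝ) ^ τ.length * (1 / 2) := by ring
  have e2 : (1 / 2 : ℝ) ^ (τ.length + 2) = (1 / 2 : ℝ) ^ τ.length * (1 / 4) := by ring
  have e3 : (1 / 2 : ℝ) ^ (τ.length + 1 + 1) = (1 / 2 : ℝ) ^ τ.length * (1 / 4) := by ring
  rw [e1] at h1
  rw [e2] at hi
  rw [e3]
  linarith

end Tree

end Run7.h917
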