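import Pool.Agent.Run7.h917.Conv

/-!
# Closed ideals of `A` and closed invariant sets
-/

open scoped ENNReal ComplexConjugate InnerProductSpace Topology
open Filter

set_option linter.unusedSectionVars false

namespace Run7.h917

noncomputable section

namespace PathSpace
variable {P : Type} [TopologicalSpace P] {σ : PtSys P} (Λ : PathSpace σ) [CompactSpace P]

/-- closed two sided ideals of `A` as sets of operators -/
structure IsIdl (I : Set (Λ.H →L[ℂ] Λ.H)) : Prop where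
  sub : ∀ x ∈ I, x ∈ Λ.A
  zero : 0 ∈ I
  add : ∀ x ∈ I, ∀ y ∈ I, x + y ∈ I
  smul : ∀ (c : ℂ), ∀ x ∈ I, c • x ∈ I
  closed : IsClosed I
  left : ∀ a ∈ Λ.A, ∀ x ∈ I, a * x ∈ I
  right : ∀ a ∈ Λ.A, ∀ x ∈ I, x * a ∈ I

/-- an approximate unit for a function -/
def gε (f : C(P, ℂ)) (ε : ℝ) (hε : 0 < ε) : C(P, ℂ) where
  toFun p := ((‖f p‖ / (‖f p‖ + ε) : ℝ) : ℂ)
  continuous_toFun := by
    refine Complex.continuous_ofReal.comp ?_
    refine (continuous_norm.comp f.continuous).div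
      ((continuous_norm.comp f.continuous).add continuous_const) (fun p => ?_)
    have := norm_nonneg (f p)
    positivity

theorem gε_apply (f : C(P, ℂ)) (ε : ℝ) (hε : 0 < ε) (p : P) :
    gε f ε hε p = ((‖f p‖ / (‖f p‖ + ε) : ℝ) : ℂ) := rfl

theorem gε_sub_le (f : C(P, ℂ)) (ε : ℝ) (hε : 0 < ε) :
    ‖gε f ε hε * f * gε f ε hε - f‖ ≤ 2 * ε := by
  rw [ContinuousMap.norm_le _ (by positivity)]
  intro p
  rw [ContinuousMap.sub_apply, ContinuousMap.mul_apply, ContinuousMap.mul_apply, gε_apply]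
  set t := ‖f p‖ with ht
  have ht0 : 0 ≤ t := norm_nonneg _
  have e : ((t / (t + ε) : ℝ) : ℂ) * f p * ((t / (t + ε) : ℝ) : ℂ) - f p
      = (((t / (t + ε)) * (t / (t + ε)) - 1 : ℝ) : ℂ) * f p := by
    push_cast; ring
  rw [e, norm_mul, Complex.norm_real, ← ht, Real.norm_eq_abs]
  have h1 : t / (t + ε) ≤ 1 := by
    rw [div_le_one (by positivity)]; linarith
  have h0 : 0 ≤ t / (t + ε) := by positivity
  have h2 : |t / (t + ε) * (t / (t + ε)) - 1| = 1 - t / (t + ε) * (t / (t + ε)) := by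
    rw [abs_sub_comm, abs_of_nonneg]
    nlinarith
  rw [h2]
  have h3 : 1 - t / (t + ε) * (t / (t + ε)) ≤ 2 * (1 - t / (t + ε)) := by nlinarith
  have h4 : (1 - t / (t + ε)) * t ≤ ε := by
    have : 1 - t / (t + ε) = ε / (t + ε) := by field_simp; ring
    rw [this, div_mul_eq_mul_div, div_le_iff₀ (by positivity)]
    nlinarith
  calc (1 - t / (t + ε) * (t / (t + ε))) * t ≤ (2 * (1 - t / (t + ε))) * t := by gcongr
    _ = 2 * ((1 - t / (t + ε)) * t) := by ring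
    _ ≤ 2 * ε := by linarith

variable {Λ}

/-- multipliers can be put on both sides of functions in an ideal -/
theorem IsIdl.mult {I : Set (Λ.H →L[ℂ] Λ.H)} (hI : Λ.IsIdl I) {X Y : Λ.H →L[ℂ] Λ.H}
    (hX : X ∈ Λ.MA) (hY : Y ∈ Λ.MA) {f : C(P, ℂ)} (hf : f σ.pt = 0) (hfI : Λ.Df f ∈ I) :
    X * Λ.Df f * Y ∈ I := by
  rw [← hI.closed.closure_eq, Metric.mem_closure_iff]
  intro ε hε
  set K : ℝ := ‖X‖ * ‖Y‖ + 1 with hK
  have hK0 : 0 < K := by positivity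
  set η : ℝ := ε / (4 * K) with hη
  have hη0 : 0 < η := by positivity
  set g := gε f η hη0 with hg
  have hgpt : g σ.pt = 0 := by rw [hg, gε_apply, hf]; simp
  refine ⟨(X * Λ.Df g) * Λ.Df f * (Λ.Df g * Y), ?_, ?_⟩
  · exact hI.right _ (Λ.mul_MA hY (Λ.Df_mem_A hgpt)) _
      (hI.left _ (Λ.MA_mul hX (Λ.Df_mem_A hgpt)) _ hfI)
  · rw [dist_comm, dist_eq_norm]
    have e : X * Λ.Df g * Λ.Df f * (Λ.Df g * Y) - X * Λ.Df f * Y
        = X * Λ.Df (g * f * g - f) * Y := by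
      rw [Df_sub, Df_mul, Df_mul]
      simp only [mul_sub, sub_mul, mul_assoc]
    rw [e]
    calc ‖X * Λ.Df (g * f * g - f) * Y‖ ≤ ‖X * Λ.Df (g * f * g - f)‖ * ‖Y‖ := norm_mul_le _ _
      _ ≤ (‖X‖ * ‖Λ.Df (g * f * g - f)‖) * ‖Y‖ := by gcongr; exact norm_mul_le _ _
      _ ≤ (‖X‖ * (2 * η)) * ‖Y‖ := by
          gcongr
          exact (Λ.norm_Df_le _).trans (gε_sub_le f η hη0)
      _ = 2 * (‖X‖ * ‖Y‖) * η := by ring
      _ ≤ 2 * K * η := by gcongr; rw [hK]; linarith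
      _ = ε / 2 := by rw [hη]; field_simp; ring
      _ < ε := by linarith

/-- the closed set of an ideal -/
def FI (Λ : PathSpace σ) (I : Set (Λ.H →L[ℂ] Λ.H)) : Set P :=
  {p | ∀ f : C(P, ℂ), f σ.pt = 0 → Λ.Df f ∈ I → f p = 0}

theorem isClosed_FI (I : Set (Λ.H →L[ℂ] Λ.H)) : IsClosed (Λ.FI I) := by
  have : Λ.FI I = ⋂ (f : C(P, ℂ)) (_ : f σ.pt = 0) (_ : Λ.Df f ∈ I), {p | f p = 0} := by
    ext p; simp [FI]
  rw [this]
  exact isClosed_iInter fun f => isClosed_iInter fun _ => isClosed_iInter fun _ =>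
    isClosed_eq f.continuous continuous_const

theorem pt_mem_FI (I : Set (Λ.H →L[ℂ] Λ.H)) : σ.pt ∈ Λ.FI I := fun _ hf _ => hf

/-- the ideal of functions -/
def IsIdl.I0 {I : Set (Λ.H →L[ℂ] Λ.H)} (hI : Λ.IsIdl I) : Ideal C(P, ℂ) where
  carrier := {f | f σ.pt = 0 ∧ Λ.Df f ∈ I}
  add_mem' := by
    rintro f g ⟨hf, hf'⟩ ⟨hg, hg'⟩
    refine ⟨by simp [hf, hg], ?_⟩
    rw [Df_add]
    exact hI.add _ hf' _ hg'
  zero_mem' := ⟨rfl, by rw [Df_zero]; exact hI.zero⟩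
  smul_mem' := by
    rintro c f ⟨hf, hf'⟩
    refine ⟨by simp [hf], ?_⟩
    have := hI.mult (Λ.Df_mem_MA c) (one_mem _) hf hf'
    rw [mul_one] at this
    rwa [smul_eq_mul, Df_mul]

theorem IsIdl.isClosed_I0 {I : Set (Λ.H →L[ℂ] Λ.H)} (hI : Λ.IsIdl I) :
    IsClosed (hI.I0 : Set C(P, ℂ)) := by
  have : (hI.I0 : Set C(P, ℂ)) = {f | f σ.pt = 0} ∩ Λ.DfL ⁻¹' I := by
    ext f; rfl
  rw [this]
  refine IsClosed.inter ?_ (hI.closed.preimage Λ.DfL.continuous)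
  exact isClosed_eq (continuous_eval_const σ.pt) continuous_const

theorem IsIdl.Df_mem {I : Set (Λ.H →L[ℂ] Λ.H)} (hI : Λ.IsIdl I) [T2Space P] {f : C(P, ℂ)}
    (h : ∀ p ∈ Λ.FI I, f p = 0) : Λ.Df f ∈ I := by
  have h1 : ContinuousMap.idealOfSet ℂ (ContinuousMap.setOfIdeal hI.I0) = hI.I0 :=
    ContinuousMap.idealOfSet_ofIdeal_isClosed hI.isClosed_I0
  have h2 : f ∈ ContinuousMap.idealOfSet ℂ (ContinuousMap.setOfIdeal hI.I0) := by
    rw [ContinuousMap.mem_idealOfSet]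
    intro p hp
    apply h
    intro g hg hgI
    have hp' : p ∉ ContinuousMap.setOfIdeal hI.I0 := hp
    rw [ContinuousMap.notMem_setOfIdeal] at hp'
    exact hp' (show g ∈ hI.I0 from ⟨hg, hgI⟩)
  rw [h1] at h2
  exact h2.2

/-- Urysohn, complex valued, vanishing at the base point -/
theorem exists_fun [T2Space P] {p : P} (hp : p ≠ σ.pt) {U : Set P} (hU : IsOpen U) (hpU : p ∈ U) :
    ∃ g : C(P, ℂ), g σ.pt = 0 ∧ g p = 1 ∧ (∀ x, x ∉ U → g x = 0) ∧ (∀ x, ‖g x‖ ≤ 1) := by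
  have hU' : IsOpen (U ∩ {σ.pt}ᶜ) := hU.inter isClosed_singleton.isOpen_compl
  obtain ⟨f, hf0, hf1, hf⟩ := exists_continuous_zero_one_of_isClosed
    (hU'.isClosed_compl) (isClosed_singleton (x := p)) (by
      rw [Set.disjoint_singleton_right]
      simp only [Set.mem_compl_iff, Set.mem_inter_iff, Set.mem_singleton_iff, not_and, not_not]
      push Not
      exact ⟨hpU, hp⟩)
  refine ⟨⟨fun x => ((f x : ℝ) : ℂ), Complex.continuous_ofReal.comp f.continuous⟩, ?_, ?_, ?_, ?_⟩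
  · have : f σ.pt = 0 := hf0 (by simp)
    simp [this]
  · have : f p = 1 := hf1 rfl
    simp [this]
  · intro x hx
    have : f x = 0 := hf0 (by simp [hx])
    simp [this]
  · intro x
    simp only [ContinuousMap.coe_mk, Complex.norm_real, Real.norm_eq_abs]
    rw [abs_of_nonneg (hf x).1]
    exact (hf x).2

theorem IsIdl.map_FI {I : Set (Λ.H →L[ℂ] Λ.H)} (hI : Λ.IsIdl I) [T2Space P] (i : ℕ) {p : P}
    (hp : p ∈ Λ.FI I) : σ.θ i p ∈ Λ.FI I := by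
  intro f hf hfI
  by_cases hpt : p = σ.pt
  · rw [hpt, σ.map_pt, hf]
  obtain ⟨g, hg0, hg1, -, -⟩ := exists_fun (σ := σ) hpt isOpen_univ (Set.mem_univ p)
  have h1 : star (Λ.Si i * Λ.Df g) * Λ.Df f * (Λ.Si i * Λ.Df g) ∈ I :=
    hI.right _ (Λ.MA_mul (Λ.Si_mem_MA i) (Λ.Df_mem_A hg0)) _
      (hI.left _ (Λ.star_mem_A (Λ.MA_mul (Λ.Si_mem_MA i) (Λ.Df_mem_A hg0))) _ hfI)
  have h2 : star (Λ.Si i * Λ.Df g) * Λ.Df f * (Λ.Si i * Λ.Df g)
      = Λ.Df (star g * f.comp (σ.θ i) * g) := by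
    rw [star_mul, Df_mul, Df_mul, Df_star]
    calc _ = star (Λ.Df g) * star (Λ.Si i) * (Λ.Df f * Λ.Si i) * Λ.Df g := by
          simp only [mul_assoc]
      _ = star (Λ.Df g) * (star (Λ.Si i) * Λ.Si i) * Λ.Df (f.comp (σ.θ i)) * Λ.Df g := by
          rw [Df_mul_Si]; simp only [mul_assoc]
      _ = _ := by rw [star_Si_mul_Si, mul_one]
  rw [h2] at h1
  have h3 := hp _ (by simp [hg0]) h1
  simpa [hg1] using h3

/-- **Ideal theorem.** -/
theorem IsIdl.mem_iff {I : Set (Λ.H →L[ℂ] Λ.H)} (hI : Λ.IsIdl I) [T2Space P]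
    {a : Λ.H →L[ℂ] Λ.H} (ha : a ∈ Λ.A) :
    a ∈ I ↔ ∀ μ ν, ∀ p ∈ Λ.FI I, Λ.E μ ν a p = 0 := by
  constructor
  · intro haI μ ν p hp
    by_cases hpt : p = σ.pt
    · rw [hpt, Λ.E_pt ha]
    obtain ⟨g, hg0, hg1, -, hgn⟩ := exists_fun (σ := σ) hpt isOpen_univ (Set.mem_univ p)
    have key : Λ.Df (star g * Λ.E μ ν a * g) ∈ I := by
      rw [← hI.closed.closure_eq, Metric.mem_closure_iff]
      intro ε hε
      obtain ⟨J, hJ⟩ := Λ.fresh (Λ.compress_mem ha μ ν) (half_pos hε)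
      obtain ⟨i₀, hi₀⟩ := σ.one
      obtain ⟨j, hj, hjid⟩ := σ.rep i₀ J
      rw [hi₀] at hjid
      have hXm : Λ.Sw μ * Λ.Si j * Λ.Df g ∈ Λ.A :=
        Λ.MA_mul (mul_mem (Λ.Sw_mem_MA μ) (Λ.Si_mem_MA j)) (Λ.Df_mem_A hg0)
      have hYm : Λ.Sw ν * Λ.Si j * Λ.Df g ∈ Λ.A :=
        Λ.MA_mul (mul_mem (Λ.Sw_mem_MA ν) (Λ.Si_mem_MA j)) (Λ.Df_mem_A hg0)
      refine ⟨star (Λ.Sw μ * Λ.Si j * Λ.Df g) * a * (Λ.Sw ν * Λ.Si j * Λ.Df g),
        hI.right _ hYm _ (hI.left _ (Λ.star_mem_A hXm) _ haI), ?_⟩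
      rw [dist_comm, dist_eq_norm]
      have e : star (Λ.Sw μ * Λ.Si j * Λ.Df g) * a * (Λ.Sw ν * Λ.Si j * Λ.Df g)
          - Λ.Df (star g * Λ.E μ ν a * g)
          = star (Λ.Df g) * (star (Λ.Si j) * (star (Λ.Sw μ) * a * Λ.Sw ν) * Λ.Si j
            - Λ.Df (Λ.E μ ν a)) * Λ.Df g := by
        rw [Df_mul, Df_mul, Df_star, star_mul, star_mul]
        simp only [mul_sub, sub_mul, mul_assoc]
      rw [e]
      have hDg : ‖Λ.Df g‖ ≤ 1 := (Λ.norm_Df_le g).trans ((ContinuousMap.norm_le _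
        zero_le_one).2 hgn)
      refine lt_of_le_of_lt (Λ.norm_compress_le _ _ _ ((le_of_eq (norm_star _)).trans hDg)
        hDg) ?_
      refine lt_of_le_of_lt (hJ j hj hjid) (by linarith)
    have h3 := hp _ (by simp [hg0]) key
    simpa [hg1] using h3
  · intro h
    have h1 : ∀ n, Λ.Φ n n a ∈ I := by
      intro n
      unfold Φ
      have hsum : ∀ (s : Finset (List ℕ)) (F : List ℕ → (Λ.H →L[ℂ] Λ.H)),
          (∀ μ, F μ ∈ I) → ∑ μ ∈ s, F μ ∈ I := by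
        intro s F hF
        classical
        induction s using Finset.induction_on with
        | empty => simpa using hI.zero
        | insert a s ha ih =>
          rw [Finset.sum_insert ha]
          exact hI.add _ (hF a) _ ih
      refine hsum _ _ fun μ => hsum _ _ fun ν => ?_
      exact hI.mult (Λ.Tw_mem_MA n n μ) (star_mem (Λ.Tw_mem_MA n n ν)) (Λ.E_pt ha μ ν)
        (hI.Df_mem (h μ ν))
    exact hI.closed.mem_of_tendsto (Λ.tendsto_Φ ha) (Eventually.of_forall h1)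

end PathSpace

end

end Run7.h917
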