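import Pool.Agent.Run7.h917.Rep

/-!
# Irreducibility
-/

open scoped ENNReal ComplexConjugate InnerProductSpace Topology
open Filter ContinuousLinearMap

set_option linter.unusedSectionVars false

namespace Run7.h917

noncomputable section

namespace PathSpace
variable {P : Type} [TopologicalSpace P] {σ : PtSys P} {Λ : PathSpace σ} [CompactSpace P]

/-- an element of `A` fixing `δ x`, whose adjoint kills `δ y` -/
theorem Red.exists_fix {ι : Set Λ.T} (hι : Λ.Red ι) [T2Space P] {x y : ι} {μ : List ℕ} {t : Λ.T}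
    (ht : t ∈ ι) (hx : (x : Λ.T) = Λ.cw μ t) (hr : Λ.r t ≠ σ.pt) (hy : ∀ z, Λ.cw μ z ≠ y) :
    ∃ a : Λ.A, hι.rep a (L2.δ x) = L2.δ x ∧ hι.rep (star a) (L2.δ y) = 0 := by
  obtain ⟨g, hg0, hg1, -, -⟩ := exists_fun (σ := σ) hr isOpen_univ (Set.mem_univ _)
  refine ⟨⟨Λ.mon μ g μ, Λ.mon_mem_A μ hg0 μ⟩, ?_, ?_⟩
  · rw [hι.rep_mon_cw μ hg0 μ ⟨t, ht⟩ hx, hg1, one_smul]
    congr 1
    exact Subtype.ext hx.symm
  · have : star (⟨Λ.mon μ g μ, Λ.mon_mem_A μ hg0 μ⟩ : Λ.A)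
        = ⟨Λ.mon μ (star g) μ, Λ.mon_mem_A μ (by simp [hg0]) μ⟩ :=
      Subtype.ext (Λ.star_mon μ g μ)
    rw [this]
    exact hι.rep_mon_ne μ (by simp [hg0]) μ hy

theorem Red.exists_move {ι : Set Λ.T} (hι : Λ.Red ι) [T2Space P] {x y : ι} {α β : List ℕ}
    {t : Λ.T} (ht : t ∈ ι) (hx : (x : Λ.T) = Λ.cw α t) (hy : (y : Λ.T) = Λ.cw β t)
    (hr : Λ.r t ≠ σ.pt) : ∃ a : Λ.A, hι.rep a (L2.δ x) = L2.δ y := by
  obtain ⟨g, hg0, hg1, -, -⟩ := exists_fun (σ := σ) hr isOpen_univ (Set.mem_univ _)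
  refine ⟨⟨Λ.mon β g α, Λ.mon_mem_A β hg0 α⟩, ?_⟩
  rw [hι.rep_mon_cw β hg0 α ⟨t, ht⟩ hx, hg1, one_smul]
  congr 1
  exact Subtype.ext hy.symm

theorem rep_adjoint {H : Type} [NormedAddCommGroup H] [InnerProductSpace ℂ H] [CompleteSpace H]
    (ρ : Λ.A →⋆ₙₐ[ℂ] (H →L[ℂ] H)) (a : Λ.A) (v w : H) : ⟪v, ρ a w⟫_ℂ = ⟪ρ (star a) v, w⟫_ℂ := by
  rw [map_star, ContinuousLinearMap.star_eq_adjoint, ContinuousLinearMap.adjoint_inner_left]

/-- **Irreducibility criterion.** -/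
theorem Red.isIrreducible {ι : Set Λ.T} (hι : Λ.Red ι) [T2Space P] (hne : ι.Nonempty)
    (hsep : ∀ x y : ι, x ≠ y → ∃ (μ : List ℕ) (t : Λ.T), t ∈ ι ∧ (x : Λ.T) = Λ.cw μ t ∧
      Λ.r t ≠ σ.pt ∧ ∀ z, Λ.cw μ z ≠ y)
    (htr : ∀ x y : ι, ∃ (α β : List ℕ) (t : Λ.T), t ∈ ι ∧ (x : Λ.T) = Λ.cw α t ∧
      (y : Λ.T) = Λ.cw β t ∧ Λ.r t ≠ σ.pt) : IsIrreducible hι.rep := by
  have hmove : ∀ x y : ι, ∃ a : Λ.A, hι.rep a (L2.δ x) = L2.δ y := by
    intro x y
    obtain ⟨α, β, t, ht, hx, hy, hr⟩ := htr x y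
    exact hι.exists_move ht hx hy hr
  refine ⟨?_, fun M hMc hM => ?_⟩
  · obtain ⟨x, hx⟩ := hne
    obtain ⟨a, ha⟩ := hmove ⟨x, hx⟩ ⟨x, hx⟩
    refine ⟨a, fun h => ?_⟩
    rw [h] at ha
    have h1 := L2.norm_δ (⟨x, hx⟩ : ι)
    rw [← ha] at h1
    simp at h1
  · haveI : CompleteSpace M := hMc.completeSpace_coe
    have hMo : ∀ a, ∀ v ∈ Mᗮ, hι.rep a v ∈ Mᗮ := by
      intro a v hv
      rw [Submodule.mem_orthogonal] at hv ⊢
      intro u hu
      rw [rep_adjoint]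
      exact hv _ (hM (star a) u hu)
    have hdich : ∀ x : ι, L2.δ x ∈ M ∨ L2.δ x ∈ Mᗮ := by
      intro x
      obtain ⟨u, hu, v, hv, huv⟩ := M.exists_add_mem_mem_orthogonal (L2.δ x)
      have hzero : ∀ y : ι, y ≠ x → u y = 0 ∧ v y = 0 := by
        intro y hy
        obtain ⟨μ, t, ht, hx, hr, hy'⟩ := hsep x y hy.symm
        obtain ⟨a, ha1, ha2⟩ := hι.exists_fix ht hx hr hy'
        have h1 : hι.rep a u + hι.rep a v = u + v := by
          rw [← map_add, ← huv, ha1]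
        have h2 : hι.rep a u - u = v - hι.rep a v := by
          rw [sub_eq_sub_iff_add_eq_add, h1, add_comm]
        have h3 : hι.rep a u - u ∈ M := M.sub_mem (hM a u hu) hu
        have h4 : hι.rep a u - u ∈ Mᗮ := by
          rw [h2]
          exact Submodule.sub_mem _ hv (hMo a v hv)
        have h5 : hι.rep a u - u = 0 := by
          have := Submodule.inner_right_of_mem_orthogonal h3 h4
          exact inner_self_eq_zero.1 this
        have h6 : hι.rep a u = u := sub_eq_zero.1 h5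
        have h7 : hι.rep a v = v := by
          rw [h5] at h2
          exact (sub_eq_zero.1 h2.symm).symm
        constructor
        · rw [← L2.inner_δ_left, ← h6, rep_adjoint, ha2, inner_zero_left]
        · rw [← L2.inner_δ_left, ← h7, rep_adjoint, ha2, inner_zero_left]
      have hu' : u = u x • L2.δ x := by
        ext y
        rw [lp.coeFn_smul, Pi.smul_apply]
        by_cases hy : y = x
        · subst hy; rw [L2.δ_self, smul_eq_mul, mul_one]
        · rw [L2.δ_ne hy, smul_zero]; exact (hzero y hy).1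
      have hv' : v = v x • L2.δ x := by
        ext y
        rw [lp.coeFn_smul, Pi.smul_apply]
        by_cases hy : y = x
        · subst hy; rw [L2.δ_self, smul_eq_mul, mul_one]
        · rw [L2.δ_ne hy, smul_zero]; exact (hzero y hy).2
      have hin : ⟪u, v⟫_ℂ = 0 := Submodule.inner_right_of_mem_orthogonal hu hv
      rw [hu', inner_smul_left, L2.inner_δ_left] at hin
      rcases mul_eq_zero.1 hin with h | h
      · have h8 : u x = 0 := by simpa using h
        right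
        rw [huv, hu', h8, zero_smul, zero_add]
        exact hv
      · left
        rw [huv, hv', h, zero_smul, add_zero]
        exact hu
    by_cases hex : ∃ x : ι, L2.δ x ∈ M
    · right
      obtain ⟨x, hx⟩ := hex
      have hall : ∀ y : ι, L2.δ y ∈ M := by
        intro y
        obtain ⟨a, ha⟩ := hmove x y
        rw [← ha]
        exact hM a _ hx
      rw [← Submodule.orthogonal_eq_bot_iff, eq_bot_iff]
      intro w hw
      rw [Submodule.mem_bot]
      ext y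
      rw [← L2.inner_δ_left]
      exact Submodule.inner_right_of_mem_orthogonal (hall y) hw
    · left
      push Not at hex
      rw [eq_bot_iff]
      intro w hw
      rw [Submodule.mem_bot]
      ext y
      rw [← L2.inner_δ_left]
      exact Submodule.inner_left_of_mem_orthogonal hw ((hdich y).resolve_left (hex y))

/-! ### tails of a path -/

/-- words along a sequence of letters -/
def iw (i : ℕ → ℕ) (n : ℕ) : ℕ → List ℕ
  | 0 => []
  | m + 1 => iw i n m ++ [i (n + m)]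

theorem length_iw (i : ℕ → ℕ) (n m : ℕ) : (iw i n m).length = m := by
  induction m with
  | zero => rfl
  | succ m ih => rw [iw, List.length_append, ih]; rfl

theorem cw_len {v w : List ℕ} {a b : Λ.T} (h : Λ.cw v a = Λ.cw w b)
    (hl : v.length = w.length) : v = w ∧ a = b := by
  induction v generalizing w with
  | nil =>
    cases w with
    | nil => exact ⟨rfl, h⟩
    | cons j w => simp at hl
  | cons i v ih =>
    cases w with
    | nil => simp at hl
    | cons j w =>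
      obtain ⟨h1, h2⟩ := Λ.c_eq_iff.1 h
      obtain ⟨h3, h4⟩ := ih h2 (by simpa using hl)
      exact ⟨by rw [h1, h3], h4⟩

/-- the set of all paths with the tails of a given path -/
def tails (s : ℕ → Λ.T) : Set Λ.T := {t | ∃ w n, t = Λ.cw w (s n)}

variable {i : ℕ → ℕ} {s : ℕ → Λ.T}

theorem s_eq (hs : ∀ n, s n = Λ.c (i n) (s (n + 1))) (n m : ℕ) :
    s n = Λ.cw (iw i n m) (s (n + m)) := by
  induction m with
  | zero => rfl
  | succ m ih =>
    rw [iw, cw_append, ih, hs (n + m)]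
    rfl

theorem red_tails (hs : ∀ n, s n = Λ.c (i n) (s (n + 1))) : Λ.Red (tails s) := by
  intro j t
  constructor
  · rintro ⟨w, n, h⟩
    cases w with
    | nil =>
      rw [cw_nil, hs n] at h
      exact ⟨[], n + 1, (Λ.c_eq_iff.1 h).2⟩
    | cons k w =>
      exact ⟨w, n, (Λ.c_eq_iff.1 h).2⟩
  · rintro ⟨w, n, rfl⟩
    exact ⟨j :: w, n, rfl⟩

theorem tails_sep (hi : StrictMono i) (hs : ∀ n, s n = Λ.c (i n) (s (n + 1)))
    {x y : Λ.T} (hx : x ∈ tails s) (hy : y ∈ tails s) (hxy : x ≠ y) :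
    ∃ μ n, x = Λ.cw μ (s n) ∧ ∀ z, Λ.cw μ z ≠ y := by
  obtain ⟨α, k, rfl⟩ := hx
  obtain ⟨β, l, rfl⟩ := hy
  refine ⟨α ++ iw i k (β.length + 1), k + (β.length + 1), ?_, ?_⟩
  · rw [cw_append, ← s_eq hs]
  · intro z hz
    have h1 : Λ.cw β (s l)
        = Λ.cw (β ++ iw i l (α.length + 1)) (s (l + (α.length + 1))) := by
      rw [cw_append, ← s_eq hs]
    rw [h1] at hz
    obtain ⟨h2, h3⟩ := cw_len hz (by simp only [List.length_append, length_iw]; omega)
    have h4 : k + β.length = l + α.length := by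
      have h5 := congrArg List.getLast? h2
      rw [iw, iw, ← List.append_assoc, ← List.append_assoc, List.getLast?_concat,
        List.getLast?_concat] at h5
      exact hi.injective (Option.some_injective _ h5)
    apply hxy
    rw [h1, ← h2, show l + (α.length + 1) = k + (β.length + 1) by omega, cw_append, ← s_eq hs]

theorem tails_trans (hs : ∀ n, s n = Λ.c (i n) (s (n + 1)))
    {x y : Λ.T} (hx : x ∈ tails s) (hy : y ∈ tails s) :
    ∃ α β n, x = Λ.cw α (s n) ∧ y = Λ.cw β (s n) := by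
  obtain ⟨α, k, rfl⟩ := hx
  obtain ⟨β, l, rfl⟩ := hy
  refine ⟨α ++ iw i k l, β ++ iw i l k, k + l, ?_, ?_⟩
  · rw [cw_append, ← s_eq hs]
  · rw [cw_append, add_comm k l, ← s_eq hs]

theorem s_mem (n : ℕ) : s n ∈ tails s := ⟨[], n, rfl⟩

/-- the tail representation is irreducible -/
theorem isIrreducible_tails [T2Space P] (hi : StrictMono i)
    (hs : ∀ n, s n = Λ.c (i n) (s (n + 1))) (hpt : ∀ n, Λ.r (s n) ≠ σ.pt) :
    IsIrreducible (red_tails hs).rep := by
  refine (red_tails hs).isIrreducible ⟨_, s_mem 0⟩ ?_ ?_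
  · intro x y hxy
    obtain ⟨μ, n, h1, h2⟩ := tails_sep hi hs x.2 y.2 (fun h => hxy (Subtype.ext h))
    exact ⟨μ, s n, s_mem n, h1, hpt n, h2⟩
  · intro x y
    obtain ⟨α, β, n, h1, h2⟩ := tails_trans hs x.2 y.2
    exact ⟨α, β, s n, s_mem n, h1, h2, hpt n⟩

/-! ### kernels -/

/-- the kernel as a set of operators -/
def kerSet {H : Type} [NormedAddCommGroup H] [InnerProductSpace ℂ H] [CompleteSpace H]
    (ρ : Λ.A →⋆ₙₐ[ℂ] (H →L[ℂ] H)) : Set (Λ.H →L[ℂ] Λ.H) := Subtype.val '' {a | ρ a = 0}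

open scoped CStarAlgebra in
theorem isIdl_kerSet {H : Type} [NormedAddCommGroup H] [InnerProductSpace ℂ H] [CompleteSpace H]
    (ρ : Λ.A →⋆ₙₐ[ℂ] (H →L[ℂ] H)) : Λ.IsIdl (kerSet ρ) where
  sub := by rintro _ ⟨a, _, rfl⟩; exact a.2
  zero := ⟨0, map_zero ρ, rfl⟩
  add := by
    rintro _ ⟨a, ha, rfl⟩ _ ⟨b, hb, rfl⟩
    refine ⟨a + b, ?_, rfl⟩
    simp only [Set.mem_ofPred_eq] at ha hb ⊢
    rw [map_add, ha, hb, add_zero]
  smul := by
    rintro c _ ⟨a, ha, rfl⟩
    refine ⟨c • a, ?_, rfl⟩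
    simp only [Set.mem_ofPred_eq] at ha ⊢
    rw [map_smul, ha, smul_zero]
  closed := by
    have hc : Continuous ρ := map_continuous ρ
    have h1 : IsClosed {a : Λ.A | ρ a = 0} := isClosed_eq hc continuous_const
    have h2 : Topology.IsClosedEmbedding (Subtype.val : Λ.A → (Λ.H →L[ℂ] Λ.H)) :=
      IsClosed.isClosedEmbedding_subtypeVal Λ.isClosed_A
    exact h2.isClosedMap _ h1
  left := by
    rintro a ha _ ⟨b, hb, rfl⟩
    refine ⟨⟨a, ha⟩ * b, ?_, rfl⟩
    simp only [Set.mem_ofPred_eq] at hb ⊢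
    rw [map_mul, hb, mul_zero]
  right := by
    rintro a ha _ ⟨b, hb, rfl⟩
    refine ⟨b * ⟨a, ha⟩, ?_, rfl⟩
    simp only [Set.mem_ofPred_eq] at hb ⊢
    rw [map_mul, hb, zero_mul]

theorem Df_mem_kerSet_rep {ι : Set Λ.T} (hι : Λ.Red ι) {f : C(P, ℂ)} (hf : f σ.pt = 0) :
    Λ.Df f ∈ kerSet hι.rep ↔ ∀ x ∈ ι, f (Λ.r x) = 0 := by
  have hm : Λ.Df f ∈ Λ.A := Λ.Df_mem_A hf
  have key : ∀ x : ι, hι.rep ⟨Λ.Df f, hm⟩ (L2.δ x) = f (Λ.r x) • L2.δ x := by
    intro x
    rw [hι.rep_apply, VV_δ, Df_δ, map_smul, ← VV_δ, adj_VV_VV]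
  constructor
  · rintro ⟨a, ha, ha'⟩ x hx
    have hae : a = ⟨Λ.Df f, hm⟩ := Subtype.ext ha'
    subst hae
    have h1 := key ⟨x, hx⟩
    simp only [Set.mem_ofPred_eq] at ha
    rw [ha] at h1
    have h2 := congrArg (fun ξ : L2 ι => ξ ⟨x, hx⟩) h1
    simp only [zero_apply, lp.coeFn_smul, Pi.smul_apply, L2.δ_self, smul_eq_mul, mul_one] at h2
    simpa using h2.symm
  · intro h
    refine ⟨⟨Λ.Df f, hm⟩, ?_, rfl⟩
    simp only [Set.mem_ofPred_eq]
    refine L2.ext_δ fun x => ?_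
    rw [key, h x x.2, zero_smul]
    rfl

theorem FI_rep_tails [T2Space P] {F : Set P} (hF : σ.IsInv F) (hs : ∀ n, s n = Λ.c (i n) (s (n + 1)))
    (hsF : ∀ n, Λ.r (s n) ∈ F)
    (hd : ∀ W, IsOpen W → σ.pt ∉ W → (W ∩ F).Nonempty → ∃ n j, σ.θ j (Λ.r (s n)) ∈ W) :
    Λ.FI (kerSet (red_tails hs).rep) = F := by
  have hwF : ∀ w, ∀ p ∈ F, σ.θw w p ∈ F := by
    intro w p hp
    obtain ⟨j, hj⟩ := σ.θw_eq_letter w
    rw [hj]; exact hF.inv j p hp
  have h1 : ∀ f : C(P, ℂ), f σ.pt = 0 →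
      (Λ.Df f ∈ kerSet (red_tails hs).rep ↔ ∀ p ∈ F, f p = 0) := by
    intro f hf
    rw [Df_mem_kerSet_rep _ hf]
    constructor
    · intro h p hp
      by_contra hne
      have hW : IsOpen {q | f q ≠ 0} := isOpen_ne_fun f.continuous continuous_const
      obtain ⟨n, j, hj⟩ := hd _ hW (by simpa using hf) ⟨p, hne, hp⟩
      apply hj
      have := h (Λ.cw [j] (s n)) ⟨[j], n, rfl⟩
      rw [r_cw] at this
      simpa using this
    · rintro h x ⟨w, n, rfl⟩
      rw [r_cw]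
      exact h _ (hwF w _ (hsF n))
  ext p
  constructor
  · intro hp
    by_contra hpF
    have hpt : p ≠ σ.pt := fun h => hpF (h ▸ hF.pt)
    obtain ⟨g, hg0, hg1, hgU, -⟩ := exists_fun (σ := σ) hpt hF.closed.isOpen_compl hpF
    have h2 : Λ.Df g ∈ kerSet (red_tails hs).rep :=
      (h1 g hg0).2 fun q hq => hgU q (by simpa using hq)
    have := hp g hg0 h2
    rw [hg1] at this
    exact one_ne_zero this
  · intro hp f hf hfI
    exact (h1 f hf).1 hfI p hp

end PathSpace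

end

end Run7.h917
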