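import Mathlib

/-!
# Piece O4a: partition lemma
-/

namespace Run7.h917

theorem exists_partition_aux {P E : Type*} [TopologicalSpace P] [CompactSpace P] (pt : P)
    [NormedAddCommGroup E] [NormedSpace ℝ E] (F : C(P, E)) (h0 : F pt = 0) {δ : ℝ} (hδ : 0 < δ) :
    ∃ (s : Finset P) (g : P → C(P, ℝ)), (∀ p ∈ s, g p pt = 0) ∧
      (∀ x, ∑ p ∈ s, (g p x) ^ 2 ≤ 1) ∧
      ∀ x, ‖F x - ∑ p ∈ s, (g p x) ^ 2 • F p‖ ≤ δ := by
  obtain ⟨s, -, hs⟩ := isCompact_univ.elim_finite_subcover_image (b := (Set.univ : Set P))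
    (c := fun p => {x | ‖F x - F p‖ < δ / 2})
    (fun p _ => isOpen_lt (by fun_prop) continuous_const)
    (fun x _ => Set.mem_biUnion (Set.mem_univ x) (by simpa using half_pos hδ))
  obtain ⟨hsf, hs⟩ := hs
  set t : Finset P := hsf.toFinset with ht
  set ψ : P → C(P, ℝ) := fun p => ⟨fun x => max 0 (δ / 2 - ‖F x - F p‖), by fun_prop⟩ with hψ
  have hψ0 : ∀ p x, 0 ≤ ψ p x := fun p x => le_max_left _ _
  have hψlt : ∀ p x, 0 < ψ p x → ‖F x - F p‖ < δ / 2 := by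
    intro p x h
    by_contra hcon
    push Not at hcon
    have : ψ p x = 0 := max_eq_left (by linarith)
    rw [this] at h
    exact lt_irrefl _ h
  set Sm : P → ℝ := fun x => ∑ p ∈ t, ψ p x with hSm
  have hSm0 : ∀ x, 0 < Sm x := by
    intro x
    obtain ⟨p, hp, hxp⟩ := Set.mem_iUnion₂.1 (hs (Set.mem_univ x))
    refine Finset.sum_pos' (fun p _ => hψ0 p x) ⟨p, hsf.mem_toFinset.2 hp, ?_⟩
    refine lt_max_of_lt_right ?_
    have : ‖F x - F p‖ < δ / 2 := hxp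
    linarith
  have hSmc : Continuous Sm := by
    refine continuous_finsetSum _ fun p _ => (ψ p).continuous
  set χ : C(P, ℝ) := ⟨fun x => min 1 (‖F x‖ / (δ / 2)), by fun_prop⟩ with hχ
  have hχ0 : ∀ x, 0 ≤ χ x := fun x => le_min zero_le_one (by positivity)
  have hχ1 : ∀ x, χ x ≤ 1 := fun x => min_le_left _ _
  have hχpt : χ pt = 0 := by
    change min 1 (‖F pt‖ / (δ / 2)) = 0
    rw [h0]; simp
  set g : P → C(P, ℝ) := fun p => ⟨fun x => Real.sqrt (ψ p x / Sm x * χ x), by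
    refine Real.continuous_sqrt.comp ?_
    exact (((ψ p).continuous.div hSmc fun x => (hSm0 x).ne').mul χ.continuous)⟩ with hg
  have hg2 : ∀ p x, (g p x) ^ 2 = ψ p x / Sm x * χ x := by
    intro p x
    exact Real.sq_sqrt (mul_nonneg (div_nonneg (hψ0 p x) (hSm0 x).le) (hχ0 x))
  have hsum : ∀ x, ∑ p ∈ t, ψ p x / Sm x = 1 := by
    intro x
    rw [← Finset.sum_div]
    exact div_self (hSm0 x).ne'
  refine ⟨t, g, ?_, ?_, ?_⟩
  · intro p _
    change Real.sqrt (ψ p pt / Sm pt * χ pt) = 0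
    rw [hχpt, mul_zero, Real.sqrt_zero]
  · intro x
    simp only [hg2, ← Finset.sum_mul, hsum, one_mul]
    exact hχ1 x
  · intro x
    have e : F x - ∑ p ∈ t, (g p x) ^ 2 • F p
        = (1 - χ x) • F x + χ x • ∑ p ∈ t, (ψ p x / Sm x) • (F x - F p) := by
      simp only [hg2, smul_sub, Finset.sum_sub_distrib, ← Finset.sum_smul, hsum, one_smul,
        Finset.smul_sum, sub_smul, mul_smul]
      have : ∀ p, (ψ p x / Sm x) • χ x • F p = χ x • (ψ p x / Sm x) • F p :=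
        fun p => smul_comm _ _ _
      simp only [this]
      abel
    rw [e]
    have h1 : ‖(1 - χ x) • F x‖ ≤ δ / 2 := by
      rw [norm_smul, Real.norm_of_nonneg (by linarith [hχ1 x])]
      by_cases hx : δ / 2 ≤ ‖F x‖
      · have : χ x = 1 := min_eq_left (by rwa [le_div_iff₀ (by positivity), one_mul])
        rw [this]; simp; positivity
      · push Not at hx
        have := hχ0 x
        calc (1 - χ x) * ‖F x‖ ≤ 1 * ‖F x‖ := by gcongr; linarith
          _ ≤ δ / 2 := by rw [one_mul]; exact hx.le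
    have h2 : ‖χ x • ∑ p ∈ t, (ψ p x / Sm x) • (F x - F p)‖ ≤ δ / 2 := by
      rw [norm_smul, Real.norm_of_nonneg (hχ0 x)]
      have h3 : ‖∑ p ∈ t, (ψ p x / Sm x) • (F x - F p)‖ ≤ δ / 2 := by
        refine (norm_sum_le _ _).trans ?_
        calc ∑ p ∈ t, ‖(ψ p x / Sm x) • (F x - F p)‖
            ≤ ∑ p ∈ t, (ψ p x / Sm x) * (δ / 2) := by
              refine Finset.sum_le_sum fun p _ => ?_
              rw [norm_smul, Real.norm_of_nonneg (div_nonneg (hψ0 p x) (hSm0 x).le)]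
              rcases (hψ0 p x).eq_or_lt with h | h
              · rw [← h]; simp
              · exact mul_le_mul_of_nonneg_left (hψlt p x h).le
                  (div_nonneg (hψ0 p x) (hSm0 x).le)
          _ = δ / 2 := by rw [← Finset.sum_mul, hsum, one_mul]
      calc χ x * ‖∑ p ∈ t, (ψ p x / Sm x) • (F x - F p)‖ ≤ 1 * (δ / 2) := by
            refine mul_le_mul (hχ1 x) h3 (norm_nonneg _) zero_le_one
        _ = δ / 2 := one_mul _
    calc _ ≤ _ := norm_add_le _ _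
      _ ≤ δ / 2 + δ / 2 := add_le_add h1 h2
      _ = δ := by ring

theorem exists_partition {P : Type} [TopologicalSpace P] [CompactSpace P] (pt : P)
    (𝔽 : Finset C(P, ℂ)) (h0 : ∀ f ∈ 𝔽, f pt = 0) {δ : ℝ} (hδ : 0 < δ) :
    ∃ (s : Finset P) (g : P → C(P, ℝ)), (∀ p ∈ s, g p pt = 0) ∧
      (∀ x, ∑ p ∈ s, (g p x) ^ 2 ≤ 1) ∧
      ∀ f ∈ 𝔽, ∀ x, ‖f x - ∑ p ∈ s, f p * (((g p x) ^ 2 : ℝ) : ℂ)‖ ≤ δ := by
  obtain ⟨s, g, h1, h2, h3⟩ := exists_partition_aux pt
    (E := 𝔽 → ℂ) ⟨fun x f => f.1 x, by fun_prop⟩ (by ext f; exact h0 f.1 f.2) hδ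
  refine ⟨s, g, h1, h2, fun f hf x => ?_⟩
  have h4 := (norm_le_pi_norm _ (⟨f, hf⟩ : 𝔽)).trans (h3 x)
  simp only [ContinuousMap.coe_mk, Pi.sub_apply, Finset.sum_apply, Pi.smul_apply,
    Complex.real_smul] at h4
  simpa only [mul_comm] using h4

end Run7.h917
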