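import Pool.Agent.Run7.h917.Conv
import Pool.Agent.Run7.h917.CP
import Pool.Agent.Run7.h917.Part

/-!
# Nuclearity of `A`
-/

open scoped ENNReal ComplexConjugate InnerProductSpace Topology CStarAlgebra ComplexOrder
open Filter ContinuousLinearMap

set_option linter.unusedSectionVars false

namespace Run7.h917

noncomputable section

theorem norm_sum_sandwich_le {H ι : Type*} [NormedAddCommGroup H] [InnerProductSpace ℂ H]
    [CompleteSpace H] (s : Finset ι) (T : ι → H →L[ℂ] H) (D : H →L[ℂ] H)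
    (hT : ∑ μ ∈ s, T μ * star (T μ) = 1) (hD : ‖D‖ ≤ 1) :
    ‖∑ μ ∈ s, T μ * D * star (T μ)‖ ≤ 1 := by
  set B : H →L[ℂ] H := ∑ μ ∈ s, T μ * D * star (T μ) with hB
  have hsq : ∀ ξ : H, ∑ μ ∈ s, ‖star (T μ) ξ‖ ^ 2 = ‖ξ‖ ^ 2 := by
    intro ξ
    have h1 : ((∑ μ ∈ s, ‖star (T μ) ξ‖ ^ 2 : ℝ) : ℂ) = ((‖ξ‖ ^ 2 : ℝ) : ℂ) := by
      have h2 : ⟪ξ, (∑ μ ∈ s, T μ * star (T μ)) ξ⟫_ℂ = ((‖ξ‖ ^ 2 : ℝ) : ℂ) := by
        rw [hT, one_apply_eq_self, inner_self_eq_norm_sq_to_K]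
        push_cast; rfl
      rw [← h2, sum_apply, inner_sum, Complex.ofReal_sum]
      refine Finset.sum_congr rfl fun μ _ => ?_
      rw [mul_apply_eq_comp, ← ContinuousLinearMap.adjoint_inner_left,
        ← ContinuousLinearMap.star_eq_adjoint, inner_self_eq_norm_sq_to_K]
      push_cast
      rfl
    exact_mod_cast h1
  refine ContinuousLinearMap.opNorm_le_bound _ zero_le_one fun ξ => ?_
  rw [one_mul]
  have h3 : ‖B ξ‖ ^ 2 ≤ ∑ μ ∈ s, ‖star (T μ) ξ‖ * ‖star (T μ) (B ξ)‖ := by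
    have h4 : ‖B ξ‖ ^ 2 = ‖⟪B ξ, B ξ⟫_ℂ‖ := by
      rw [inner_self_eq_norm_sq_to_K]
      simp
    have h5' : ∀ η : H, ⟪η, B ξ⟫_ℂ = ∑ μ ∈ s, ⟪star (T μ) η, D (star (T μ) ξ)⟫_ℂ := by
      intro η
      rw [hB, sum_apply, inner_sum]
      refine Finset.sum_congr rfl fun μ _ => ?_
      rw [mul_apply_eq_comp, mul_apply_eq_comp, ← ContinuousLinearMap.adjoint_inner_left,
        ← ContinuousLinearMap.star_eq_adjoint]
    have h5 := h5' (B ξ)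
    rw [h4, h5]
    refine (norm_sum_le _ _).trans (Finset.sum_le_sum fun μ _ => ?_)
    refine (norm_inner_le_norm _ _).trans ?_
    rw [mul_comm]
    refine mul_le_mul_of_nonneg_right ?_ (norm_nonneg _)
    calc ‖D (star (T μ) ξ)‖ ≤ ‖D‖ * ‖star (T μ) ξ‖ := D.le_opNorm _
      _ ≤ 1 * ‖star (T μ) ξ‖ := by gcongr
      _ = _ := one_mul _
  have h6 := Finset.sum_mul_sq_le_sq_mul_sq s (fun μ => ‖star (T μ) ξ‖)
    (fun μ => ‖star (T μ) (B ξ)‖)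
  rw [hsq, hsq] at h6
  have h7 : (‖B ξ‖ ^ 2) ^ 2 ≤ ‖ξ‖ ^ 2 * ‖B ξ‖ ^ 2 := by
    refine le_trans ?_ h6
    gcongr
  rcases (norm_nonneg (B ξ)).eq_or_lt with h | h
  · rw [← h]; exact norm_nonneg _
  · rw [← sq_le_sq₀ (norm_nonneg _) (norm_nonneg _)]
    have h8 : 0 < ‖B ξ‖ ^ 2 := by positivity
    nlinarith

namespace PathSpace
variable {P : Type} [TopologicalSpace P] {σ : PtSys P} (Λ : PathSpace σ) [CompactSpace P]

/-- coefficients between different roots vanish -/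
theorem coef_ne {a : Λ.H →L[ℂ] Λ.H} (ha : a ∈ Λ.A) (μ ν : List ℕ) {p q : P} (hpq : p ≠ q) :
    (a (L2.δ (Λ.cw ν (Λ.root q)))) (Λ.cw μ (Λ.root p)) = 0 := by
  let L : (Λ.H →L[ℂ] Λ.H) →L[ℂ] ℂ :=
    (innerSL ℂ (L2.δ (Λ.cw μ (Λ.root p)) : Λ.H)) ∘L
      (ContinuousLinearMap.apply ℂ Λ.H (L2.δ (Λ.cw ν (Λ.root q)) : Λ.H))
  have hL : ∀ b, L b = (b (L2.δ (Λ.cw ν (Λ.root q)))) (Λ.cw μ (Λ.root p)) := by
    intro b
    rw [← L2.inner_δ_left]
    rfl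
  have h1 : L a ∈ (⊥ : Submodule ℂ ℂ) := by
    refine Λ.map_mem_of_mon L ⊥ (by rw [Submodule.bot_coe]; exact isClosed_singleton) ?_ ha
    intro α f β hf
    rw [Submodule.mem_bot, hL, mon, mul_apply_eq_comp, mul_apply_eq_comp]
    rcases Λ.star_Sw_mul_Sw_cases β ν with ⟨w, h1, h2⟩ | ⟨w, h1, h2⟩ | ⟨-, -, h3⟩
    · subst h1
      rw [cw_append]
      have h1 : star (Λ.Sw β) (L2.δ (Λ.cw β (Λ.cw w (Λ.root q)))) = L2.δ (Λ.cw w (Λ.root q)) :=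
        L2.star_S_δ _ _
      have h2 : Λ.Sw α (L2.δ (Λ.cw w (Λ.root q))) = L2.δ (Λ.cw α (Λ.cw w (Λ.root q))) :=
        L2.S_δ _ _
      rw [h1, Df_δ, map_smul, h2, lp.coeFn_smul, Pi.smul_apply, ← cw_append, L2.δ_ne, smul_zero]
      intro h3
      exact hpq (Λ.cw_root_inj h3).2
    · have h4 : L2.δ (Λ.cw ν (Λ.root q)) = Λ.Sw ν (L2.δ (Λ.root q)) := (L2.S_δ _ _).symm
      rw [h4, ← mul_apply_eq_comp (star (Λ.Sw β)), h2]
      by_cases hw : w = []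
      · subst hw
        rw [star_Sw_nil_apply, Df_δ, map_smul]
        have h5 : Λ.Sw α (L2.δ (Λ.root q)) = L2.δ (Λ.cw α (Λ.root q)) := L2.S_δ _ _
        rw [h5, lp.coeFn_smul, Pi.smul_apply, L2.δ_ne, smul_zero]
        intro h3
        exact hpq (Λ.cw_root_inj h3).2
      · rw [Λ.star_Sw_δ_root hw, map_zero, map_zero]
        rfl
    · have h4 : L2.δ (Λ.cw ν (Λ.root q)) = Λ.Sw ν (L2.δ (Λ.root q)) := (L2.S_δ _ _).symm
      rw [h4, ← mul_apply_eq_comp (star (Λ.Sw β)), h3]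
      simp
  rw [Submodule.mem_bot, hL] at h1
  exact h1

theorem coef_eq {a : Λ.H →L[ℂ] Λ.H} (ha : a ∈ Λ.A) (μ ν : List ℕ) (p : P) :
    (a (L2.δ (Λ.cw ν (Λ.root p)))) (Λ.cw μ (Λ.root p)) = Λ.E μ ν a p :=
  (Λ.E_apply ha μ ν p).symm

/-- real functions as complex functions -/
def toC (g : C(P, ℝ)) : C(P, ℂ) := ⟨fun x => ((g x : ℝ) : ℂ), by fun_prop⟩

theorem toC_apply (g : C(P, ℝ)) (x : P) : toC g x = ((g x : ℝ) : ℂ) := rfl

theorem star_toC (g : C(P, ℝ)) : star (toC g) = toC g := by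
  ext x
  simp [toC_apply]

/-- the inclusion -/
def incl : Λ.A →⋆ₙₐ[ℂ] (Λ.H →L[ℂ] Λ.H) := NonUnitalStarSubalgebraClass.subtype Λ.A

theorem incl_apply (a : Λ.A) : Λ.incl a = (a : Λ.H →L[ℂ] Λ.H) := rfl

theorem norm_sum_Df_sq_le {N κ : ℕ} (hN : 0 < N) (s : Finset P) (g : P → C(P, ℝ))
    (hg : ∀ x, ∑ p ∈ s, (g p x) ^ 2 ≤ 1) :
    ‖∑ x ∈ s ×ˢ Ω κ N, (Λ.Tw N κ x.2 * Λ.Df (toC (g x.1))) *
      star (Λ.Tw N κ x.2 * Λ.Df (toC (g x.1)))‖ ≤ 1 := by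
  have e : ∑ x ∈ s ×ˢ Ω κ N, (Λ.Tw N κ x.2 * Λ.Df (toC (g x.1))) *
      star (Λ.Tw N κ x.2 * Λ.Df (toC (g x.1)))
      = ∑ μ ∈ Ω κ N, Λ.Tw N κ μ * Λ.Df (∑ p ∈ s, toC (g p) * toC (g p)) *
        star (Λ.Tw N κ μ) := by
    rw [Finset.sum_product_right]
    refine Finset.sum_congr rfl fun μ _ => ?_
    have h1 : Λ.Df (∑ p ∈ s, toC (g p) * toC (g p))
        = ∑ p ∈ s, Λ.Df (toC (g p)) * Λ.Df (toC (g p)) := by
      rw [← DfL_apply, map_sum]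
      refine Finset.sum_congr rfl fun p _ => ?_
      rw [DfL_apply, Df_mul]
    rw [h1, Finset.mul_sum, Finset.sum_mul]
    refine Finset.sum_congr rfl fun p _ => ?_
    rw [star_mul, ← Df_star, star_toC]
    simp only [mul_assoc]
  rw [e]
  refine norm_sum_sandwich_le _ _ _ (Λ.sum_Tw_mul_star hN κ) ?_
  refine (Λ.norm_Df_le _).trans ?_
  rw [ContinuousMap.norm_le _ zero_le_one]
  intro x
  rw [ContinuousMap.sum_apply]
  have h2 : ∑ p ∈ s, (toC (g p) * toC (g p)) x = ((∑ p ∈ s, (g p x) ^ 2 : ℝ) : ℂ) := by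
    rw [Complex.ofReal_sum]
    refine Finset.sum_congr rfl fun p _ => ?_
    rw [ContinuousMap.mul_apply, toC_apply, sq, Complex.ofReal_mul]
  rw [h2, Complex.norm_real, Real.norm_of_nonneg (Finset.sum_nonneg fun p _ => sq_nonneg _)]
  exact hg x

/-- **Nuclearity.** -/
theorem isNuclear [T2Space P] [PartialOrder Λ.A] [StarOrderedRing Λ.A] : IsNuclear Λ.A := by
  classical
  intro F ε hε
  -- choose `N`
  have hev : ∀ᶠ n : ℕ in atTop, ∀ a ∈ F,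
      ‖Λ.Φ n n (a : Λ.H →L[ℂ] Λ.H) - (a : Λ.H →L[ℂ] Λ.H)‖ < ε / 2 := by
    rw [eventually_all_finset]
    intro a _
    have := Metric.tendsto_nhds.1 (Λ.tendsto_Φ a.2) (ε / 2) (by positivity)
    simpa only [dist_eq_norm] using this
  obtain ⟨N, hN0, hN⟩ := ((eventually_gt_atTop 0).and hev).exists
  set ω : Finset (List ℕ) := Ω N N with hω
  set K : ℝ := (ω.card : ℝ) * ω.card + 1 with hK
  have hK0 : 0 < K := by positivity
  set δ : ℝ := ε / (2 * K) with hδ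
  have hδ0 : 0 < δ := by positivity
  set 𝔽 : Finset C(P, ℂ) := (F ×ˢ (ω ×ˢ ω)).image
    (fun x => Λ.E x.2.1 x.2.2 (x.1 : Λ.H →L[ℂ] Λ.H)) with h𝔽
  obtain ⟨s, g, hg1, hg2, hg3⟩ := exists_partition σ.pt 𝔽 (by
    intro f hf
    rw [h𝔽, Finset.mem_image] at hf
    obtain ⟨x, -, rfl⟩ := hf
    exact Λ.E_pt x.1.2 _ _) hδ0
  -- the index set
  set S : Finset (P × List ℕ) := s ×ˢ ω with hS
  set m : ℕ := S.card with hm
  let e : Fin m ≃ S := S.equivFin.symm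
  let v : Fin m → Λ.H := fun k => L2.δ (Λ.cw (e k).1.2 (Λ.root (e k).1.1))
  have hv : Orthonormal ℂ v := by
    rw [orthonormal_iff_ite]
    intro k l
    rw [L2.inner_δ_left, L2.δ_apply]
    by_cases h : k = l
    · subst h; simp
    · rw [if_neg h, if_neg]
      intro h2
      obtain ⟨h3, h4⟩ := Λ.cw_root_inj h2
      exact h (e.injective (Subtype.ext (Prod.ext h4 h3)))
  obtain ⟨φ, hφ1, hφ2⟩ := exists_compression Λ.incl hv
  have hmemA : ∀ x ∈ S, Λ.Tw N N x.2 * Λ.Df (toC (g x.1)) ∈ Λ.A := by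
    intro x hx
    refine Λ.MA_mul (Λ.Tw_mem_MA N N x.2) (Λ.Df_mem_A ?_)
    rw [toC_apply, hg1 x.1 (Finset.mem_product.1 hx).1, Complex.ofReal_zero]
  let r : Fin m → Λ.A := fun k => ⟨_, hmemA (e k).1 (e k).2⟩
  have hr : ‖∑ k, r k * star (r k)‖ ≤ 1 := by
    have h1 : ((∑ k, r k * star (r k) : Λ.A) : Λ.H →L[ℂ] Λ.H)
        = ∑ x ∈ S, (Λ.Tw N N x.2 * Λ.Df (toC (g x.1))) *
          star (Λ.Tw N N x.2 * Λ.Df (toC (g x.1))) := by
      rw [← incl_apply, map_sum]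
      rw [← Finset.sum_coe_sort S, ← Equiv.sum_comp e]
      rfl
    change ‖((∑ k, r k * star (r k) : Λ.A) : Λ.H →L[ℂ] Λ.H)‖ ≤ 1
    rw [h1]
    exact Λ.norm_sum_Df_sq_le hN0 s g hg2
  obtain ⟨ψ, hψ1, hψ2⟩ := exists_mapBack r hr
  refine ⟨m, φ, ψ, hφ2, hψ2, fun a ha => ?_⟩
  -- the composition
  have key : ((ψ (φ a) : Λ.A) : Λ.H →L[ℂ] Λ.H) = ∑ μ ∈ ω, ∑ ν ∈ ω,
      Λ.Tw N N μ * Λ.Df (∑ p ∈ s, (Λ.E μ ν (a : Λ.H →L[ℂ] Λ.H) p) • (toC (g p) * toC (g p))) *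
        star (Λ.Tw N N ν) := by
    let G : P × List ℕ → P × List ℕ → (Λ.H →L[ℂ] Λ.H) := fun x y =>
      (((a : Λ.H →L[ℂ] Λ.H) (L2.δ (Λ.cw y.2 (Λ.root y.1)))) (Λ.cw x.2 (Λ.root x.1))) •
        ((Λ.Tw N N x.2 * Λ.Df (toC (g x.1))) * star (Λ.Tw N N y.2 * Λ.Df (toC (g y.1))))
    have h1 : ((ψ (φ a) : Λ.A) : Λ.H →L[ℂ] Λ.H) = ∑ x ∈ S, ∑ y ∈ S, G x y := by
      rw [hψ1, ← incl_apply, map_sum]
      rw [← Finset.sum_coe_sort S, ← Equiv.sum_comp e]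
      refine Finset.sum_congr rfl fun k _ => ?_
      rw [map_sum, ← Finset.sum_coe_sort S, ← Equiv.sum_comp e]
      refine Finset.sum_congr rfl fun l _ => ?_
      rw [hφ1, map_smul, L2.inner_δ_left]
      rfl
    rw [h1, hS, Finset.sum_product]
    have h2 : ∀ p ∈ s, ∀ μ ∈ ω, ∑ y ∈ s ×ˢ ω, G (p, μ) y
        = ∑ ν ∈ ω, (Λ.E μ ν (a : Λ.H →L[ℂ] Λ.H) p) •
          (Λ.Tw N N μ * Λ.Df (toC (g p) * toC (g p)) * star (Λ.Tw N N ν)) := by
      intro p hp μ _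
      rw [Finset.sum_product, Finset.sum_eq_single p]
      · refine Finset.sum_congr rfl fun ν _ => ?_
        simp only [G]
        rw [Λ.coef_eq a.2, star_mul, ← Df_star, star_toC, Df_mul]
        simp only [mul_assoc]
      · intro q _ hq
        refine Finset.sum_eq_zero fun ν _ => ?_
        simp only [G]
        rw [Λ.coef_ne a.2 μ ν hq.symm, zero_smul]
      · intro h; exact absurd hp h
    rw [Finset.sum_congr rfl fun p hp => Finset.sum_congr rfl fun μ hμ => h2 p hp μ hμ]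
    rw [Finset.sum_comm]
    refine Finset.sum_congr rfl fun μ _ => ?_
    rw [Finset.sum_comm]
    refine Finset.sum_congr rfl fun ν _ => ?_
    rw [← DfL_apply, map_sum, Finset.mul_sum, Finset.sum_mul]
    refine Finset.sum_congr rfl fun p _ => ?_
    rw [map_smul, DfL_apply, mul_smul_comm, smul_mul_assoc]
  have hdiff : ‖((ψ (φ a) : Λ.A) : Λ.H →L[ℂ] Λ.H) - Λ.Φ N N (a : Λ.H →L[ℂ] Λ.H)‖ ≤ ε / 2 := by
    rw [key, Φ, ← hω]
    simp only [← Finset.sum_sub_distrib]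
    calc _ ≤ ∑ μ ∈ ω, ∑ ν ∈ ω, δ := by
          refine (norm_sum_le _ _).trans (Finset.sum_le_sum fun μ hμ => ?_)
          refine (norm_sum_le _ _).trans (Finset.sum_le_sum fun ν hν => ?_)
          rw [← sub_mul, ← mul_sub, ← Df_sub]
          refine (Λ.norm_compress_le _ _ _ (Λ.norm_Tw_le _ _ _) ?_).trans ?_
          · exact (le_of_eq (norm_star _)).trans (Λ.norm_Tw_le _ _ _)
          · refine (Λ.norm_Df_le _).trans ?_
            rw [ContinuousMap.norm_le _ hδ0.le]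
            intro x
            have hmem : Λ.E μ ν (a : Λ.H →L[ℂ] Λ.H) ∈ 𝔽 := by
              rw [h𝔽, Finset.mem_image]
              exact ⟨(a, (μ, ν)), Finset.mem_product.2 ⟨ha, Finset.mem_product.2 ⟨hμ, hν⟩⟩, rfl⟩
            have h5 := hg3 _ hmem x
            rw [ContinuousMap.sub_apply, norm_sub_rev, ContinuousMap.sum_apply]
            have h6 : ∑ p ∈ s, ((Λ.E μ ν (a : Λ.H →L[ℂ] Λ.H) p) • (toC (g p) * toC (g p))) x
                = ∑ p ∈ s, Λ.E μ ν (a : Λ.H →L[ℂ] Λ.H) p * (((g p x) ^ 2 : ℝ) : ℂ) := by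
              refine Finset.sum_congr rfl fun p _ => ?_
              rw [ContinuousMap.smul_apply, ContinuousMap.mul_apply, toC_apply, smul_eq_mul]
              push_cast
              ring
            rw [h6]
            exact h5
      _ = ((ω.card : ℝ) * ω.card) * δ := by
          simp only [Finset.sum_const, nsmul_eq_mul]
          ring
      _ ≤ K * δ := by
          gcongr
          rw [hK]; linarith
      _ = ε / 2 := by rw [hδ]; field_simp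
  change ‖((ψ (φ a) : Λ.A) : Λ.H →L[ℂ] Λ.H) - (a : Λ.H →L[ℂ] Λ.H)‖ < ε
  calc _ = ‖(((ψ (φ a) : Λ.A) : Λ.H →L[ℂ] Λ.H) - Λ.Φ N N (a : Λ.H →L[ℂ] Λ.H)) +
        (Λ.Φ N N (a : Λ.H →L[ℂ] Λ.H) - (a : Λ.H →L[ℂ] Λ.H))‖ := by rw [sub_add_sub_cancel]
    _ ≤ _ := norm_add_le _ _
    _ < ε / 2 + ε / 2 := add_lt_add_of_le_of_lt hdiff (hN a ha)
    _ = ε := by ring

end PathSpace

end

end Run7.h917
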