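import Pool.Agent.Run7.h917.Sys

/-!
# MP_6e5c74_an: paper proof (for the referee)

THEOREM.  Let `X` be a second countable, locally compact, sober, `T0` space.  Then there is a
separable nuclear C*-algebra `A` with `Prim(A)` homeomorphic to `X`.

Conventions: compact = quasi-compact.  `h : X → [0,1]` is a *Dini function* if `{h > s}` is open for
all `s`, and for all `0 < s < t` there is a compact `C` with `{h > t} ⊆ C ⊆ {h > s}`.

## PART I (topology)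

### 1. Dini functions

(1.0) `0` is Dini; if `g, h` are Dini and `0 ≤ a ≤ 1` then `max(g,h)`, `min(h,a)`, `a h` are Dini
(immediate; `max(g,h)`: use the union of the two compact sets).

(1.1) Urysohn.  If `C` is compact, `U` open, `C ⊆ U`, there is a Dini function `h` with `h = 1` on `C`
and `h = 0` off `U`.  Proof.  Choose by local compactness and compactness, for dyadic `r ∈ [0,1]`,
open sets `V_r` and compact sets `K_r` with `C ⊆ V_1 ⊆ K_1`, `V_r ⊆ K_r ⊆ V_q` for `q < r`, and `K_0 ⊆ U`.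
(interpolation: between a compact `K` and an open `V ⊇ K` there are open `V'`, compact `K'` with
`K ⊆ V' ⊆ K' ⊆ V`).  `h(x) = sup {r : x ∈ V_r}`.  `{h > s} = ∪_{r > s} V_r` is open, and for `s < r < t`:
`{h > t} ⊆ V_r ⊆ K_r ⊆ V_q ⊆ {h > s}` where `s < q < r`.

(1.2) Splitting.  Let `h` be Dini, `U₀, U₁` open, `a ≥ 0`, `{h > a} ⊆ U₀ ∪ U₁`, `ε > 0`.  There are Dini
functions `g₀, g₁ ≤ h`, `g_i = 0` off `U_i`, with `h ≤ max(g₀, g₁, a) + ε`.
Proof.  Claim: for `a < s ≤ 1` and a compact `C ⊆ {h > s}` there are Dini functions `g_i ≤ h`, `g_i = 0`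
off `U_i`, with `max(g₀,g₁) ≥ s` on `C`.  By compactness and closure under maxima it is enough to do
this near a point `x ∈ C`; `h(x) > a`, so `x ∈ U_i` for some `i`; choose a compact neighbourhood `K` of `x`
inside `U_i ∩ {h > s}`, `g` from (1.1) for `K ⊆ U_i ∩ {h > s}`; `s g ≤ h` and `s g = s` on `K`.
Now put `s_j = a + j ε/2`, choose compact `C_j`, `{h > s_{j+1}} ⊆ C_j ⊆ {h > s_j}` (`j ≥ 1`, `s_j < 1`), apply
the claim to these finitely many and take the maxima.  If `h(x) > a + ε = s_2`, let `j ≥ 1` be maximal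
with `h(x) > s_{j+1}`; then `max(g₀,g₁)(x) ≥ s_j = s_{j+2} - ε ≥ h(x) - ε`.

### 2. The trees

For every `k ∈ ℕ` we need a ternary tree of Dini functions `h_{k,τ}`, `τ ∈ 3^{<ω}`, such that
 (mono) `h_{k,τ i} ≤ h_{k,τ}`,
 (approx) for every `x` there is `i` with `h_{k,τ}(x) ≤ h_{k,τ i}(x) + 2^{-(|τ|+2)}`,
 (split) if `U, U'` are open, `0 < s < t`, `{h_{k,τ} > s} ⊆ U ∪ U'`, then for infinitely many `m`, for every
   `τ' ⊇ τ` of length `m` and every `i`: `h_{k,τ' i}` vanishes off `U`, or off `U'`, or is `≤ t`,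
 (root) for `x ∈ U` open there is `k` with `h_{k,∅}(x) = 1`, `h_{k,∅} = 0` off `U`.
Construction: `𝓑` a countable basis closed under finite unions; list the triples `(B,B',a)`,
`a ∈ ℚ ∩ (0,1)`, `B,B' ∈ 𝓑`, each infinitely often, as `(B_n, B'_n, a_n)`.  At a node `τ` of length `n`: if
`{h_τ > a_n} ⊆ B_n ∪ B'_n` take the children `g₀, g₁, min(h_τ,a_n)` from (1.2) with
`ε = 2^{-(n+2)}`; otherwise the children `h_τ, 0, 0`.  (split): pick `s < s' < t' < t` with a compact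
`C`, `{h_τ > s'} ⊆ C ⊆ {h_τ > s} ⊆ U ∪ U'`; finitely many basic sets contained in `U` or in `U'` cover
`C`, so `C ⊆ B ∪ B'`, `B ⊆ U`, `B' ⊆ U'`; take a rational `a ∈ (s',t)`; whenever `(B_m,B'_m,a_m) = (B,B',a)`
and `τ' ⊇ τ` has length `m`, `{h_{τ'} > a} ⊆ {h_τ > s'} ⊆ B ∪ B'`.
(root): pairs of basic open sets `B ⊆ B'` for which there is a compact `C`, `B ⊆ C ⊆ B'`: countably
many; for each take the function of (1.1) as a root.

### 3. Branches

A branch `(k,z)`, `z ∈ 3^ω`, is *alive at level* `s` if `sup h_{k,z|n} ≥ s` for all `n`.  Let `s > 0` and let it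
be alive at level `s`.  `𝓕 = {U open : ∃ n, h_{k,z|n} = 0 off U}`.
(a) If `0 < s' < s` and `{h_{z|n} > s'} ⊆ U ∪ U'` then `U ∈ 𝓕` or `U' ∈ 𝓕`: by (split) with levels
`s' < t' < s`, for some `m ≥ n`: `h_{z|(m+1)}` vanishes off `U`, or off `U'`, or is `≤ t'`; the last is
impossible.
(b) `𝓕` is a filter of open sets, `∅ ∉ 𝓕`, and it is completely prime: if `∪ U_i ∈ 𝓕`, say `h_{z|n} = 0` off
`∪ U_i`, choose `0 < s' < t' < s` and a compact `C`, `{h_{z|n} > t'} ⊆ C ⊆ {h_{z|n} > s'} ⊆ ∪ U_i`; finitely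
many `U_i` cover `{h_{z|n} > t'}`, and by (a) and induction one of them is in `𝓕`.
(c) As `X` is sober and `T0`, there is a unique point `x = π(k,z)` with `𝓕 = {U : x ∈ U}`.
(d) `h_{z|n}(x) ≥ s` for all `n`: apply (a) with `U = U' = {h_{z|n} > s'}`, `s' < s`.

### 4. The space

`P₊ = {(k,z,s) : 0 < s, (k,z) alive at level s} ⊆ ℕ × 3^ω × (0,1]`.  It is closed in `ℕ × 3^ω × (0,∞)`
(aliveness is an intersection of conditions `s ≤ sup h_{z|n}`), hence locally compact, Hausdorff,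
second countable.  `P = P₊ ∪ {∞}` one point compactification.  `π : P₊ → X` is continuous (if `π(k,z) ∈ U`
there is `n` with `h_{k,z|n} = 0` off `U`, and then `π(k,z') ∈ U` whenever `z'|n = z|n`).

Put `G(l,σ,b) = {x : h_{l,σ}(x) > b + 2^{-(|σ|+1)}}`, open.  By (approx), `x ∈ G(l,σ,b)` implies
`x ∈ G(l,σ i,b)` for some `i`.  (`2^{-(n+1)} - 2^{-(n+2)} = 2^{-(n+2)}`.)

Maps.  For `k,τ,l,σ`, rationals `b, c > 0`, such that `h_{k,τ} = 0` off `G(l,σ,b)`: `θ(∞) = ∞`,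
`θ(k',z,s) = ∞` unless `k' = k` and `z ⊇ τ`, and `θ(k,z,s) = (l, ϑ z, min(c s, b))` for `z ⊇ τ`, where `ϑ z`
is the branch through `σ_0 = σ` defined by: given `σ_n` with `π(k,z) ∈ G(l,σ_n,b)`, there are `m, i` with
`h_{k,z|m} = 0` off `G(l,σ_n i,b)`; take the least `m`, for it the least `i`, and `σ_{n+1} = σ_n i`.
Then `h_{σ_n}(π(k,z)) > b` for all `n`, so `(l,ϑ z)` is alive at level `b`; `ϑ` is locally
constant to every finite depth, so continuous; and if `π(l,ϑ z) ∈ U` open, then `h_{σ_n} = 0` off `U`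
for some `n`, so `π(k,z) ∈ U`.  In other words `π(θ(p)) ∈ closure {π(p)}`... precisely:
(4.1) every open set containing `π(θ p)` contains `π(p)` (`p ∈ P₊`, `θ p ≠ ∞`).
`θ` is continuous: on `P₊` clear (clopen pieces); at `∞`: `θ(p) → ∞` as `s → 0`, and if `p → ∞` in `P₊` with
`p = (k,z,s)`, `k` fixed, then `s → 0`.
`Θ` = monoid generated by these countably many maps.

(4.2) `Y ↦ F_Y = {∞} ∪ π⁻¹(Y)` is an isomorphism from the lattice of closed subsets of `X` onto the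
lattice of closed `Θ`-invariant subsets of `P` containing `∞`.
 * `F_Y` is closed, and invariant by (4.1).
 * `F_{Y₁} ⊆ F_{Y₂} ⇒ Y₁ ⊆ Y₂`: let `x ∈ Y₁ \ Y₂`, `U = X \ Y₂`; (root): `k` with `h_{k,∅}(x) = 1` and
   `h_{k,∅} = 0` off `U`.  `x ∈ G(k,∅,1/4)`, so there is a branch `z` with `x ∈ G(k,z|n,1/4)` for all `n`;
   it is alive at level `1/4`; `π(k,z) ∈ U`, and every open set containing `π(k,z)` contains `x`, so
   `π(k,z) ∈ Y₁`.  Hence `(k,z,1/4) ∈ F_{Y₁} \ F_{Y₂}`.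
 * surjective: `F` given, `Y = closure π(F ∩ P₊)`; `F ⊆ F_Y`.  Conversely let `p' = (l,z',s') ∈ P₊`,
   `π(p') ∈ Y`.  For `n` and rational `b`, `0 < b < s' - 2^{-(n+1)}`: `h_{l,z'|n}(π p') ≥ s' > b + 2^{-(n+1)}`, so
   `π(p') ∈ G(l,z'|n,b)`, so there is `p = (k,z,s) ∈ F` with `π(p) ∈ G(l,z'|n,b)`, so `h_{k,z|m} = 0` off
   this set for some `m`; the map `θ` for `(k, z|m, l, z'|n, b, c)`, `c s ≥ b`, maps `p` to `(l, w, b) ∈ F`,
   `w ⊇ z'|n`.  Letting `n → ∞`, `b → s'` these converge to `p'`; `F` is closed.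

## PART II (operator algebra)

Data: `P` compact metrizable, `∞ ∈ P`, a countable monoid of continuous maps `P → P` fixing `∞`,
enumerated as `(θ_i)_{i∈ℕ}`, every map occurring infinitely often (so `θ_i = id` for infinitely
many `i`).  For a word `μ = i_1 ... i_n`: `θ_μ = θ_{i_1} ∘ ... ∘ θ_{i_n}`.
Path space `T` = finite paths `(μ,p)`, `μ` a word, `p ∈ P`, and infinite paths
`((i_n),(p_n))_{n≥0}`, `p_n = θ_{i_n}(p_{n+1})`.  `r(μ,p) = θ_μ(p)`, `r((i_n),(p_n)) = p_0`.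
Concatenation `c_i : T → T`, `r(c_i t) = θ_i(r t)`, injective with disjoint ranges; `root p = (∅,p)` is in
no range.  `H = ℓ²(T)`, `S_i δ_t = δ_{c_i t}`, `D_f δ_t = f(r t) δ_t` (`f ∈ C(P)`), so `D_f S_i = S_i D_{f∘θ_i}`.
`A` = closed linear span of `S_μ D_f S_ν^*`, `f ∈ C_0 := {f ∈ C(P) : f(∞) = 0}`.
Products: `S_ν^* S_α` is `S_κ` (`α = νκ`), `S_κ^*` (`ν = ακ`) or `0`, and `D_f S_κ D_g = S_κ D_{f∘θ_κ g}`, and
`f∘θ_κ(∞) = 0`; so `A` is a C*-algebra, invariant under left and right multiplication by `S_i`, `S_i^*`,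
`D_f` (`f ∈ C(P)`).  It is separable.

### 5. Coefficients

For `a ∈ A` and words `μ,ν`: `E_{μν}(a)(p) = ⟨δ_{(μ,p)}, a δ_{(ν,p)}⟩`.  `E_{μν}(S_α D_f S_β^*) = f∘θ_κ` if
`μ = ακ`, `ν = βκ`, and `0` otherwise.  So `E_{μν}(a) ∈ C_0`, `‖E_{μν}(a)‖ ≤ ‖a‖`,
`E_{μν}(a) = E_{∅∅}(S_μ^* a S_ν)`, and also `⟨δ_{(μ,p)}, a δ_{(ν,q)}⟩ = 0` for `p ≠ q`.
(5.1) If `j → ∞` through the `j` with `θ_j = id` then `S_j^* a S_j → D_{E_{∅∅}(a)}` in norm.  (For
`a = S_α D_f S_β^*`: `S_j^* S_α = 0` if `α ≠ ∅` does not begin with `j`, so the limit is `0` for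
`(α,β) ≠ (∅,∅)`, and `S_j^* D_f S_j = D_{f∘θ_j} = D_f`.)

### 6. Approximation

Fix `N, κ ≥ 1`, `Ω` = words of length `< N` with letters `< κ`.  Let `X_k` be the diagonal operator with
weight `√(1/N)` at `t ∈ ran c_i`, `i < κ`, and weight `√(1 - k/N)` at the other `t` (it is in the algebra
generated by the `S_i`, `S_i^*`).  `T_μ = S_μ X_{|μ|}`, `μ ∈ Ω`.
(6.1) `Σ_{μ∈Ω} T_μ T_μ^* = 1`: at a `t` whose maximal prefix in letters `< κ` has length `l`: if `l ≥ N` we get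
`N · (1/N)`; if `l < N` we get `l · 1/N + (1 - l/N)`.
(6.2) `Φ(a) = Σ_{μ,ν∈Ω} T_μ D_{E_{μν}(a)} T_ν^*` satisfies `‖Φ(a)‖ ≤ ‖a‖` for `a ∈ A`: let `j ≥ κ`, `θ_j = id`,
`Z = Σ_μ T_μ (S_μ S_j)^*`.  `Z Z^* = Σ T_μ T_μ^* = 1`, and `Z a Z^* = Σ T_μ S_j^* S_μ^* a S_ν S_j T_ν^* → Φ(a)`.
(6.3) `Φ(S_α D_f S_β^*) → S_α D_f S_β^*` for letters of `α,β` `< κ` and `N → ∞`: `E_{μν} ≠ 0` only for
`μ = αw`, `ν = βw`, where it is `f∘θ_w`, so `Φ(S_α D_f S_β^*) = Σ_w S_α S_w X_{|αw|} D_{f∘θ_w} X_{|βw|} S_w^* S_β^*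
= S_α D_f D_R S_β^*`, where `R = Σ_w X_{|αw|} X_{|βw|}` transported by `w`, the sum over the words `w` with
`|w| < M = N - D`, `D = max(|α|,|β|)`; at `t` with maximal prefix (letters `< κ`) of length `l`, `R(t) = M/N` if
`l ≥ M` and `l/N + √(1-(l+|α|)/N) √(1-(l+|β|)/N)` if `l < M`, so `1 - D/N ≤ R(t) ≤ 1`.
So `Φ_{N,κ} → id` pointwise on `A` (`N, κ → ∞`).

### 7. Nuclearity (CPAP)

Given a finite set of elements of `A` and `δ > 0` choose `g_p ∈ C_0`, `p` in a finite set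
`s ⊆ P`, with `Σ g_p² ≤ 1` and `‖f - Σ_p f(p) g_p²‖ ≤ δ` for the finitely many functions `f = E_{μν}(a)`
(all vanish at `∞`; partition of unity for a cover on which these functions are almost constant,
drop the members whose sets contain `∞`).  `r_{(p,μ)} = T_μ D_{g_p} ∈ A`, `p ∈ s`, `μ ∈ Ω`.
`φ : A → M_n`, `n = |s||Ω|`, `φ(a) = [⟨δ_{(μ,p)}, a δ_{(ν,q)}⟩]` (compression: contractive and c.p.),
`ψ : M_n → A`, `ψ(m) = Σ m_{kl} r_k r_l^*` c.p., contractive because `Σ r_k r_k^* ≤ Σ T_μ T_μ^* = 1`.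
`ψ φ(a) = Σ_{μ,ν} T_μ D_{Σ_p E_{μν}(a)(p) g_p²} T_ν^*` is within `|Ω|² δ` of `Φ(a)`, which is close to `a`.
(No separate argument for the different roots is needed: `⟨δ_{(μ,p)}, a δ_{(ν,q)}⟩ = 0` for `p ≠ q`.)

### 8. Ideals

`I` a closed two sided ideal, `F_I = {p : f(p) = 0 for all f ∈ C_0 with D_f ∈ I}`.  It is closed, contains
`∞`, and it is invariant: if `D_f ∈ I`, `g ∈ C_0`, then `(S_i D_g)^* D_f (S_i D_g) = D_{|g|² f∘θ_i} ∈ I`, so
for `p ∈ F_I`: `|g(p)|² f(θ_i p) = 0` for all `g ∈ C_0`, so `f(θ_i p) = 0` or `p = ∞`, and `θ_i ∞ = ∞`.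
(8.1) `a ∈ I ⟺ E_{μν}(a) = 0` on `F_I` for all `μ, ν`.  (⇒) for `g ∈ C_0`, `θ_j = id`, `j → ∞`:
`(S_μ S_j D_g)^* a (S_ν S_j D_g) ∈ I` converges to `D_{|g|² E_{μν}(a)}` so this is in `I` and `E_{μν}(a)` vanishes
on `F_I`.  (⇐) `I_0 = {f ∈ C(P) : D_f ∈ I, f(∞) = 0}` is a closed ideal of `C(P)` with zero set `F_I`, so it is
`{f : f = 0 on F_I}`; so `D_f ∈ I` for `f = E_{μν}(a)`, so `T_μ D_f T_ν^* ∈ I` (multipliers of `A`
map `I` to `I`), so `Φ(a) ∈ I` for all `N,κ`, so `a ∈ I`.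
(8.2) For a closed invariant `F ∋ ∞`, `J_F := {a : E_{μν}(a)|_F = 0 for all μ,ν}`.  `D_f ∈ J_F ⟺ f|_F = 0`, as
`E_{μμ}(D_f) = f∘θ_μ`, and the other coefficients vanish.
That `J_F` is a closed ideal is only needed for irreducible `F` (section 9), where it is the kernel of
a representation.  (In general: `J_F` is the closed span of the `S_μ D_f S_ν^*`, `f|_F = 0`.)

### 9. Primitive ideals

Call `F` (closed, invariant, containing `∞`) *prime* if `F ≠ {∞}` and `F ⊆ F₁ ∪ F₂` implies `F ⊆ F₁` or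
`F ⊆ F₂` for `F₁, F₂` closed invariant containing `∞`.
(9.1) If `F` is prime there is an irreducible representation of `A` with kernel `J_F`.
Proof.  For a set `V ⊆ P` open and `V ∩ F ∋ q`: `F₁ := {p : θ_i p ∉ V for all i} ∪ {∞}`... we need: if `V, V'`
are open, `∞ ∉ V ∪ V'`, meeting `F`, there are `i`, and `p ∈ F ∩ V'` with `θ_i(p) ∈ V`... precisely: put
`R(V) = {p ∈ P : θ_i p ∈ V for some i}`, open, the complement is closed, invariant (monoid), contains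
`∞`.  `R(V)` and `R(V')` meet `F` so `R(V) ∩ R(V') ∩ F ≠ ∅` by primeness: there is `x ∈ F` and `i, j` with
`θ_i x ∈ V`, `θ_j x ∈ V'`.  Let `(V_k)` be a basis of the sets `{V open: ∞ ∉ V, V ∩ F ≠ ∅}` (countably
many).  Inductively choose points `x_k ∈ F`, compact neighbourhoods `N_k ∌ ∞` of `x_k`, indices `i_k`:
`R(V_{k+1}) ∩ R(int N_k)` meets `F`, so there are `x_{k+1} ∈ F` and `i_k`, `j_k` with
`θ_{i_k}(x_{k+1}) ∈ int N_k` and `θ_{j_k}(x_{k+1}) ∈ V_{k+1}`.  Choose the compact neighbourhood `N_{k+1} ∌ ∞`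
of `x_{k+1}` such that `θ_{i_k}(N_{k+1}) ⊆ N_k` and `θ_{j_k}(N_{k+1}) ⊆ V_{k+1}`.  By compactness (inverse limit of the
compact sets `N_k ∩ F`) there is a sequence `p_k ∈ N_k ∩ F` with `p_k = θ_{i_k}(p_{k+1})`.
`θ_{j_k}(p_{k+1}) ∈ V_{k+1}`, so the `Θ`-orbits of the `p_k` are dense in `F` (together; `∞ ∈` closure or
isolated, it does not matter as functions vanish at `∞`).  Since every map occurs
infinitely often we may take `i_k` strictly increasing.  Let `s_k` = the infinite path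
`((i_{k+n})_n,(p_{k+n})_n)`, `s_k = c_{i_k} s_{k+1}`, `r(s_k) = p_k ≠ ∞`.
`K` = closed span of the `δ_t`, `t = μ s_k`, (`μ` word, `k ∈ ℕ`).  This is a reducing subspace for all
`S_i, S_i^*, D_f`: (`S_i^* δ_{s_k} = δ_{s_{k+1}}` if `i = i_k` and `0` otherwise).
Irreducible: for `n ≥ 0` let `μ_n` = the prefix of `t` of length `n`, `t = μ_n t_n`.  For `t = μ s_k` we have
`r(t_n) = p_{k+n-|μ|} ≠ ∞` for `n ≥ |μ|`.  For `g ∈ C_0` with `g(r(t_n)) = 1`, `0 ≤ g ≤ 1`, the operator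
`a_n = S_{μ_n} D_g S_{μ_n}^* ∈ A` fixes `δ_t`, and kills all `δ_{t'}`, `t'` not beginning with `μ_n`.  If `t' ≠ t`
is in the index set of `K`, then `t'` does not begin with `μ_n` for `n` large: `t, t'` are infinite
paths `(i_m),(q_m)`, `(i'_m),(q'_m)`; if the letters agree then, as they are tails-equivalent to
the sequence `(i_k)`: from some `m` on the letters are `i_{m+d}` and `i_{m+d'}`, so `d = d'` as `i_k` is
strictly increasing, so the points agree from some place on, so they agree.  Hence `a_n → ` the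
projection onto `ℂ δ_t` strongly on `K` (bounded sequence, converges on the basis).  So a closed
invariant subspace `L ≠ 0` of `K` contains some `δ_t`, thus `a_n δ_t = δ_t`... and for any `t' = μ' s_{k'}`:
with `t = μ s_k`, `m := max(k,k')` we have `t = μ (i_k ... i_{m-1}) s_m`, `t' = μ' (i_{k'} ... i_{m-1}) s_m`, and
the element `S_{μ'(i_{k'}...)} D_g S_{μ(i_k...)}^* ∈ A` with `g(p_m) = 1` maps `δ_t` to `δ_{t'}`.  So `L = K`.
Kernel: `D_f` is in the kernel iff `f(r(t)) = 0` for all `t` in the index set, i.e. `f(θ_μ p_k) = 0` for all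
`μ, k`, iff `f = 0` on `F`.  So by (8.1) the kernel is `J_F`.
(9.2) Conversely let `I` be the kernel of an irreducible representation `ρ ≠ 0`.  `I` is prime
(`J₁ J₂ ⊆ I ⇒ J₁ ⊆ I or J₂ ⊆ I`, for closed ideals).  `F_I ≠ {∞}` since otherwise `I = A` by (8.1).  If
`F_I ⊆ F₁ ∪ F₂`, but `F_I ⊄ F_1, F_2`: there are `f_1,f_2 ∈ C_0` with `f_i = 0` on `F_i` and `f_i ≠ 0` at some
point of `F_I`, i.e. `D_{f_i} ∉ I`.  By primeness there is `a ∈ A` with `D_{f_1} a D_{f_2} ∉ I`, so there is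
`a = S_μ D_h S_ν^*` with this property.  `D_{f_1} S_μ D_h S_ν^* D_{f_2} = S_μ D_{f_1∘θ_μ h f_2∘θ_ν} S_ν^*`, and the
function vanishes on `F_I`: for `p ∈ F_I`, `p ∈ F_1` or `p ∈ F_2`, so `θ_μ p ∈ F_1` or `θ_ν p ∈ F_2`.  By (8.1)
this is in `I`, a contradiction.
So `F ↦ J_F` is a bijection from the prime `F` onto `Prim(A)`, inverse `I ↦ F_I`.

### 10. Conclusion

With Part I: the prime closed sets of `X` are the `closure {x}`; `x ↦ J_{F_x}`, `F_x = F_{closure {x}}`, is a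
bijection `X → Prim(A)`.  Homeomorphism: for `Y ⊆ X` closed, `x ∈ Y ⟺ F_x ⊆ F_Y ⟺`
(every `f ∈ C_0` vanishing on `F_Y` vanishes on `F_x`) `⟺ J_{F_x} ⊇ {D_f : f|_{F_Y} = 0}`: so the image of a
closed set is a hull.  Conversely for `S ⊆ A` the set `F' = {p : E_{μν}(a)(θ_i p) = 0 for all a ∈ S, μ,ν,i}`
is closed, invariant and contains `∞`, and `J_{F_x} ⊇ S ⟺ F_x ⊆ F'`, i.e. `⟺ x ∈ Y'` where `F_{Y'} = F'`.
-/
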