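import Pool.Agent.Run7.h917.DefsI

/-!
# T3: the point of a branch
-/

open TopologicalSpace Set

namespace Run7.h917

universe u

theorem length_pre (z : ℕ → Fin 3) (n : ℕ) : (pre z n).length = n := by
  induction n with
  | zero => rfl
  | succ n ih => rw [pre, List.length_cons, ih]

theorem pre_suffix (z : ℕ → Fin 3) {n m : ℕ} (h : n ≤ m) : pre z n <:+ pre z m := by
  induction m with
  | zero =>
    obtain rfl : n = 0 := by omega
    exact List.suffix_refl _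
  | succ m ih =>
    rcases Nat.lt_or_ge m n with hlt | hge
    · obtain rfl : n = m + 1 := by omega
      exact List.suffix_refl _
    · exact (ih hge).trans (List.suffix_cons _ _)

namespace Tree
variable {X : Type u} [TopologicalSpace X] (𝒯 : Tree X)

theorem anti (k : ℕ) (z : ℕ → Fin 3) {n m : ℕ} (h : n ≤ m) (x : X) :
    𝒯.h k (pre z m) x ≤ 𝒯.h k (pre z n) x := by
  induction m with
  | zero =>
    obtain rfl : n = 0 := by omega
    exact le_rfl
  | succ m ih =>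
    rcases Nat.lt_or_ge m n with hlt | hge
    · obtain rfl : n = m + 1 := by omega
      exact le_rfl
    · exact (𝒯.mono k (pre z m) (z m) x).trans (ih hge)

/-- the filter -/
def Fl (k : ℕ) (z : ℕ → Fin 3) (U : Set X) : Prop :=
  ∃ n, ∀ y, y ∉ U → 𝒯.h k (pre z n) y = 0

variable {𝒯} {k : ℕ} {z : ℕ → Fin 3} {s : ℝ}

theorem Fl.mono {U V : Set X} (h : 𝒯.Fl k z U) (hUV : U ⊆ V) : 𝒯.Fl k z V := by
  obtain ⟨n, hn⟩ := h
  exact ⟨n, fun y hy => hn y fun h => hy (hUV h)⟩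

theorem Fl.inter {U V : Set X} (h : 𝒯.Fl k z U) (h' : 𝒯.Fl k z V) : 𝒯.Fl k z (U ∩ V) := by
  obtain ⟨n, hn⟩ := h
  obtain ⟨m, hm⟩ := h'
  refine ⟨max n m, fun y hy => ?_⟩
  have h0 := (𝒯.dini k (pre z (max n m))).nonneg y
  by_cases hyU : y ∈ U
  · have h1 := 𝒯.anti k z (le_max_right n m) y
    rw [hm y fun h => hy ⟨hyU, h⟩] at h1
    exact le_antisymm h1 h0
  · have h1 := 𝒯.anti k z (le_max_left n m) y
    rw [hn y hyU] at h1
    exact le_antisymm h1 h0

theorem Alive.two (hz : 𝒯.Alive k z s) {s' : ℝ} (hs' : 0 < s') (hss : s' < s) {U U' : Set X}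
    (hU : IsOpen U) (hU' : IsOpen U') {n : ℕ} (h : {x | s' < 𝒯.h k (pre z n) x} ⊆ U ∪ U') :
    𝒯.Fl k z U ∨ 𝒯.Fl k z U' := by
  obtain ⟨m, hm, hsp⟩ := 𝒯.split k (pre z n) s' ((s' + s) / 2) U U' hs' (by linarith) hU hU' h n
  rcases hsp (pre z m) (pre_suffix z hm) (length_pre z m) (z m) with h1 | h1 | h1
  · exact Or.inl ⟨m + 1, h1⟩
  · exact Or.inr ⟨m + 1, h1⟩
  · exfalso
    obtain ⟨x, hx⟩ := hz (m + 1) ((s' + s) / 2) (by linarith)
    exact absurd (h1 x) (not_le.2 hx)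

theorem Alive.fin (hz : 𝒯.Alive k z s) {s' : ℝ} (hs' : 0 < s') (hss : s' < s) {ι : Type*}
    (t : Finset ι) {U : ι → Set X} (hU : ∀ i, IsOpen (U i)) {n : ℕ}
    (h : {x | s' < 𝒯.h k (pre z n) x} ⊆ ⋃ i ∈ t, U i) : ∃ i ∈ t, 𝒯.Fl k z (U i) := by
  classical
  induction t using Finset.induction_on generalizing n with
  | empty =>
    exfalso
    obtain ⟨x, hx⟩ := hz n s' hss
    have := h (show x ∈ {x | s' < 𝒯.h k (pre z n) x} from hx)
    simp at this
  | insert i t _ ih =>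
    rw [Finset.set_biUnion_insert] at h
    rcases hz.two hs' hss (hU i) (isOpen_biUnion fun j _ => hU j) h with h1 | ⟨m, hm⟩
    · exact ⟨i, Finset.mem_insert_self i t, h1⟩
    · have h2 : {x | s' < 𝒯.h k (pre z m) x} ⊆ ⋃ j ∈ t, U j := by
        intro x hx
        by_contra hcon
        have h3 : s' < 𝒯.h k (pre z m) x := hx
        rw [hm x hcon] at h3
        linarith
      obtain ⟨j, hj, h4⟩ := ih h2
      exact ⟨j, Finset.mem_insert_of_mem hj, h4⟩

theorem Alive.prime (hs : 0 < s) (hz : 𝒯.Alive k z s) {ι : Type*} {U : ι → Set X}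
    (hU : ∀ i, IsOpen (U i)) (h : 𝒯.Fl k z (⋃ i, U i)) : ∃ i, 𝒯.Fl k z (U i) := by
  obtain ⟨n, hn⟩ := h
  obtain ⟨C, hC, h1, h2⟩ := (𝒯.dini k (pre z n)).cpt (s / 4) (s / 2) (by linarith) (by linarith)
  have h3 : C ⊆ ⋃ i, U i := by
    intro x hx
    by_contra hcon
    have h4 : s / 4 < 𝒯.h k (pre z n) x := h2 hx
    rw [hn x hcon] at h4
    linarith
  obtain ⟨t, ht⟩ := hC.elim_finite_subcover U hU h3
  obtain ⟨i, -, hi⟩ := hz.fin (by linarith : 0 < s / 2) (by linarith) t hU (h1.trans ht)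
  exact ⟨i, hi⟩

/-- **T3.** -/
theorem exists_point [QuasiSober X] {k : ℕ} {z : ℕ → Fin 3} {s : ℝ} (hs : 0 < s)
    (hz : 𝒯.Alive k z s) :
    ∃ x : X, (∀ U : Set X, IsOpen U → (x ∈ U ↔ ∃ n, ∀ y, y ∉ U → 𝒯.h k (pre z n) y = 0)) ∧
      ∀ n, s ≤ 𝒯.h k (pre z n) x := by
  set W : Set X := ⋃ U : {U : Set X // IsOpen U ∧ ¬ 𝒯.Fl k z U}, U.1 with hW
  have hWF : ¬ 𝒯.Fl k z W := by
    intro h
    obtain ⟨i, hi⟩ := hz.prime hs (fun i : {U : Set X // IsOpen U ∧ ¬ 𝒯.Fl k z U} => i.2.1) h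
    exact i.2.2 hi
  have hWo : IsOpen W := isOpen_iUnion fun i => i.2.1
  have key : ∀ U : Set X, IsOpen U → ((Wᶜ ∩ U).Nonempty ↔ 𝒯.Fl k z U) := by
    intro U hU
    constructor
    · rintro ⟨x, hx, hxU⟩
      by_contra hcon
      exact hx (mem_iUnion.2 ⟨⟨U, hU, hcon⟩, hxU⟩)
    · intro h
      by_contra hcon
      rw [not_nonempty_iff_eq_empty] at hcon
      apply hWF
      refine h.mono fun x hx => ?_
      by_contra hxW
      have : x ∈ Wᶜ ∩ U := ⟨hxW, hx⟩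
      rw [hcon] at this
      exact this
  have hirr : IsIrreducible Wᶜ := by
    refine ⟨?_, ?_⟩
    · have := (key univ isOpen_univ).2 ⟨0, fun y hy => absurd (mem_univ y) hy⟩
      rwa [inter_univ] at this
    · intro U V hU hV h1 h2
      rw [key U hU] at h1
      rw [key V hV] at h2
      exact (key _ (hU.inter hV)).2 (h1.inter h2)
  obtain ⟨x, hx⟩ := QuasiSober.sober hirr hWo.isClosed_compl
  have hxU : ∀ U : Set X, IsOpen U → (x ∈ U ↔ 𝒯.Fl k z U) := by
    intro U hU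
    rw [← key U hU, ← hx.def]
    constructor
    · intro h
      exact ⟨x, subset_closure rfl, h⟩
    · rintro ⟨y, hy, hyU⟩
      obtain ⟨w, hw1, hw2⟩ := mem_closure_iff.1 hy U hU hyU
      rw [mem_singleton_iff] at hw2
      rw [← hw2]
      exact hw1
  refine ⟨x, hxU, fun n => ?_⟩
  by_contra hcon
  push Not at hcon
  set s'' := max (𝒯.h k (pre z n) x) (s / 2) with hs''
  have h1 : 0 < s'' := lt_of_lt_of_le (by linarith) (le_max_right _ _)
  have h2 : s'' < s := max_lt hcon (by linarith)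
  have hO : IsOpen {y | s'' < 𝒯.h k (pre z n) y} := (𝒯.dini k (pre z n)).lsc s''
  have h3 : 𝒯.Fl k z {y | s'' < 𝒯.h k (pre z n) y} := by
    rcases hz.two h1 h2 hO hO (n := n) (by rw [union_self]) with h | h <;> exact h
  have h4 : s'' < 𝒯.h k (pre z n) x := (hxU _ hO).2 h3
  exact absurd (le_max_left (𝒯.h k (pre z n) x) (s / 2)) (not_le.2 h4)

end Tree

end Run7.h917
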