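import Pool.Agent.Run7.h917.T2
import Pool.Agent.Run7.h917.T3
import Pool.Agent.Run7.h18.KR.Fin

/-!
# Part I
-/

namespace Run7.h917

universe u

/-- **Part I.** -/
theorem exists_ptSys (X : Type u) [TopologicalSpace X] [QuasiSober X]
    [SecondCountableTopology X] [LocallyCompactSpace X] :
    ∃ (P : Type) (_ : TopologicalSpace P) (_ : CompactSpace P) (_ : T2Space P)
      (_ : SecondCountableTopology P) (σ : PtSys P),
      Nonempty (TopologicalSpace.Closeds X ≃o σ.InvClosed) :=
  Run7.h18.KR.exists_ptSys_of X (exists_tree X) (fun _ _ _ _ hs hz => Tree.exists_point hs hz)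

end Run7.h917
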