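import Pool.Agent.Run7.h917.Alg

/-!
# A generic infinite path in a prime closed invariant set
-/

open TopologicalSpace Set

namespace Run7.h917

variable {P : Type} [TopologicalSpace P] (σ : PtSys P)

/-- closed invariant sets, unbundled -/
structure PtSys.IsInv (F : Set P) : Prop where
  closed : IsClosed F
  pt : σ.pt ∈ F
  inv : ∀ i, ∀ p ∈ F, σ.θ i p ∈ F

/-- prime closed invariant sets, unbundled -/
structure PtSys.IsPrimeInv (F : Set P) : Prop extends σ.IsInv F where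
  ne : ∃ p ∈ F, p ≠ σ.pt
  prime : ∀ F₁ F₂ : Set P, σ.IsInv F₁ → σ.IsInv F₂ → F ⊆ F₁ ∪ F₂ → F ⊆ F₁ ∨ F ⊆ F₂

variable {σ}

theorem PtSys.IsPrimeInv.meet {F : Set P} (hF : σ.IsPrimeInv F) {V V' : Set P} (hV : IsOpen V)
    (hV' : IsOpen V') (hpt : σ.pt ∉ V) (hpt' : σ.pt ∉ V') (hne : (V ∩ F).Nonempty)
    (hne' : (V' ∩ F).Nonempty) : ∃ x ∈ F, (∃ i, σ.θ i x ∈ V) ∧ ∃ i, σ.θ i x ∈ V' := by
  by_contra hcon
  have hR : ∀ V : Set P, IsOpen V → σ.pt ∉ V → σ.IsInv {x | ∀ i, σ.θ i x ∉ V} := by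
    intro V hV hpt
    refine ⟨?_, ?_, ?_⟩
    · have : {x | ∀ i, σ.θ i x ∉ V} = ⋂ i, (σ.θ i) ⁻¹' Vᶜ := by ext x; simp
      rw [this]
      exact isClosed_iInter fun i => hV.isClosed_compl.preimage (σ.θ i).continuous
    · intro i
      rw [σ.map_pt]
      exact hpt
    · intro j x hx i
      obtain ⟨k, hk⟩ := σ.comp i j
      have := hx k
      rw [hk] at this
      exact this
  have hnot : ∀ V : Set P, (V ∩ F).Nonempty → ¬ F ⊆ {x | ∀ i, σ.θ i x ∉ V} := by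
    rintro V ⟨x, hxV, hxF⟩ hsub
    obtain ⟨i, hi⟩ := σ.one
    have := hsub hxF i
    rw [hi] at this
    exact this hxV
  rcases hF.prime _ _ (hR V hV hpt) (hR V' hV' hpt') (by
    intro x hx
    by_contra h
    apply hcon
    refine ⟨x, hx, ?_, ?_⟩
    · by_contra h1
      push Not at h1
      exact h (Or.inl h1)
    · by_contra h1
      push Not at h1
      exact h (Or.inr h1)) with h | h
  · exact hnot V hne h
  · exact hnot V' hne' h

theorem PtSys.IsPrimeInv.step [CompactSpace P] [T2Space P] {F : Set P} (hF : σ.IsPrimeInv F)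
    {V U : Set P} (hV : IsOpen V)
    (hU : IsOpen U) (hptV : σ.pt ∉ V) (hptU : σ.pt ∉ U) (hneV : (V ∩ F).Nonempty)
    (hneU : (U ∩ F).Nonempty) (N : ℕ) :
    ∃ (U' : Set P) (i j : ℕ), IsOpen U' ∧ σ.pt ∉ U' ∧ (U' ∩ F).Nonempty ∧ N < i ∧
      (∀ x ∈ closure U', σ.θ i x ∈ U) ∧ ∀ x ∈ closure U', σ.θ j x ∈ V := by
  obtain ⟨x, hxF, ⟨j, hj⟩, ⟨i, hi⟩⟩ := hF.meet hV hU hptV hptU hneV hneU
  obtain ⟨i', hi'N, hi'⟩ := σ.rep i (N + 1)
  have hopen : IsOpen ((σ.θ i') ⁻¹' U ∩ (σ.θ j) ⁻¹' V) :=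
    (hU.preimage (σ.θ i').continuous).inter (hV.preimage (σ.θ j).continuous)
  have hx : x ∈ (σ.θ i') ⁻¹' U ∩ (σ.θ j) ⁻¹' V := ⟨by rw [hi']; exact hi, hj⟩
  obtain ⟨U', hU'o, hxU', hU'⟩ := IsCompact.exists_isOpen_closure_subset
    (isCompact_singleton (x := x)) (hopen.mem_nhdsSet.2 (by simpa using hx))
  refine ⟨U', i', j, hU'o, ?_, ⟨x, hxU' rfl, hxF⟩, by omega, fun y hy => (hU' hy).1,
    fun y hy => (hU' hy).2⟩
  intro hpt
  have := (hU' (subset_closure hpt)).1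
  rw [Set.mem_preimage, σ.map_pt] at this
  exact hptU this

theorem PtSys.IsPrimeInv.exists_basis [T2Space P] [SecondCountableTopology P] {F : Set P}
    (hF : σ.IsPrimeInv F) : ∃ V : ℕ → Set P, (∀ n, IsOpen (V n) ∧ σ.pt ∉ V n ∧
      (V n ∩ F).Nonempty) ∧ ∀ W, IsOpen W → σ.pt ∉ W → (W ∩ F).Nonempty → ∃ n, V n ⊆ W := by
  set 𝓑 : Set (Set P) := {V ∈ countableBasis P | σ.pt ∉ V ∧ (V ∩ F).Nonempty} with h𝓑
  have h1 : ∀ W, IsOpen W → σ.pt ∉ W → (W ∩ F).Nonempty → ∃ V ∈ 𝓑, V ⊆ W := by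
    rintro W hW hpt ⟨x, hxW, hxF⟩
    obtain ⟨V, hV, hxV, hVW⟩ := (isBasis_countableBasis P).exists_subset_of_mem_open hxW hW
    exact ⟨V, ⟨hV, fun h => hpt (hVW h), ⟨x, hxV, hxF⟩⟩, hVW⟩
  have hne : 𝓑.Nonempty := by
    obtain ⟨p, hpF, hp⟩ := hF.ne
    obtain ⟨V, hV, -⟩ := h1 {σ.pt}ᶜ isClosed_singleton.isOpen_compl (by simp) ⟨p, hp, hpF⟩
    exact ⟨V, hV⟩
  have hc : 𝓑.Countable := (countable_countableBasis P).mono fun V hV => hV.1
  obtain ⟨V, hV⟩ := hc.exists_eq_range hne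
  refine ⟨V, fun n => ?_, fun W hW hpt hne => ?_⟩
  · have : V n ∈ 𝓑 := by rw [hV]; exact ⟨n, rfl⟩
    exact ⟨isOpen_of_mem_countableBasis this.1, this.2.1, this.2.2⟩
  · obtain ⟨V', hV', hsub⟩ := h1 W hW hpt hne
    rw [hV] at hV'
    obtain ⟨n, rfl⟩ := hV'
    exact ⟨n, hsub⟩

/-- **A generic path.** -/
theorem PtSys.IsPrimeInv.exists_path [CompactSpace P] [T2Space P] [SecondCountableTopology P]
    {F : Set P} (hF : σ.IsPrimeInv F) : ∃ (i : ℕ → ℕ) (p : ℕ → P), StrictMono i ∧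
      (∀ n, p n ∈ F ∧ p n ≠ σ.pt ∧ p n = σ.θ (i n) (p (n + 1))) ∧
      ∀ W, IsOpen W → σ.pt ∉ W → (W ∩ F).Nonempty → ∃ n j, σ.θ j (p n) ∈ W := by
  obtain ⟨V, hV, hVb⟩ := hF.exists_basis
  -- the recursion
  let St : Type := {q : Set P × ℕ // IsOpen q.1 ∧ σ.pt ∉ q.1 ∧ (q.1 ∩ F).Nonempty}
  have hstep : ∀ (n : ℕ) (q : St), ∃ q' : St, q.1.2 < q'.1.2 ∧
      (∀ x ∈ closure q'.1.1, σ.θ q'.1.2 x ∈ q.1.1) ∧
      ∃ j, ∀ x ∈ closure q'.1.1, σ.θ j x ∈ V n := by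
    rintro n ⟨⟨U, m⟩, hU, hpt, hne⟩
    obtain ⟨U', i, j, h1, h2, h3, h4, h5, h6⟩ :=
      hF.step (hV n).1 hU (hV n).2.1 hpt (hV n).2.2 hne m
    exact ⟨⟨⟨U', i⟩, h1, h2, h3⟩, h4, h5, j, h6⟩
  choose g hg1 hg2 hg3 using hstep
  let q : ℕ → St := fun n => Nat.rec ⟨⟨V 0, 0⟩, (hV 0)⟩ (fun n x => g n x) n
  have hq : ∀ n, q (n + 1) = g n (q n) := fun n => rfl
  let U : ℕ → Set P := fun n => (q n).1.1
  let i : ℕ → ℕ := fun n => (q (n + 1)).1.2
  have hU : ∀ n, IsOpen (U n) ∧ σ.pt ∉ U n ∧ (U n ∩ F).Nonempty := fun n => (q n).2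
  have hUi : ∀ n, ∀ x ∈ closure (U (n + 1)), σ.θ (i n) x ∈ U n := fun n => hg2 n (q n)
  have hi : StrictMono i := strictMono_nat_of_lt_succ fun n => hg1 (n + 1) (q (n + 1))
  -- compactness
  let W : ℕ → Set (ℕ → P) := fun m => {x | (∀ n ≤ m, x n ∈ F ∩ closure (U n)) ∧
    ∀ n < m, x n = σ.θ (i n) (x (n + 1))}
  have hWne : ∀ m, ∀ x ∈ F ∩ closure (U m), ∃ y ∈ W m, y m = x := by
    intro m
    induction m with
    | zero =>
      intro x hx
      refine ⟨fun _ => x, ⟨fun n hn => ?_, fun n hn => absurd hn (Nat.not_lt_zero _)⟩, rfl⟩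
      obtain rfl : n = 0 := by omega
      exact hx
    | succ m ih =>
      intro x hx
      obtain ⟨y, ⟨hy1, hy2⟩, hy3⟩ := ih (σ.θ (i m) x)
        ⟨hF.inv _ _ hx.1, subset_closure (hUi m x hx.2)⟩
      refine ⟨fun n => if n = m + 1 then x else y n, ⟨fun n hn => ?_, fun n hn => ?_⟩, ?_⟩
      · by_cases h : n = m + 1
        · subst h; simpa using hx
        · simp only [h, if_false]
          exact hy1 n (by omega)
      · have h1 : n ≠ m + 1 := by omega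
        simp only [h1, if_false]
        by_cases h : n + 1 = m + 1
        · have : n = m := by omega
          subst this
          simpa using hy3
        · simp only [h, if_false]
          exact hy2 n (by omega)
      · simp
  have hWc : ∀ m, IsClosed (W m) := by
    intro m
    have : W m = (⋂ (n) (_ : n ≤ m), {x | x n ∈ F ∩ closure (U n)}) ∩
        ⋂ (n) (_ : n < m), {x | x n = σ.θ (i n) (x (n + 1))} := by
      ext x; simp [W]
    rw [this]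
    refine IsClosed.inter (isClosed_iInter fun n => isClosed_iInter fun _ => ?_)
      (isClosed_iInter fun n => isClosed_iInter fun _ => ?_)
    · exact (hF.closed.inter isClosed_closure).preimage (continuous_apply n)
    · exact isClosed_eq (continuous_apply n)
        ((σ.θ (i n)).continuous.comp (continuous_apply (n + 1)))
  have hWm : ∀ m, W (m + 1) ⊆ W m := fun m x hx =>
    ⟨fun n hn => hx.1 n (by omega), fun n hn => hx.2 n (by omega)⟩
  obtain ⟨p, hp⟩ := IsCompact.nonempty_iInter_of_sequence_nonempty_isCompact_isClosed W hWm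
    (fun m => by
      obtain ⟨x, hx⟩ := (hU m).2.2
      obtain ⟨y, hy, -⟩ := hWne m x ⟨hx.2, subset_closure hx.1⟩
      exact ⟨y, hy⟩) (hWc 0).isCompact hWc
  rw [Set.mem_iInter] at hp
  have hpF : ∀ n, p n ∈ F ∩ closure (U n) := fun n => (hp n).1 n le_rfl
  have hpθ : ∀ n, p n = σ.θ (i n) (p (n + 1)) := fun n => (hp (n + 1)).2 n (by omega)
  refine ⟨i, p, hi, fun n => ⟨(hpF n).1, ?_, hpθ n⟩, fun O hO hpt hne => ?_⟩
  · intro h
    have h1 := hUi n _ (hpF (n + 1)).2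
    rw [← hpθ n, h] at h1
    exact (hU n).2.1 h1
  · obtain ⟨n, hn⟩ := hVb O hO hpt hne
    obtain ⟨j, hj⟩ := hg3 n (q n)
    exact ⟨n + 1, j, hn (hj _ (hpF (n + 1)).2)⟩

end Run7.h917
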