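import Pool.Agent.Run7.h917.Irr

/-!
# The primitive ideal space of `A`
-/

open scoped ENNReal ComplexConjugate InnerProductSpace Topology
open Filter ContinuousLinearMap

set_option linter.unusedSectionVars false

namespace Run7.h917

noncomputable section

namespace PathSpace
variable {P : Type} [TopologicalSpace P] {σ : PtSys P} (Λ : PathSpace σ) [CompactSpace P]

/-- the closed invariant set of a primitive ideal -/
def toF (I : Prim Λ.A) : Set P := Λ.FI (Subtype.val '' I.1)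

variable {Λ}

theorem isIdl_prim (I : Prim Λ.A) : Λ.IsIdl (Subtype.val '' I.1) := by
  obtain ⟨I, H, _, _, _, ρ, -, rfl⟩ := I
  exact isIdl_kerSet ρ

theorem mem_prim_iff [T2Space P] (I : Prim Λ.A) (a : Λ.A) :
    a ∈ I.1 ↔ ∀ μ ν, ∀ p ∈ Λ.toF I, Λ.E μ ν (a : Λ.H →L[ℂ] Λ.H) p = 0 := by
  rw [toF, ← (isIdl_prim I).mem_iff a.2]
  constructor
  · intro h; exact ⟨a, h, rfl⟩
  · rintro ⟨b, hb, hab⟩
    rwa [← Subtype.ext hab]

theorem toF_injective [T2Space P] : Function.Injective Λ.toF := by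
  intro I J h
  apply Subtype.ext
  ext a
  rw [mem_prim_iff, mem_prim_iff, h]

theorem isInv_toF [T2Space P] (I : Prim Λ.A) : σ.IsInv (Λ.toF I) :=
  ⟨isClosed_FI _, pt_mem_FI _, fun i _ hp => (isIdl_prim I).map_FI i hp⟩

theorem E_Df (μ ν : List ℕ) {f : C(P, ℂ)} (hf : f σ.pt = 0) :
    (μ = ν ∧ Λ.E μ ν (Λ.Df f) = f.comp (σ.θw μ)) ∨ (μ ≠ ν ∧ Λ.E μ ν (Λ.Df f) = 0) := by
  have h := Λ.E_mon μ ν [] [] hf
  rw [mon_nil] at h
  rcases h with ⟨w, h1, h2, h3⟩ | ⟨h1, h2⟩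
  · left
    simp only [List.nil_append] at h1 h2
    subst h1
    exact ⟨h2.symm, h3⟩
  · right
    refine ⟨?_, h2⟩
    rintro rfl
    exact h1 μ ⟨by simp, by simp⟩

theorem θw_inv {F : Set P} (hF : σ.IsInv F) (w : List ℕ) {p : P} (hp : p ∈ F) :
    σ.θw w p ∈ F := by
  obtain ⟨j, hj⟩ := σ.θw_eq_letter w
  rw [hj]; exact hF.inv j p hp

/-- functions in a primitive ideal -/
theorem Df_mem_prim_iff [T2Space P] (I : Prim Λ.A) {f : C(P, ℂ)} (hf : f σ.pt = 0) :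
    (⟨Λ.Df f, Λ.Df_mem_A hf⟩ : Λ.A) ∈ I.1 ↔ ∀ p ∈ Λ.toF I, f p = 0 := by
  rw [mem_prim_iff]
  constructor
  · intro h p hp
    have h1 := h [] [] p hp
    rcases E_Df (Λ := Λ) [] [] hf with ⟨-, h2⟩ | ⟨h2, -⟩
    · rw [h2] at h1
      simpa using h1
    · exact absurd rfl h2
  · intro h μ ν p hp
    rcases E_Df (Λ := Λ) μ ν hf with ⟨-, h2⟩ | ⟨-, h2⟩
    · rw [h2]
      exact h _ (θw_inv (isInv_toF I) μ hp)
    · rw [h2]; rfl

/-- the set of functions vanishing on `F`, as elements of `A` -/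
def vanish (Λ : PathSpace σ) (F : Set P) : Set Λ.A :=
  {a | ∃ (f : C(P, ℂ)) (hf : f σ.pt = 0), (∀ p ∈ F, f p = 0) ∧ a = ⟨Λ.Df f, Λ.Df_mem_A hf⟩}

theorem vanish_subset_iff [T2Space P] (I : Prim Λ.A) {F : Set P} (hF : σ.IsInv F) :
    Λ.vanish F ⊆ I.1 ↔ Λ.toF I ⊆ F := by
  constructor
  · intro h p hp
    by_contra hpF
    have hpt : p ≠ σ.pt := fun h => hpF (h ▸ hF.pt)
    obtain ⟨g, hg0, hg1, hgU, -⟩ := exists_fun (σ := σ) hpt hF.closed.isOpen_compl hpF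
    have h1 : (⟨Λ.Df g, Λ.Df_mem_A hg0⟩ : Λ.A) ∈ I.1 :=
      h ⟨g, hg0, fun q hq => hgU q (by simpa using hq), rfl⟩
    have h2 := (Df_mem_prim_iff I hg0).1 h1 p hp
    rw [hg1] at h2
    exact one_ne_zero h2
  · rintro h _ ⟨f, hf, hfF, rfl⟩
    exact (Df_mem_prim_iff I hf).2 fun p hp => hfF p (h hp)

theorem isPrimeInv_toF [T2Space P] (I : Prim Λ.A) : σ.IsPrimeInv (Λ.toF I) := by
  refine ⟨isInv_toF I, ?_, ?_⟩
  · by_contra hcon
    push Not at hcon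
    obtain ⟨H, _, _, _, ρ, ⟨⟨a, ha⟩, -⟩, h'⟩ := I.2
    have h1 : a ∈ I.1 := by
      rw [mem_prim_iff]
      intro μ ν p hp
      rw [hcon p hp, Λ.E_pt a.2]
    rw [h'] at h1
    exact ha h1
  · intro F₁ F₂ h1 h2 hsub
    rw [← vanish_subset_iff I h1, ← vanish_subset_iff I h2]
    refine I.2.prime ?_
    rintro _ ⟨f, hf, hfF, rfl⟩ b _ ⟨g, hg, hgF, rfl⟩
    rw [mem_prim_iff]
    intro μ ν p hp
    -- the map `b ↦ E (D_f b D_g) p` is zero
    have key : Λ.Df f * (b : Λ.H →L[ℂ] Λ.H) * Λ.Df g ∈ Subtype.val '' I.1 := by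
      let K : Submodule ℂ (Λ.H →L[ℂ] Λ.H) :=
        { carrier := Subtype.val '' I.1
          add_mem' := fun {x y} hx hy => (isIdl_prim I).add x hx y hy
          zero_mem' := (isIdl_prim I).zero
          smul_mem' := fun c x hx => (isIdl_prim I).smul c x hx }
      let L : (Λ.H →L[ℂ] Λ.H) →L[ℂ] (Λ.H →L[ℂ] Λ.H) :=
        ((ContinuousLinearMap.mul ℂ (Λ.H →L[ℂ] Λ.H)).flip (Λ.Df g)) ∘L
          (ContinuousLinearMap.mul ℂ (Λ.H →L[ℂ] Λ.H) (Λ.Df f))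
      have hL : ∀ x, L x = Λ.Df f * x * Λ.Df g := fun x => rfl
      rw [← hL]
      refine Λ.map_mem_of_mon L K (isIdl_prim I).closed ?_ b.2
      intro α k β hk
      rw [hL]
      have e : Λ.Df f * Λ.mon α k β * Λ.Df g
          = Λ.mon α (f.comp (σ.θw α) * k * g.comp (σ.θw β)) β := by
        rw [Df_mul_mon, mon, mon, Df_mul (f := f.comp (σ.θw α) * k), mul_assoc (Λ.Sw α * _),
          star_Sw_mul_Df]
        simp only [mul_assoc]
      have hk0 : (f.comp (σ.θw α) * k * g.comp (σ.θw β)) σ.pt = 0 := by simp [hk]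
      have hmem : Λ.Df f * Λ.mon α k β * Λ.Df g ∈ Λ.A := by
        rw [e]; exact Λ.mon_mem_A _ hk0 _
      change _ ∈ Subtype.val '' I.1
      rw [(isIdl_prim I).mem_iff hmem]
      intro μ' ν' q hq
      rw [e]
      rcases Λ.E_mon μ' ν' α β hk0 with ⟨w, -, -, h3⟩ | ⟨-, h3⟩
      · rw [h3]
        simp only [ContinuousMap.comp_apply, ContinuousMap.mul_apply]
        have hq' : σ.θw w q ∈ Λ.toF I := θw_inv (isInv_toF I) w hq
        rcases hsub hq' with h4 | h4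
        · rw [hfF _ (θw_inv h1 α h4), zero_mul, zero_mul]
        · rw [hgF _ (θw_inv h2 β h4), mul_zero]
      · rw [h3]; rfl
    obtain ⟨x, hx, hx'⟩ := key
    have hx2 : (⟨Λ.Df f, Λ.Df_mem_A hf⟩ : Λ.A) * b * ⟨Λ.Df g, Λ.Df_mem_A hg⟩ = x :=
      Subtype.ext hx'.symm
    exact (mem_prim_iff I _).1 (hx2 ▸ hx) μ ν p hp

theorem exists_prim [T2Space P] [SecondCountableTopology P] {F : Set P} (hF : σ.IsPrimeInv F) :
    ∃ I : Prim Λ.A, Λ.toF I = F := by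
  obtain ⟨i, p, hi, hp, hd⟩ := hF.exists_path
  obtain ⟨s, hs⟩ := Λ.inf i p fun n => (hp n).2.2
  have hs' : ∀ n, s n = Λ.c (i n) (s (n + 1)) := fun n => (hs n).1
  refine ⟨⟨{a | (red_tails hs').rep a = 0}, L2 (tails s), inferInstance, inferInstance,
    inferInstance, (red_tails hs').rep, ?_, rfl⟩, ?_⟩
  · exact isIrreducible_tails hi hs' fun n => by rw [(hs n).2]; exact (hp n).2.1
  · exact FI_rep_tails hF.toIsInv hs' (fun n => by rw [(hs n).2]; exact (hp n).1)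
      (fun W hW hpt hne => by
        obtain ⟨n, j, h⟩ := hd W hW hpt hne
        exact ⟨n, j, by rw [(hs n).2]; exact h⟩)

/-- hulls are given by closed invariant sets -/
theorem exists_hull [T2Space P] (S : Set Λ.A) :
    ∃ F : Set P, σ.IsInv F ∧ ∀ I : Prim Λ.A, S ⊆ I.1 ↔ Λ.toF I ⊆ F := by
  refine ⟨{p | ∀ a ∈ S, ∀ μ ν i, Λ.E μ ν (a : Λ.H →L[ℂ] Λ.H) (σ.θ i p) = 0}, ⟨?_, ?_, ?_⟩, ?_⟩
  · have : {p | ∀ a ∈ S, ∀ μ ν i, Λ.E μ ν (a : Λ.H →L[ℂ] Λ.H) (σ.θ i p) = 0}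
        = ⋂ (a : Λ.A) (_ : a ∈ S) (μ : List ℕ) (ν : List ℕ) (i : ℕ),
          {p | Λ.E μ ν (a : Λ.H →L[ℂ] Λ.H) (σ.θ i p) = 0} := by
      ext p; simp
    rw [this]
    exact isClosed_iInter fun a => isClosed_iInter fun _ => isClosed_iInter fun μ =>
      isClosed_iInter fun ν => isClosed_iInter fun i =>
        isClosed_eq ((Λ.E μ ν (a : Λ.H →L[ℂ] Λ.H)).continuous.comp (σ.θ i).continuous)
          continuous_const
  · intro a _ μ ν i
    rw [σ.map_pt, Λ.E_pt a.2]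
  · intro j p hp a ha μ ν i
    obtain ⟨k, hk⟩ := σ.comp i j
    have := hp a ha μ ν k
    rw [hk] at this
    exact this
  · intro I
    constructor
    · intro h p hp a ha μ ν i
      exact (mem_prim_iff I a).1 (h ha) μ ν _ ((isInv_toF I).inv i p hp)
    · intro h a ha
      rw [mem_prim_iff]
      intro μ ν p hp
      obtain ⟨i, hi⟩ := σ.one
      have := h hp a ha μ ν i
      rw [hi] at this
      exact this

theorem isClosed_toF_iff [T2Space P] {C : Set (Prim Λ.A)} :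
    IsClosed C ↔ ∃ F : Set P, σ.IsInv F ∧ C = {I | Λ.toF I ⊆ F} := by
  rw [isClosed_prim_iff]
  constructor
  · rintro ⟨S, rfl⟩
    obtain ⟨F, hF, h⟩ := exists_hull S
    exact ⟨F, hF, by ext I; exact h I⟩
  · rintro ⟨F, hF, rfl⟩
    exact ⟨Λ.vanish F, by ext I; exact (vanish_subset_iff I hF).symm⟩

end PathSpace

end

end Run7.h917
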