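import Pool.Agent.Run7.h917.Ideal
import Pool.Agent.Run7.h917.Path
import Pool.Agent.Run7.h917.DefsF

/-!
# Irreducible representations of `A`
-/

open scoped ENNReal ComplexConjugate InnerProductSpace Topology
open Filter ContinuousLinearMap

set_option linter.unusedSectionVars false

namespace Run7.h917

noncomputable section

namespace L2
variable {ι κ : Type} 

theorem extend_sq' {f : ι → κ} (hf : Function.Injective f) (ξ : L2 ι) :
    Summable (fun t => ‖Function.extend f (ξ : ι → ℂ) 0 t‖ ^ 2) ∧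
      ∑' t, ‖Function.extend f (ξ : ι → ℂ) 0 t‖ ^ 2 = ‖ξ‖ ^ 2 := by
  have h0 : ∀ t, t ∉ Set.range f → ‖Function.extend f (ξ : ι → ℂ) 0 t‖ ^ 2 = 0 := by
    intro t ht
    rw [Function.extend_apply' _ _ _ (by simpa using ht)]
    simp
  have h1 : (fun t => ‖Function.extend f (ξ : ι → ℂ) 0 t‖ ^ 2) ∘ f = fun t => ‖ξ t‖ ^ 2 := by
    funext t
    simp [hf.extend_apply]
  refine ⟨(hf.summable_iff h0).1 (by rw [h1]; exact summable_sq ξ), ?_⟩
  rw [norm_sq, ← h1]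
  exact (hf.tsum_eq (by
    intro t ht
    by_contra hn
    exact ht (h0 t hn))).symm

/-- the isometry `δ_t ↦ δ_{f t}` -/
def V (f : ι → κ) (hf : Function.Injective f) : L2 ι →L[ℂ] L2 κ :=
  LinearMap.mkContinuous
    { toFun := fun ξ => mk (Function.extend f (ξ : ι → ℂ) 0) (extend_sq' hf ξ).1
      map_add' := fun ξ η => by
        ext t
        change Function.extend f ((ξ + η : L2 ι) : ι → ℂ) 0 t
          = Function.extend f (ξ : ι → ℂ) 0 t + Function.extend f (η : ι → ℂ) 0 t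
        by_cases h : ∃ s, f s = t
        · obtain ⟨s, rfl⟩ := h
          rw [hf.extend_apply, hf.extend_apply, hf.extend_apply]
          rfl
        · rw [Function.extend_apply' _ _ _ h, Function.extend_apply' _ _ _ h,
            Function.extend_apply' _ _ _ h]
          simp
      map_smul' := fun a ξ => by
        ext t
        by_cases h : ∃ s, f s = t
        · obtain ⟨s, rfl⟩ := h
          simp [hf.extend_apply]
        · simp [Function.extend_apply' _ _ _ h] } 1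
    (fun ξ => by
      have h : ‖(mk (Function.extend f (ξ : ι → ℂ) 0) (extend_sq' hf ξ).1 : L2 κ)‖ ^ 2
          = ‖ξ‖ ^ 2 := by
        rw [norm_sq]
        exact (extend_sq' hf ξ).2
      have := (sq_eq_sq₀ (norm_nonneg _) (norm_nonneg _)).1 h
      rw [one_mul]
      exact this.le)

theorem V_apply {f : ι → κ} (hf : Function.Injective f) (ξ : L2 ι) (t : ι) :
    (V f hf ξ) (f t) = ξ t := by
  change Function.extend f (ξ : ι → ℂ) 0 (f t) = ξ t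
  rw [hf.extend_apply]

theorem V_apply' {f : ι → κ} (hf : Function.Injective f) (ξ : L2 ι) {t : κ}
    (h : ∀ s, f s ≠ t) : (V f hf ξ) t = 0 := by
  change Function.extend f (ξ : ι → ℂ) 0 t = 0
  rw [Function.extend_apply' _ _ _ (by simpa using h)]
  rfl

theorem V_δ {f : ι → κ} (hf : Function.Injective f) (t : ι) : V f hf (δ t) = δ (f t) := by
  ext s
  by_cases h : ∃ u, f u = s
  · obtain ⟨u, rfl⟩ := h
    rw [V_apply]
    by_cases h : u = t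
    · subst h; rw [δ_self, δ_self]
    · rw [δ_ne h, δ_ne (fun h' => h (hf h'))]
  · rw [V_apply' hf _ (by simpa using h), δ_ne]
    rintro rfl
    exact h ⟨t, rfl⟩

/-- The adjoint of the isometry: pull back along `f`. -/
theorem adj_V_apply {f : ι → κ} (hf : Function.Injective f) (ξ : L2 κ) (t : ι) :
    (adjoint (V f hf) ξ) t = ξ (f t) := by
  rw [← inner_δ_left, ContinuousLinearMap.adjoint_inner_right, V_δ, inner_δ_left]

theorem adj_V_V {f : ι → κ} (hf : Function.Injective f) (ξ : L2 ι) :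
    adjoint (V f hf) (V f hf ξ) = ξ := by
  ext t
  rw [adj_V_apply, V_apply]

end L2

namespace PathSpace
variable {P : Type} [TopologicalSpace P] {σ : PtSys P} (Λ : PathSpace σ) [CompactSpace P]

/-- reducing sets of paths -/
def Red (ι : Set Λ.T) : Prop := ∀ i t, Λ.c i t ∈ ι ↔ t ∈ ι

variable {Λ}

theorem Red.cw_mem {ι : Set Λ.T} (hι : Λ.Red ι) (w : List ℕ) (t : Λ.T) :
    Λ.cw w t ∈ ι ↔ t ∈ ι := by
  induction w with
  | nil => rfl
  | cons i w ih => rw [cw_cons, hι, ih]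

/-- the isometry of a set of paths -/
def VV (ι : Set Λ.T) : L2 ι →L[ℂ] Λ.H := L2.V (fun t : ι => (t : Λ.T)) Subtype.val_injective

theorem VV_δ {ι : Set Λ.T} (t : ι) : VV ι (L2.δ t) = L2.δ (t : Λ.T) := L2.V_δ _ t

theorem adj_VV_VV {ι : Set Λ.T} (ξ : L2 ι) : adjoint (VV ι) (VV ι ξ) = ξ := L2.adj_V_V _ ξ

theorem adj_VV_apply {ι : Set Λ.T} (ξ : Λ.H) (t : ι) : (adjoint (VV ι) ξ) t = ξ t :=
  L2.adj_V_apply _ _ _

/-- action of a monomial on a basis vector -/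
theorem mon_δ_cw (μ : List ℕ) (f : C(P, ℂ)) (ν : List ℕ) (t : Λ.T) :
    Λ.mon μ f ν (L2.δ (Λ.cw ν t)) = f (Λ.r t) • L2.δ (Λ.cw μ t) := by
  rw [mon, mul_apply_eq_comp, mul_apply_eq_comp]
  have h1 : star (Λ.Sw ν) (L2.δ (Λ.cw ν t)) = L2.δ t := L2.star_S_δ _ _
  have h2 : Λ.Sw μ (L2.δ t) = L2.δ (Λ.cw μ t) := L2.S_δ _ _
  rw [h1, Df_δ, map_smul, h2]

theorem mon_δ_ne (μ : List ℕ) (f : C(P, ℂ)) (ν : List ℕ) {t : Λ.T} (h : ∀ s, Λ.cw ν s ≠ t) :
    Λ.mon μ f ν (L2.δ t) = 0 := by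
  rw [mon, mul_apply_eq_comp, mul_apply_eq_comp]
  have h1 : star (Λ.Sw ν) (L2.δ t) = 0 := L2.star_S_δ' (Λ.cw_inj ν) h
  rw [h1, map_zero, map_zero]

/-- the range of `VV` is invariant -/
theorem Red.VV_adj {ι : Set Λ.T} (hι : Λ.Red ι) {a : Λ.H →L[ℂ] Λ.H} (ha : a ∈ Λ.A) (ξ : L2 ι) :
    VV ι (adjoint (VV ι) (a (VV ι ξ))) = a (VV ι ξ) := by
  let L : (Λ.H →L[ℂ] Λ.H) →L[ℂ] (L2 ι →L[ℂ] Λ.H) :=
    (ContinuousLinearMap.compL ℂ (L2 ι) Λ.H Λ.H ((VV ι) ∘L (adjoint (VV ι)) - 1)) ∘L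
      ((ContinuousLinearMap.compL ℂ (L2 ι) Λ.H Λ.H).flip (VV ι))
  have hL : ∀ b ξ, L b ξ = VV ι (adjoint (VV ι) (b (VV ι ξ))) - b (VV ι ξ) := by
    intro b ξ
    rfl
  have h1 : L a ∈ (⊥ : Submodule ℂ (L2 ι →L[ℂ] Λ.H)) := by
    refine Λ.map_mem_of_mon L ⊥ ?_ ?_ ha
    · rw [Submodule.bot_coe]; exact isClosed_singleton
    · intro μ f ν hf
      rw [Submodule.mem_bot]
      refine L2.ext_δ fun t => ?_
      rw [hL, VV_δ]
      by_cases h : ∃ s, Λ.cw ν s = t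
      · obtain ⟨s, hs⟩ := h
        have hs' : s ∈ ι := (hι.cw_mem ν s).1 (by rw [hs]; exact t.2)
        have hs'' : Λ.cw μ s ∈ ι := (hι.cw_mem μ s).2 hs'
        rw [← hs, mon_δ_cw]
        have : (L2.δ (Λ.cw μ s) : Λ.H) = VV ι (L2.δ ⟨Λ.cw μ s, hs''⟩) :=
          (VV_δ (⟨Λ.cw μ s, hs''⟩ : ι)).symm
        rw [this, map_smul, adj_VV_VV, map_smul, sub_self]
        rfl
      · rw [mon_δ_ne μ f ν (by push Not at h; exact h)]
        simp
  rw [Submodule.mem_bot] at h1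
  have h2 := hL a ξ
  rw [h1] at h2
  exact (sub_eq_zero.1 h2.symm)

/-- the representation on a reducing set of paths -/
def Red.rep {ι : Set Λ.T} (hι : Λ.Red ι) : Λ.A →⋆ₙₐ[ℂ] (L2 ι →L[ℂ] L2 ι) where
  toFun a := (adjoint (VV ι)) ∘L (a : Λ.H →L[ℂ] Λ.H) ∘L (VV ι)
  map_smul' c a := by
    ext ξ : 1
    simp
  map_zero' := by
    ext ξ : 1
    simp
  map_add' a b := by
    ext ξ : 1
    simp
  map_mul' a b := by
    ext ξ : 1
    simp only [mul_apply_eq_comp, ContinuousLinearMap.comp_apply, MulMemClass.coe_mul]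
    rw [hι.VV_adj b.2]
  map_star' a := by
    rw [ContinuousLinearMap.star_eq_adjoint, ContinuousLinearMap.adjoint_comp,
      ContinuousLinearMap.adjoint_comp, ContinuousLinearMap.adjoint_adjoint]
    rfl

theorem Red.rep_apply {ι : Set Λ.T} (hι : Λ.Red ι) (a : Λ.A) (ξ : L2 ι) :
    hι.rep a ξ = adjoint (VV ι) ((a : Λ.H →L[ℂ] Λ.H) (VV ι ξ)) := rfl

theorem Red.rep_mon_cw {ι : Set Λ.T} (hι : Λ.Red ι) (μ : List ℕ) {f : C(P, ℂ)}
    (hf : f σ.pt = 0) (ν : List ℕ) (t : ι) {x : ι} (hx : (x : Λ.T) = Λ.cw ν t) :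
    hι.rep ⟨Λ.mon μ f ν, Λ.mon_mem_A μ hf ν⟩ (L2.δ x)
      = f (Λ.r t) • L2.δ ⟨Λ.cw μ t, (hι.cw_mem μ t).2 t.2⟩ := by
  rw [hι.rep_apply, VV_δ, hx, mon_δ_cw, map_smul]
  congr 1
  have : (L2.δ (Λ.cw μ t) : Λ.H) = VV ι (L2.δ ⟨Λ.cw μ t, (hι.cw_mem μ t).2 t.2⟩) :=
    (VV_δ (⟨Λ.cw μ t, (hι.cw_mem μ t).2 t.2⟩ : ι)).symm
  rw [this, adj_VV_VV]

theorem Red.rep_mon_ne {ι : Set Λ.T} (hι : Λ.Red ι) (μ : List ℕ) {f : C(P, ℂ)}
    (hf : f σ.pt = 0) (ν : List ℕ) {x : ι} (hx : ∀ s, Λ.cw ν s ≠ x) :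
    hι.rep ⟨Λ.mon μ f ν, Λ.mon_mem_A μ hf ν⟩ (L2.δ x) = 0 := by
  rw [hι.rep_apply, VV_δ, mon_δ_ne μ f ν hx, map_zero]

end PathSpace

end

end Run7.h917
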