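import Mathlib

/-!
# Pointed dynamical systems (interface between Part I and Part II)

A `PtSys` on a compact space `P` is a base point and a countable monoid of continuous selfmaps of
`P` that fix the base point, enumerated by `ℕ` in such a way that every member occurs infinitely
often.
-/

namespace Run7.h917

universe u

/-- A pointed space with a countable monoid of continuous self maps fixing the base point. -/
structure PtSys (P : Type) [TopologicalSpace P] where
  /-- the base point -/
  pt : P
  /-- the enumeration of the monoid -/
  θ : ℕ → C(P, P)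
  map_pt : ∀ i, θ i pt = pt
  rep : ∀ i N, ∃ j, N ≤ j ∧ θ j = θ i
  one : ∃ i, θ i = ContinuousMap.id P
  comp : ∀ i j, ∃ k, θ k = (θ i).comp (θ j)

/-- The closed subsets of `P` that contain the base point and are invariant, ordered by
inclusion. -/
def PtSys.InvClosed {P : Type} [TopologicalSpace P] (σ : PtSys P) : Type :=
  {F : TopologicalSpace.Closeds P // σ.pt ∈ F ∧ ∀ i, ∀ p ∈ F, σ.θ i p ∈ F}

instance {P : Type} [TopologicalSpace P] (σ : PtSys P) : PartialOrder σ.InvClosed :=
  inferInstanceAs (PartialOrder {F : TopologicalSpace.Closeds P //
    σ.pt ∈ F ∧ ∀ i, ∀ p ∈ F, σ.θ i p ∈ F})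

end Run7.h917
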