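import Pool.Agent.Run7.h917.DefsI

/-!
# T1: Dini functions
-/

open TopologicalSpace Set

namespace Run7.h917

universe u

section T1
variable {X : Type u} [TopologicalSpace X]

theorem IsDini.zero : IsDini (fun _ : X => (0 : ℝ)) where
  nonneg _ := le_rfl
  le_one _ := zero_le_one
  lsc s := isOpen_const
  cpt s t hs hst := ⟨∅, isCompact_empty, fun x hx => absurd hx (by
    simp only [mem_ofPred_eq, not_lt]; linarith), empty_subset _⟩

theorem IsDini.max {g h : X → ℝ} (hg : IsDini g) (hh : IsDini h) :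
    IsDini (fun x => Max.max (g x) (h x)) where
  nonneg x := le_max_of_le_left (hg.nonneg x)
  le_one x := max_le (hg.le_one x) (hh.le_one x)
  lsc s := by
    have : {x | s < Max.max (g x) (h x)} = {x | s < g x} ∪ {x | s < h x} := by
      ext x; simp [lt_max_iff]
    rw [this]
    exact (hg.lsc s).union (hh.lsc s)
  cpt s t hs hst := by
    obtain ⟨C, hC, h1, h2⟩ := hg.cpt s t hs hst
    obtain ⟨C', hC', h1', h2'⟩ := hh.cpt s t hs hst
    refine ⟨C ∪ C', hC.union hC', ?_, ?_⟩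
    · intro x hx
      rcases lt_max_iff.1 (show t < Max.max (g x) (h x) from hx) with h | h
      · exact Or.inl (h1 h)
      · exact Or.inr (h1' h)
    · rintro x (hx | hx)
      · exact show s < Max.max (g x) (h x) from lt_max_of_lt_left (show s < g x from h2 hx)
      · exact show s < Max.max (g x) (h x) from lt_max_of_lt_right (show s < h x from h2' hx)

theorem IsDini.min_const {h : X → ℝ} (hh : IsDini h) {a : ℝ} (ha : 0 ≤ a) :
    IsDini (fun x => Min.min (h x) a) where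
  nonneg x := le_min (hh.nonneg x) ha
  le_one x := min_le_of_left_le (hh.le_one x)
  lsc s := by
    by_cases hs : s < a
    · have : {x | s < Min.min (h x) a} = {x | s < h x} := by
        ext x; simp [lt_min_iff, hs]
      rw [this]
      exact hh.lsc s
    · have : {x | s < Min.min (h x) a} = ∅ := by
        ext x
        simp only [mem_ofPred_eq, lt_min_iff, mem_empty_iff_false, iff_false, not_and]
        exact fun _ => hs
      rw [this]
      exact isOpen_empty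
  cpt s t hs hst := by
    by_cases ht : t < a
    · obtain ⟨C, hC, h1, h2⟩ := hh.cpt s t hs hst
      refine ⟨C, hC, fun x hx => h1 (lt_min_iff.1 (show t < Min.min (h x) a from hx)).1,
        fun x hx => show s < Min.min (h x) a from lt_min (show s < h x from h2 hx) ?_⟩
      linarith
    · refine ⟨∅, isCompact_empty, fun x hx => ?_, empty_subset _⟩
      exact absurd (lt_min_iff.1 (show t < Min.min (h x) a from hx)).2 ht

theorem IsDini.const_mul {h : X → ℝ} (hh : IsDini h) {a : ℝ} (ha : 0 ≤ a) (ha1 : a ≤ 1) :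
    IsDini (fun x => a * h x) := by
  rcases ha.eq_or_lt with rfl | ha0
  · simpa using IsDini.zero
  have key : ∀ s, {x | s < a * h x} = {x | s / a < h x} := by
    intro s
    ext x
    simp only [mem_ofPred_eq]
    rw [div_lt_iff₀' ha0]
  refine ⟨fun x => mul_nonneg ha (hh.nonneg x), fun x => ?_, fun s => ?_, fun s t hs hst => ?_⟩
  · exact mul_le_one₀ ha1 (hh.nonneg x) (hh.le_one x)
  · rw [key]; exact hh.lsc _
  · rw [key, key]
    exact hh.cpt _ _ (by positivity) (by gcongr)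

/-! ### Urysohn -/

/-- way below -/
def WB (V W : Set X) : Prop := ∃ K, IsCompact K ∧ V ⊆ K ∧ K ⊆ W

theorem WB.subset {V W : Set X} (h : WB V W) : V ⊆ W := by
  obtain ⟨K, -, h1, h2⟩ := h
  exact h1.trans h2

theorem WB.mono {V V' W W' : Set X} (h : WB V W) (hV : V' ⊆ V) (hW : W ⊆ W') : WB V' W' := by
  obtain ⟨K, hK, h1, h2⟩ := h
  exact ⟨K, hK, hV.trans h1, h2.trans hW⟩

theorem WB.interp [LocallyCompactSpace X] {V W : Set X} (hW : IsOpen W) (h : WB V W) :
    ∃ V', IsOpen V' ∧ WB V V' ∧ WB V' W := by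
  obtain ⟨K, hK, h1, h2⟩ := h
  obtain ⟨L, hL, h3, h4⟩ := exists_compact_between hK hW h2
  exact ⟨interior L, isOpen_interior, ⟨K, hK, h1, h3⟩, ⟨L, hL, interior_subset, h4⟩⟩

open Classical in
/-- interpolant -/
noncomputable def ipl [LocallyCompactSpace X] (V W : Set X) : Set X :=
  if h : IsOpen W ∧ WB V W then (WB.interp h.1 h.2).choose else W

theorem ipl_spec [LocallyCompactSpace X] {V W : Set X} (hW : IsOpen W) (h : WB V W) :
    IsOpen (ipl V W) ∧ WB V (ipl V W) ∧ WB (ipl V W) W := by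
  have h' : IsOpen W ∧ WB V W := ⟨hW, h⟩
  rw [ipl, dif_pos h']
  exact (WB.interp h'.1 h'.2).choose_spec

/-- the family -/
noncomputable def fam [LocallyCompactSpace X] (U V : Set X) : ℕ → ℕ → Set X
  | 0, j => if j = 0 then U else if j = 1 then V else ∅
  | n + 1, j => if j % 2 = 0 then fam U V n (j / 2)
      else ipl (fam U V n (j / 2 + 1)) (fam U V n (j / 2))

variable [LocallyCompactSpace X] {U V : Set X}

theorem fam_even (n k : ℕ) : fam U V (n + 1) (2 * k) = fam U V n k := by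
  rw [fam, if_pos (by omega)]
  congr 1
  omega

theorem fam_odd (n k : ℕ) : fam U V (n + 1) (2 * k + 1)
    = ipl (fam U V n (k + 1)) (fam U V n k) := by
  rw [fam, if_neg (by omega)]
  congr 2 <;> omega

theorem fam_spec (hU : IsOpen U) (hV : IsOpen V) (hVU : WB V U) (n : ℕ) :
    ∀ j, IsOpen (fam U V n j) ∧ WB (fam U V n (j + 1)) (fam U V n j) := by
  induction n with
  | zero =>
    intro j
    constructor
    · simp only [fam]
      split_ifs
      · exact hU
      · exact hV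
      · exact isOpen_empty
    · simp only [fam]
      rcases j with _ | j
      · simpa using hVU
      · simp only [Nat.add_eq_zero_iff, one_ne_zero, and_false, if_false, Nat.add_eq_right]
        exact ⟨∅, isCompact_empty, Subset.rfl, empty_subset _⟩
  | succ n ih =>
    intro j
    obtain ⟨k, rfl | rfl⟩ : ∃ k, j = 2 * k ∨ j = 2 * k + 1 := ⟨j / 2, by omega⟩
    · rw [fam_even, fam_odd]
      have h := ipl_spec (ih k).1 (ih k).2
      exact ⟨(ih k).1, h.2.2⟩
    · rw [show 2 * k + 1 + 1 = 2 * (k + 1) by ring, fam_even, fam_odd]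
      have h := ipl_spec (ih k).1 (ih k).2
      exact ⟨h.1, h.2.1⟩

theorem fam_anti (hU : IsOpen U) (hV : IsOpen V) (hVU : WB V U) (n : ℕ) :
    Antitone (fam U V n) :=
  antitone_nat_of_succ_le fun j => (fam_spec hU hV hVU n j).2.subset

theorem fam_wb (hU : IsOpen U) (hV : IsOpen V) (hVU : WB V U) (n : ℕ) {i j : ℕ} (h : i < j) :
    WB (fam U V n j) (fam U V n i) :=
  (fam_spec hU hV hVU n i).2.mono (fam_anti hU hV hVU n h) Subset.rfl

theorem fam_lift (n k j : ℕ) : fam U V (n + k) (2 ^ k * j) = fam U V n j := by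
  induction k with
  | zero => simp
  | succ k ih =>
    rw [← add_assoc, pow_succ', mul_assoc, fam_even, ih]

theorem fam_top (n : ℕ) : fam U V n (2 ^ n) = V := by
  have := fam_lift (U := U) (V := V) 0 n 1
  rw [zero_add, mul_one] at this
  rw [this]
  simp [fam]

theorem fam_zero (n : ℕ) : fam U V n 0 = U := by
  have := fam_lift (U := U) (V := V) 0 n 0
  rw [zero_add, mul_zero] at this
  rw [this]
  simp [fam]

/-- comparison between levels -/
theorem fam_sub (hU : IsOpen U) (hV : IsOpen V) (hVU : WB V U) {n m i j : ℕ}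
    (h : (i : ℝ) / 2 ^ n ≤ (j : ℝ) / 2 ^ m) : fam U V m j ⊆ fam U V n i := by
  rw [← fam_lift m n j, ← fam_lift n m i, add_comm n m]
  apply fam_anti hU hV hVU
  rw [div_le_div_iff₀ (by positivity) (by positivity)] at h
  have : (i : ℝ) * 2 ^ m ≤ (j : ℝ) * 2 ^ n := h
  have h2 : i * 2 ^ m ≤ j * 2 ^ n := by exact_mod_cast this
  linarith [mul_comm (2 ^ m) i, mul_comm (2 ^ n) j]

/-- values -/
def vals (U V : Set X) (x : X) : Set ℝ :=
  {r | r = 0 ∨ ∃ n j : ℕ, j ≤ 2 ^ n ∧ x ∈ fam U V n j ∧ r = (j : ℝ) / 2 ^ n}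

theorem vals_le_one (x : X) : ∀ r ∈ vals U V x, r ≤ 1 := by
  rintro r (rfl | ⟨n, j, hj, -, rfl⟩)
  · exact zero_le_one
  · rw [div_le_one (by positivity)]
    exact_mod_cast hj

theorem vals_bdd (x : X) : BddAbove (vals U V x) := ⟨1, vals_le_one x⟩

theorem vals_nonempty (x : X) : (vals U V x).Nonempty := ⟨0, Or.inl rfl⟩

/-- the Urysohn function -/
noncomputable def uf (U V : Set X) (x : X) : ℝ := sSup (vals U V x)

theorem uf_ge {x : X} {n j : ℕ} (hj : j ≤ 2 ^ n) (hx : x ∈ fam U V n j) :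
    (j : ℝ) / 2 ^ n ≤ uf U V x := le_csSup (vals_bdd x) (Or.inr ⟨n, j, hj, hx, rfl⟩)

theorem lt_uf {x : X} {s : ℝ} (hs : 0 ≤ s) : s < uf U V x ↔
    ∃ n j : ℕ, j ≤ 2 ^ n ∧ x ∈ fam U V n j ∧ s < (j : ℝ) / 2 ^ n := by
  constructor
  · intro h
    obtain ⟨r, hr, hsr⟩ := exists_lt_of_lt_csSup (vals_nonempty x) h
    rcases hr with rfl | ⟨n, j, hj, hx, rfl⟩
    · exact absurd hsr (not_lt.2 hs)
    · exact ⟨n, j, hj, hx, hsr⟩
  · rintro ⟨n, j, hj, hx, hs⟩
    exact lt_of_lt_of_le hs (uf_ge hj hx)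

theorem isDini_uf (hU : IsOpen U) (hV : IsOpen V) (hVU : WB V U) : IsDini (uf U V) where
  nonneg x := le_csSup (vals_bdd x) (Or.inl rfl)
  le_one x := csSup_le (vals_nonempty x) (vals_le_one x)
  lsc s := by
    by_cases hs : 0 ≤ s
    · have : {x | s < uf U V x} = ⋃ (n : ℕ) (j : ℕ) (_ : j ≤ 2 ^ n) (_ : s < (j : ℝ) / 2 ^ n),
          fam U V n j := by
        ext x
        simp only [mem_ofPred_eq, lt_uf hs, mem_iUnion, exists_prop]
        constructor
        · rintro ⟨n, j, h1, h2, h3⟩; exact ⟨n, j, h1, h3, h2⟩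
        · rintro ⟨n, j, h1, h3, h2⟩; exact ⟨n, j, h1, h2, h3⟩
      rw [this]
      exact isOpen_iUnion fun n => isOpen_iUnion fun j => isOpen_iUnion fun _ =>
        isOpen_iUnion fun _ => (fam_spec hU hV hVU n j).1
    · have : {x | s < uf U V x} = univ := by
        ext x
        simp only [mem_ofPred_eq, mem_univ, iff_true]
        push Not at hs
        exact lt_of_lt_of_le hs (le_csSup (vals_bdd x) (Or.inl rfl))
      rw [this]
      exact isOpen_univ
  cpt s t hs hst := by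
    by_cases ht : 1 ≤ t
    · refine ⟨∅, isCompact_empty, fun x hx => ?_, empty_subset _⟩
      have h1 : uf U V x ≤ 1 := csSup_le (vals_nonempty x) (vals_le_one x)
      have h2 : t < uf U V x := hx
      linarith
    · push Not at ht
      obtain ⟨n, hn⟩ := exists_pow_lt_of_lt_one (show 0 < (t - s) / 2 by linarith)
        (show (1 / 2 : ℝ) < 1 by norm_num)
      set j : ℕ := ⌊s * 2 ^ n⌋₊ + 1 with hj
      have h2n : (0 : ℝ) < 2 ^ n := by positivity
      have h1 : s < (j : ℝ) / 2 ^ n := by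
        rw [lt_div_iff₀ h2n, hj]
        push_cast
        exact Nat.lt_floor_add_one _
      have h2 : ((j + 1 : ℕ) : ℝ) / 2 ^ n < t := by
        rw [div_lt_iff₀ h2n, hj]
        have h3 : (⌊s * 2 ^ n⌋₊ : ℝ) ≤ s * 2 ^ n := Nat.floor_le (by positivity)
        have h4 : (1 / 2 : ℝ) ^ n * 2 ^ n = 1 := by
          rw [← mul_pow]; norm_num
        push_cast
        nlinarith
      have hj1 : j + 1 ≤ 2 ^ n := by
        have : ((j + 1 : ℕ) : ℝ) / 2 ^ n < 1 := h2.trans ht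
        rw [div_lt_one h2n] at this
        exact_mod_cast this.le
      obtain ⟨K, hK, h3, h4⟩ := (fam_spec hU hV hVU n j).2
      refine ⟨K, hK, ?_, ?_⟩
      · intro x hx
        obtain ⟨m, i, hi, hxi, hti⟩ := (lt_uf (hs.trans hst).le).1 hx
        exact h3 (fam_sub hU hV hVU (h2.trans hti).le hxi)
      · intro x hx
        exact lt_of_lt_of_le h1 (uf_ge (by omega) (h4 hx))

/-- Urysohn type lemma. -/
theorem exists_dini {C U : Set X} (hC : IsCompact C) (hU : IsOpen U)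
    (hCU : C ⊆ U) : ∃ h : X → ℝ, IsDini h ∧ (∀ x ∈ C, h x = 1) ∧ ∀ x, x ∉ U → h x = 0 := by
  obtain ⟨L, hL, h1, h2⟩ := exists_compact_between hC hU hCU
  have hVU : WB (interior L) U := ⟨L, hL, interior_subset, h2⟩
  have hd := isDini_uf hU isOpen_interior hVU
  refine ⟨uf U (interior L), hd, fun x hx => ?_, fun x hx => ?_⟩
  · refine le_antisymm (hd.le_one x) ?_
    have := uf_ge (U := U) (V := interior L) (x := x) (n := 0) (j := 1) (by simp)
      (by simpa [fam] using h1 hx)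
    simpa using this
  · refine le_antisymm ?_ (hd.nonneg x)
    refine csSup_le (vals_nonempty x) ?_
    rintro r (rfl | ⟨n, j, hj, hxj, rfl⟩)
    · exact le_rfl
    · exfalso
      apply hx
      have := fam_anti hU isOpen_interior hVU n (Nat.zero_le j) hxj
      rwa [fam_zero] at this

/-! ### splitting -/

/-- one level -/
theorem IsDini.split_level {h : X → ℝ} {U₀ U₁ : Set X}
    (hh : IsDini h) (h0 : IsOpen U₀) (h1 : IsOpen U₁) {a s : ℝ} (ha : 0 ≤ a) (has : a < s)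
    (hs1 : s ≤ 1)
    (hcov : {x | a < h x} ⊆ U₀ ∪ U₁) {C : Set X} (hC : IsCompact C) (hCs : C ⊆ {x | s < h x}) :
    ∃ g₀ g₁ : X → ℝ, IsDini g₀ ∧ IsDini g₁ ∧ (∀ x, g₀ x ≤ h x) ∧ (∀ x, g₁ x ≤ h x) ∧
      (∀ x, x ∉ U₀ → g₀ x = 0) ∧ (∀ x, x ∉ U₁ → g₁ x = 0) ∧
      ∀ x ∈ C, s ≤ Max.max (g₀ x) (g₁ x) := by
  have hs0 : 0 ≤ s := ha.trans has.le
  -- the local construction
  have hloc : ∀ (U : Set X), IsOpen U → ∀ x ∈ U, s < h x → ∃ K ∈ nhds x, ∃ g : X → ℝ, IsDini g ∧
      (∀ y, g y ≤ h y) ∧ (∀ y, y ∉ U → g y = 0) ∧ ∀ y ∈ K, s ≤ g y := by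
    intro U hU x hxU hx
    have hO : IsOpen (U ∩ {x | s < h x}) := hU.inter (hh.lsc s)
    obtain ⟨K, hKn, hKU, hKc⟩ := local_compact_nhds (hO.mem_nhds ⟨hxU, hx⟩)
    obtain ⟨g, hg, hg1, hg0⟩ := exists_dini hKc hO hKU
    refine ⟨K, hKn, fun y => s * g y, hg.const_mul hs0 hs1, fun y => ?_, fun y hy => ?_,
      fun y hy => ?_⟩
    · change s * g y ≤ h y
      by_cases hy : y ∈ U ∩ {x | s < h x}
      · have h3 : s < h y := hy.2
        have h4 := hg.le_one y
        have h5 := hg.nonneg y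
        nlinarith
      · rw [hg0 y hy, mul_zero]; exact hh.nonneg y
    · change s * g y = 0
      rw [hg0 y (fun h => hy h.1), mul_zero]
    · change s ≤ s * g y
      rw [hg1 y hy, mul_one]
  refine hC.induction_on (p := fun C => ∃ g₀ g₁ : X → ℝ, IsDini g₀ ∧ IsDini g₁ ∧
      (∀ x, g₀ x ≤ h x) ∧ (∀ x, g₁ x ≤ h x) ∧
      (∀ x, x ∉ U₀ → g₀ x = 0) ∧ (∀ x, x ∉ U₁ → g₁ x = 0) ∧
      ∀ x ∈ C, s ≤ Max.max (g₀ x) (g₁ x)) ?_ ?_ ?_ ?_
  · exact ⟨_, _, IsDini.zero, IsDini.zero, hh.nonneg, hh.nonneg, fun _ _ => rfl, fun _ _ => rfl,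
      fun x hx => absurd hx (by simp)⟩
  · rintro C C' hsub ⟨g₀, g₁, a1, a2, a3, a4, a5, a6, a7⟩
    exact ⟨g₀, g₁, a1, a2, a3, a4, a5, a6, fun x hx => a7 x (hsub hx)⟩
  · rintro C C' ⟨g₀, g₁, a1, a2, a3, a4, a5, a6, a7⟩ ⟨f₀, f₁, b1, b2, b3, b4, b5, b6, b7⟩
    refine ⟨_, _, a1.max b1, a2.max b2, fun x => max_le (a3 x) (b3 x),
      fun x => max_le (a4 x) (b4 x), fun x hx => ?_, fun x hx => ?_, ?_⟩
    · rw [a5 x hx, b5 x hx, max_self]
    · rw [a6 x hx, b6 x hx, max_self]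
    · rintro x (hx | hx)
      · refine (a7 x hx).trans (max_le_max (le_max_left _ _) (le_max_left _ _))
      · refine (b7 x hx).trans (max_le_max (le_max_right _ _) (le_max_right _ _))
  · intro x hx
    have hxs : s < h x := hCs hx
    rcases hcov (show a < h x by linarith) with hxU | hxU
    · obtain ⟨K, hK, g, c1, c2, c3, c4⟩ := hloc U₀ h0 x hxU hxs
      exact ⟨K, mem_nhdsWithin_of_mem_nhds hK, g, _, c1, IsDini.zero, c2, hh.nonneg, c3,
        fun _ _ => rfl, fun y hy => le_max_of_le_left (c4 y hy)⟩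
    · obtain ⟨K, hK, g, c1, c2, c3, c4⟩ := hloc U₁ h1 x hxU hxs
      exact ⟨K, mem_nhdsWithin_of_mem_nhds hK, _, g, IsDini.zero, c1, hh.nonneg, c2,
        fun _ _ => rfl, c3, fun y hy => le_max_of_le_right (c4 y hy)⟩

/-- Splitting lemma. -/
theorem IsDini.split {h : X → ℝ} (hh : IsDini h) {U₀ U₁ : Set X}
    (h0 : IsOpen U₀) (h1 : IsOpen U₁) {a : ℝ} (ha : 0 ≤ a)
    (hcov : {x | a < h x} ⊆ U₀ ∪ U₁) {ε : ℝ} (hε : 0 < ε) :
    ∃ g₀ g₁ : X → ℝ, IsDini g₀ ∧ IsDini g₁ ∧ (∀ x, g₀ x ≤ h x) ∧ (∀ x, g₁ x ≤ h x) ∧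
      (∀ x, x ∉ U₀ → g₀ x = 0) ∧ (∀ x, x ∉ U₁ → g₁ x = 0) ∧
      ∀ x, h x ≤ Max.max (Max.max (g₀ x) (g₁ x)) a + ε := by
  -- levels `a + j * (ε / 2)`, `1 ≤ j ≤ m`
  have key : ∀ m : ℕ, ∃ g₀ g₁ : X → ℝ, IsDini g₀ ∧ IsDini g₁ ∧ (∀ x, g₀ x ≤ h x) ∧
      (∀ x, g₁ x ≤ h x) ∧ (∀ x, x ∉ U₀ → g₀ x = 0) ∧ (∀ x, x ∉ U₁ → g₁ x = 0) ∧
      ∀ j : ℕ, 1 ≤ j → j ≤ m → ∀ x, a + (j + 1) * (ε / 2) < h x →
        a + j * (ε / 2) ≤ Max.max (g₀ x) (g₁ x) := by
    intro m
    induction m with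
    | zero =>
      exact ⟨_, _, IsDini.zero, IsDini.zero, hh.nonneg, hh.nonneg, fun _ _ => rfl,
        fun _ _ => rfl, fun j hj hj' => by omega⟩
    | succ m ih =>
      obtain ⟨g₀, g₁, a1, a2, a3, a4, a5, a6, a7⟩ := ih
      by_cases hm : a + ((m + 1 : ℕ) : ℝ) * (ε / 2) ≤ 1
      · have hpos : a < a + ((m + 1 : ℕ) : ℝ) * (ε / 2) := by
          have : (0 : ℝ) < ((m + 1 : ℕ) : ℝ) := by positivity
          nlinarith
        obtain ⟨C, hC, hC1, hC2⟩ := hh.cpt (a + ((m + 1 : ℕ) : ℝ) * (ε / 2))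
          (a + (((m + 1 : ℕ) : ℝ) + 1) * (ε / 2)) (by linarith) (by nlinarith)
        obtain ⟨f₀, f₁, b1, b2, b3, b4, b5, b6, b7⟩ :=
          hh.split_level h0 h1 ha hpos hm hcov hC hC2
        refine ⟨_, _, a1.max b1, a2.max b2, fun x => max_le (a3 x) (b3 x),
          fun x => max_le (a4 x) (b4 x), fun x hx => ?_, fun x hx => ?_, ?_⟩
        · rw [a5 x hx, b5 x hx, max_self]
        · rw [a6 x hx, b6 x hx, max_self]
        · intro j hj hj' x hx
          rcases Nat.lt_or_ge m j with hlt | hge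
          · obtain rfl : j = m + 1 := by omega
            exact (b7 x (hC1 hx)).trans (max_le_max (le_max_right _ _) (le_max_right _ _))
          · exact (a7 j hj hge x hx).trans (max_le_max (le_max_left _ _) (le_max_left _ _))
      · push Not at hm
        refine ⟨g₀, g₁, a1, a2, a3, a4, a5, a6, fun j hj hj' x hx => ?_⟩
        rcases Nat.lt_or_ge m j with hlt | hge
        · obtain rfl : j = m + 1 := by omega
          exfalso
          have := hh.le_one x
          nlinarith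
        · exact a7 j hj hge x hx
  obtain ⟨m, hm⟩ := exists_nat_gt (2 / ε)
  obtain ⟨g₀, g₁, a1, a2, a3, a4, a5, a6, a7⟩ := key m
  refine ⟨g₀, g₁, a1, a2, a3, a4, a5, a6, fun x => ?_⟩
  by_contra hcon
  push Not at hcon
  -- maximal `j` with `h x > a + (j+1) ε/2`
  have hx1 : a + ε < h x := by
    have := le_max_right (Max.max (g₀ x) (g₁ x)) a
    linarith
  have hmε : 1 < (m : ℝ) * (ε / 2) := by
    rw [div_lt_iff₀ hε] at hm
    linarith
  let p : ℕ → Prop := fun j => h x ≤ a + ((j : ℝ) + 1) * (ε / 2)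
  have hpm : p m := by
    change h x ≤ a + ((m : ℝ) + 1) * (ε / 2)
    have := hh.le_one x
    nlinarith
  classical
  have hex : ∃ j, p j := ⟨m, hpm⟩
  set j := Nat.find hex with hj
  have hjp : p j := Nat.find_spec hex
  have hj2 : 2 ≤ j := by
    by_contra hlt
    have hj1 : j ≤ 1 := by omega
    have hjr : (j : ℝ) ≤ 1 := by exact_mod_cast hj1
    have h3 : h x ≤ a + ((j : ℝ) + 1) * (ε / 2) := hjp
    nlinarith
  have hjm : j ≤ m := Nat.find_min' hex hpm
  have hnp : ¬ p (j - 1) := Nat.find_min hex (by omega)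
  have h4 : a + (((j - 1 : ℕ) : ℝ) + 1) * (ε / 2) < h x := by
    by_contra h5
    exact hnp (not_lt.1 h5)
  have h6 := a7 (j - 1) (by omega) (by omega) x h4
  have h7 : ((j - 1 : ℕ) : ℝ) = (j : ℝ) - 1 := by
    rw [Nat.cast_sub (by omega)]; simp
  rw [h7] at h6
  have h8 : h x ≤ a + ((j : ℝ) + 1) * (ε / 2) := hjp
  have h9 := le_max_left (Max.max (g₀ x) (g₁ x)) a
  nlinarith

end T1

end Run7.h917
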