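import Pool.Agent.Run7.h917.T1

/-!
# T2: existence of the tree
-/

open TopologicalSpace Set

namespace Run7.h917

universe u

section
variable {X : Type u} [TopologicalSpace X]

/-- a countable family of open sets closed under unions and containing a basis -/
theorem exists_fam (X : Type u) [TopologicalSpace X] [SecondCountableTopology X] :
    ∃ B : ℕ → Set X, (∀ n, IsOpen (B n)) ∧ (∃ n, B n = ∅) ∧ (∀ i j, ∃ k, B k = B i ∪ B j) ∧
      ∀ (x : X) (U : Set X), IsOpen U → x ∈ U → ∃ n, x ∈ B n ∧ B n ⊆ U := by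
  set 𝓑 : Set (Set X) := (fun s : Set (Set X) => ⋃₀ s) '' {s | s.Finite ∧ s ⊆ countableBasis X}
    with h𝓑
  have hc : 𝓑.Countable := (countable_ofPred_finite_subset (countable_countableBasis X)).image _
  have hne : 𝓑.Nonempty := ⟨∅, ∅, ⟨finite_empty, empty_subset _⟩, sUnion_empty⟩
  obtain ⟨B, hB⟩ := hc.exists_eq_range hne
  have hmem : ∀ n, B n ∈ 𝓑 := fun n => by rw [hB]; exact ⟨n, rfl⟩
  refine ⟨B, fun n => ?_, ?_, fun i j => ?_, fun x U hU hx => ?_⟩
  · obtain ⟨s, ⟨-, hs⟩, h⟩ := hmem n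
    rw [← h]
    exact isOpen_sUnion fun t ht => isOpen_of_mem_countableBasis (hs ht)
  · have : (∅ : Set X) ∈ 𝓑 := ⟨∅, ⟨finite_empty, empty_subset _⟩, sUnion_empty⟩
    rw [hB] at this
    exact this
  · obtain ⟨s, ⟨hsf, hs⟩, h⟩ := hmem i
    obtain ⟨s', ⟨hsf', hs'⟩, h'⟩ := hmem j
    have : B i ∪ B j ∈ 𝓑 := by
      refine ⟨s ∪ s', ⟨hsf.union hsf', union_subset hs hs'⟩, ?_⟩
      rw [← h, ← h']
      exact sUnion_union _ _
    rw [hB] at this
    exact this
  · obtain ⟨V, hV, hxV, hVU⟩ := (isBasis_countableBasis X).exists_subset_of_mem_open hx hU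
    have : V ∈ 𝓑 := ⟨{V}, ⟨finite_singleton V, singleton_subset_iff.2 hV⟩, sUnion_singleton V⟩
    rw [hB] at this
    obtain ⟨n, rfl⟩ := this
    exact ⟨n, hxV, hVU⟩

/-- one splitting step -/
theorem exists_step [LocallyCompactSpace X] {h : X → ℝ} (hh : IsDini h) {U U' : Set X}
    (hU : IsOpen U) (hU' : IsOpen U') {a : ℝ} (ha : 0 ≤ a) {ε : ℝ} (hε : 0 < ε) :
    ∃ c : Fin 3 → X → ℝ, (∀ i, IsDini (c i)) ∧ (∀ i x, c i x ≤ h x) ∧
      (∀ x, ∃ i, h x ≤ c i x + ε) ∧
      ({x | a < h x} ⊆ U ∪ U' → ∀ i, (∀ x, x ∉ U → c i x = 0) ∨ (∀ x, x ∉ U' → c i x = 0) ∨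
        (∀ x, c i x ≤ a)) := by
  by_cases hcov : {x | a < h x} ⊆ U ∪ U'
  · obtain ⟨g₀, g₁, a1, a2, a3, a4, a5, a6, a7⟩ := hh.split hU hU' ha hcov hε
    refine ⟨![g₀, g₁, fun x => min (h x) a], ?_, ?_, ?_, fun _ => ?_⟩
    · intro i
      fin_cases i
      · exact a1
      · exact a2
      · exact hh.min_const ha
    · intro i x
      fin_cases i
      · exact a3 x
      · exact a4 x
      · exact min_le_left _ _
    · intro x
      by_cases h0 : h x ≤ g₀ x + ε
      · exact ⟨0, h0⟩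
      by_cases h1 : h x ≤ g₁ x + ε
      · exact ⟨1, h1⟩
      refine ⟨2, ?_⟩
      change h x ≤ min (h x) a + ε
      have h2 := a7 x
      push Not at h0 h1
      have h3 : h x ≤ a + ε := by
        rcases max_cases (Max.max (g₀ x) (g₁ x)) a with ⟨h4, -⟩ | ⟨h4, -⟩
        · rw [h4] at h2
          rcases max_cases (g₀ x) (g₁ x) with ⟨h5, -⟩ | ⟨h5, -⟩
          · rw [h5] at h2; linarith
          · rw [h5] at h2; linarith
        · rw [h4] at h2; exact h2
      rcases min_cases (h x) a with ⟨h4, -⟩ | ⟨h4, -⟩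
      · rw [h4]; linarith
      · rw [h4]; exact h3
    · intro i
      fin_cases i
      · exact Or.inl a5
      · exact Or.inr (Or.inl a6)
      · exact Or.inr (Or.inr fun x => min_le_right _ _)
  · refine ⟨fun _ => h, fun _ => hh, fun _ _ => le_rfl, fun x => ⟨0, by linarith⟩,
      fun h => absurd h hcov⟩

end

section
variable (X : Type u) [TopologicalSpace X] [LocallyCompactSpace X]

/-- the data for the construction -/
structure TData where
  root : ℕ → X → ℝ
  rootD : ∀ k, IsDini (root k)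
  U : ℕ → Set X
  U' : ℕ → Set X
  hU : ∀ n, IsOpen (U n)
  hU' : ∀ n, IsOpen (U' n)
  a : ℕ → ℝ
  ha : ∀ n, 0 ≤ a n

variable {X} (D : TData X)

theorem eps_pos (n : ℕ) : (0 : ℝ) < (1 / 2 : ℝ) ^ (n + 2) := by positivity

/-- the nodes -/
noncomputable def TData.node (k : ℕ) : List (Fin 3) → {h : X → ℝ // IsDini h}
  | [] => ⟨D.root k, D.rootD k⟩
  | i :: τ => ⟨(exists_step (TData.node k τ).2 (D.hU τ.length) (D.hU' τ.length)
      (D.ha τ.length) (eps_pos τ.length)).choose i, (exists_step (TData.node k τ).2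
      (D.hU τ.length) (D.hU' τ.length) (D.ha τ.length) (eps_pos τ.length)).choose_spec.1 i⟩

/-- node functions -/
noncomputable def TData.f (k : ℕ) (τ : List (Fin 3)) : X → ℝ := (D.node k τ).1

theorem TData.f_spec (k : ℕ) (τ : List (Fin 3)) :
    (∀ i x, D.f k (i :: τ) x ≤ D.f k τ x) ∧
      (∀ x, ∃ i, D.f k τ x ≤ D.f k (i :: τ) x + (1 / 2 : ℝ) ^ (τ.length + 2)) ∧
      ({x | D.a τ.length < D.f k τ x} ⊆ D.U τ.length ∪ D.U' τ.length →
        ∀ i, (∀ x, x ∉ D.U τ.length → D.f k (i :: τ) x = 0) ∨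
        (∀ x, x ∉ D.U' τ.length → D.f k (i :: τ) x = 0) ∨
        (∀ x, D.f k (i :: τ) x ≤ D.a τ.length)) :=
  (exists_step (D.node k τ).2 (D.hU τ.length) (D.hU' τ.length) (D.ha τ.length)
      (eps_pos τ.length)).choose_spec.2

theorem TData.f_suffix (k : ℕ) {τ τ' : List (Fin 3)} (h : τ <:+ τ') (x : X) :
    D.f k τ' x ≤ D.f k τ x := by
  induction τ' with
  | nil => rw [List.suffix_nil.1 h]
  | cons i τ' ih =>
    rcases List.suffix_cons_iff.1 h with rfl | h
    · exact le_rfl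
    · exact ((D.f_spec k τ').1 i x).trans (ih h)

end

/-- **T2.** -/
theorem exists_tree (X : Type u) [TopologicalSpace X] [SecondCountableTopology X]
    [LocallyCompactSpace X] : Nonempty (Tree X) := by
  obtain ⟨B, hBo, ⟨n0, hn0⟩, hBu, hBb⟩ := exists_fam X
  -- roots
  have hroot : ∀ q : ℕ × ℕ, ∃ h : X → ℝ, IsDini h ∧ ((∃ C, IsCompact C ∧ B q.1 ⊆ C ∧ C ⊆ B q.2) →
      (∀ x ∈ B q.1, h x = 1) ∧ ∀ x, x ∉ B q.2 → h x = 0) := by
    intro q
    by_cases hq : ∃ C, IsCompact C ∧ B q.1 ⊆ C ∧ C ⊆ B q.2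
    · obtain ⟨C, hC, h1, h2⟩ := hq
      obtain ⟨h, hh, h3, h4⟩ := exists_dini hC (hBo _) h2
      exact ⟨h, hh, fun _ => ⟨fun x hx => h3 x (h1 hx), h4⟩⟩
    · exact ⟨_, IsDini.zero, fun h => absurd h hq⟩
  choose ρ hρ1 hρ2 using hroot
  -- tasks
  obtain ⟨g, hg⟩ := exists_surjective_nat (ℕ × ℕ × ℚ)
  let D : TData X :=
    { root := fun k => ρ k.unpair
      rootD := fun k => hρ1 _
      U := fun n => B (g n.unpair.1).1
      U' := fun n => B (g n.unpair.1).2.1
      hU := fun n => hBo _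
      hU' := fun n => hBo _
      a := fun n => |((g n.unpair.1).2.2 : ℝ)|
      ha := fun n => abs_nonneg _ }
  refine ⟨{
    h := D.f
    dini := fun k τ => (D.node k τ).2
    mono := fun k τ i x => (D.f_spec k τ).1 i x
    approx := fun k τ x => (D.f_spec k τ).2.1 x
    split := ?_
    root := ?_ }⟩
  · intro k τ s t U U' hs hst hU hU' hcov n
    obtain ⟨C, hC, hC1, hC2⟩ := (D.node k τ).2.cpt s ((s + t) / 2) hs (by linarith)
    have hCU : C ⊆ U ∪ U' := hC2.trans hcov
    obtain ⟨i, j, hi, hj, hij⟩ : ∃ i j, B i ⊆ U ∧ B j ⊆ U' ∧ C ⊆ B i ∪ B j := by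
      refine hC.induction_on (p := fun C => ∃ i j, B i ⊆ U ∧ B j ⊆ U' ∧ C ⊆ B i ∪ B j)
        ?_ ?_ ?_ ?_
      · exact ⟨n0, n0, by rw [hn0]; exact empty_subset _, by rw [hn0]; exact empty_subset _,
          empty_subset _⟩
      · rintro C C' hsub ⟨i, j, h1, h2, h3⟩
        exact ⟨i, j, h1, h2, hsub.trans h3⟩
      · rintro C C' ⟨i, j, h1, h2, h3⟩ ⟨i', j', h1', h2', h3'⟩
        obtain ⟨k, hk⟩ := hBu i i'
        obtain ⟨l, hl⟩ := hBu j j'
        refine ⟨k, l, ?_, ?_, ?_⟩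
        · rw [hk]; exact union_subset h1 h1'
        · rw [hl]; exact union_subset h2 h2'
        · rw [hk, hl]
          rintro x (hx | hx)
          · rcases h3 hx with h | h
            · exact Or.inl (Or.inl h)
            · exact Or.inr (Or.inl h)
          · rcases h3' hx with h | h
            · exact Or.inl (Or.inr h)
            · exact Or.inr (Or.inr h)
      · intro x hx
        rcases hCU hx with hxU | hxU
        · obtain ⟨m, hxm, hm⟩ := hBb x U hU hxU
          exact ⟨B m, mem_nhdsWithin_of_mem_nhds ((hBo m).mem_nhds hxm), m, n0, hm,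
            by rw [hn0]; exact empty_subset _, subset_union_left⟩
        · obtain ⟨m, hxm, hm⟩ := hBb x U' hU' hxU
          exact ⟨B m, mem_nhdsWithin_of_mem_nhds ((hBo m).mem_nhds hxm), n0, m,
            by rw [hn0]; exact empty_subset _, hm, subset_union_right⟩
    obtain ⟨a, ha1, ha2⟩ := exists_rat_btwn (show (s + t) / 2 < t by linarith)
    obtain ⟨c, hc⟩ := hg (i, j, a)
    have hfst : ∀ N, (Nat.pair c N).unpair.1 = c := fun N => by rw [Nat.unpair_pair]
    refine ⟨Nat.pair c n, Nat.right_le_pair c n, fun τ' hτ' hlen i' => ?_⟩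
    have hUeq : D.U τ'.length = B i := by
      change B (g τ'.length.unpair.1).1 = B i
      rw [hlen, hfst, hc]
    have hU'eq : D.U' τ'.length = B j := by
      change B (g τ'.length.unpair.1).2.1 = B j
      rw [hlen, hfst, hc]
    have haeq : D.a τ'.length = (a : ℝ) := by
      change |((g τ'.length.unpair.1).2.2 : ℝ)| = (a : ℝ)
      rw [hlen, hfst, hc, abs_of_pos]
      linarith
    have h := (D.f_spec k τ').2.2
    rw [hUeq, hU'eq, haeq] at h
    rcases h (by
      intro x hx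
      have h1 : (a : ℝ) < D.f k τ' x := hx
      have h2 := D.f_suffix k hτ' x
      have h3 : (s + t) / 2 < D.f k τ x := by linarith
      exact hij (hC1 h3)) i' with h | h | h
    · exact Or.inl fun x hx => h x fun hx' => hx (hi hx')
    · exact Or.inr (Or.inl fun x hx => h x fun hx' => hx (hj hx'))
    · exact Or.inr (Or.inr fun x => (h x).trans ha2.le)
  · intro x U hU hx
    obtain ⟨j, hxj, hj⟩ := hBb x U hU hx
    obtain ⟨K, hKn, hKB, hKc⟩ := local_compact_nhds ((hBo j).mem_nhds hxj)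
    obtain ⟨i, hxi, hi⟩ := hBb x (interior K) isOpen_interior (mem_interior_iff_mem_nhds.2 hKn)
    obtain ⟨h1, h2⟩ := hρ2 (i, j) ⟨K, hKc, hi.trans interior_subset, hKB⟩
    have hroot : D.f (Nat.pair i j) [] = ρ (i, j) := by
      change ρ (Nat.pair i j).unpair = ρ (i, j)
      rw [Nat.unpair_pair]
    refine ⟨Nat.pair i j, ?_, fun y hy => ?_⟩
    · rw [hroot]; exact h1 x hxi
    · rw [hroot]; exact h2 y fun h => hy (hj h)

end Run7.h917
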